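import Mathlib
import Pool.Agent.N991.MK.Fm5

/-!
# The second moment of the squared distance to the identity
-/

open MeasureTheory Matrix Filter Metric
open scoped Matrix.Norms.Frobenius ContDiff Topology
open Pool.Agent.H906R3.YM Pool.Agent.W793.YM Pool.Agent.TH618.YM Pool.Agent.N984.TW
open Pool.Agent.N991.MK
open Pool.Agent.N988.MK (qC Lz Dz pz Lz_sum BC exists_BC Uf dC2 exists_pz
  Dz_cont pz_cont qC_rl Cst exists_Cst dC2_rl dR_le dR_sub)

namespace Pool.Agent.N453.MK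

set_option linter.unusedSectionVars false

noncomputable section

variable {N n : ℕ} {G : Subgroup (UN N)} {B : Frame G n}
variable [CompactSpace G] [MeasurableSpace G] [BorelSpace G]

lemma nN2_eq (g : G) : nN g ^ 2 = 2 * N - 2 * ip 1 (mt g) := by
  rw [nN_sq, ip_apply, conjTranspose_one, one_mul]

lemma nN2_smo : Smo fun z : G => nN z ^ 2 :=
  ⟨fun M => 2 * N - 2 * ip 1 M,
    contDiff_const.sub (contDiff_const.mul (ip (1 : Mat N)).contDiff), fun g => nN2_eq g⟩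

lemma ip_X_one (a : Fin n) : ip (B.X a) 1 = 0 := by
  have h1 : ip (B.X a) 1 = (trace ((B.X a)ᴴ)).re := by rw [ip_apply, mul_one]
  have h2 : (trace ((B.X a)ᴴ)).re = (trace (B.X a)).re := by
    rw [trace_conjTranspose, Complex.star_def, Complex.conj_re]
  have h3 : (trace ((B.X a)ᴴ)).re = -(trace (B.X a)).re := by
    rw [B.skewX, trace_neg, Complex.neg_re]
  rw [h1]
  linarith

lemma pz_eq (z : G) (a : Fin n) : pz B z a = ip (B.X a) (mt z) := by
  show ip (B.X a) (mt z - 1) = _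
  rw [map_sub, ip_X_one, sub_zero]

lemma ip_one_mul (a : Fin n) (z : G) : ip 1 (mt z * B.X a) = -pz B z a := by
  rw [pz_eq, ip_apply, ip_apply, conjTranspose_one, one_mul, B.skewX, neg_mul, trace_neg,
    Complex.neg_re, neg_neg, trace_mul_comm]

lemma dR_nN2 (hG : IsClosed (G : Set (UN N))) (a : Fin n) (z : G) :
    dR B hG (Pi.single a 1) (fun z : G => nN z ^ 2) z = 2 * pz B z a := by
  have hF : ContDiff ℝ 1 fun M : Mat N => 2 * (N : ℝ) - 2 * ip 1 M :=
    contDiff_const.sub (contDiff_const.mul (ip (1 : Mat N)).contDiff)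
  rw [dR_eq B hG (f := fun z : G => nN z ^ 2) hF (fun g => nN2_eq g), LX_sing]
  have h1 : HasFDerivAt (fun M : Mat N => 2 * (N : ℝ) - 2 * ip 1 M)
      (-((2 : ℝ) • ip (1 : Mat N))) (mt z) :=
    ((ip (1 : Mat N)).hasFDerivAt.const_mul 2).const_sub _
  rw [h1.fderiv]
  show -((2 : ℝ) * ip 1 (mt z * B.X a)) = _
  rw [ip_one_mul]
  ring

/-- the sum of the squares of the coordinates -/
lemma sum_pz_le (z : G) : ∑ a, pz B z a ^ 2 ≤ n * nN z ^ 2 := by
  calc ∑ a, pz B z a ^ 2 ≤ ∑ _a : Fin n, nN z ^ 2 := Finset.sum_le_sum fun a _ => by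
        rw [← sq_abs]
        exact pow_le_pow_left₀ (abs_nonneg _) (abs_pz_le a z) 2
    _ = n * nN z ^ 2 := by
        rw [Finset.sum_const, Finset.card_univ, Fintype.card_fin, nsmul_eq_mul]

lemma sum_pz_near {hG : IsClosed (G : Set (UN N))} {r₀ C Cq Cu Cs Cp : ℝ}
    {b : (Fin n → ℂ) → (Fin n → ℂ) → (Fin n → ℂ)}
    (c : Cst B hG r₀ C b Cq Cu Cs Cp) {Cw ρ : ℝ} (hCw : 0 ≤ Cw)
    (hw : ∀ y : Fin n → ℝ, nE y < ρ → |nN (Eg B hG y) ^ 2 - nE y ^ 2| ≤ Cw * nE y ^ 4)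
    {r : ℝ} (hr : 0 < r) (hrr : r ≤ r₀) (hrρ : r ≤ ρ) {z : G} (hz : nN z ≤ r / 4) :
    |(∑ a, pz B z a ^ 2) - nN z ^ 2| ≤ (9 * Cp + 3 * Cw) * nN z ^ 4 := by
  obtain ⟨y, hy, hy2⟩ := c.hl.lg z (by linarith)
  have hN0 := nN_nonneg z
  have hy0 := nE_nonneg y
  have hy3 : nE y < r / 3 := by linarith
  have hCp := c.hCp
  have hpy := c.hp y (by linarith)
  have h4 : Cp * nE y ^ 2 ≤ 1 := by
    refine le_trans ?_ c.hps
    have h5 : nE y ≤ r₀ := by linarith
    gcongr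
  have h5 : Cp * nE y ^ 3 ≤ nE y := by
    calc Cp * nE y ^ 3 = Cp * nE y ^ 2 * nE y := by ring
      _ ≤ 1 * nE y := mul_le_mul_of_nonneg_right h4 hy0
      _ = nE y := one_mul _
  have hw1 := hw y (by linarith)
  rw [hy] at hpy hw1
  have hp1 := nE_add_le (pz B z - y) y
  rw [sub_add_cancel] at hp1
  have hp2 : nE y ≤ nE (pz B z) + nE (pz B z - y) := by
    have e : y = pz B z - (pz B z - y) := by abel
    calc nE y = nE (pz B z - (pz B z - y)) := by rw [← e]
      _ ≤ _ := nE_sub_le _ _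
  have hp0 := nE_nonneg (pz B z)
  have e1 : ∑ a, pz B z a ^ 2 = nE (pz B z) ^ 2 := (nE_sq _).symm
  rw [e1]
  have h6 : |nE (pz B z) ^ 2 - nE y ^ 2| ≤ 3 * Cp * nE y ^ 4 := by
    have h7 : |nE (pz B z) - nE y| ≤ Cp * nE y ^ 3 := by
      rw [abs_le]; constructor <;> linarith
    have h8 : nE (pz B z) ^ 2 - nE y ^ 2 = (nE (pz B z) - nE y) * (nE (pz B z) + nE y) := by ring
    rw [h8, abs_mul, abs_of_nonneg (by linarith : 0 ≤ nE (pz B z) + nE y)]
    calc |nE (pz B z) - nE y| * (nE (pz B z) + nE y) ≤ (Cp * nE y ^ 3) * (3 * nE y) := by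
          refine mul_le_mul h7 (by linarith) (by linarith) (by positivity)
      _ = _ := by ring
  have h7 : nE y ^ 4 ≤ 2.5 * nN z ^ 4 := by
    calc nE y ^ 4 ≤ (5 / 4 * nN z) ^ 4 := pow_le_pow_left₀ hy0 hy2 4
      _ = 625 / 256 * nN z ^ 4 := by ring
      _ ≤ _ := by
          have h9 : 0 ≤ nN z ^ 4 := by positivity
          linarith
  have e2 : nE (pz B z) ^ 2 - nN z ^ 2 = (nE (pz B z) ^ 2 - nE y ^ 2) -
      (nN z ^ 2 - nE y ^ 2) := by ring
  rw [e2]
  refine (abs_sub _ _).trans ((add_le_add h6 hw1).trans ?_)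
  have h9 : 0 ≤ nN z ^ 4 := by positivity
  have a1 : Cp * nE y ^ 4 ≤ Cp * (2.5 * nN z ^ 4) := mul_le_mul_of_nonneg_left h7 hCp
  have a2 : Cw * nE y ^ 4 ≤ Cw * (2.5 * nN z ^ 4) := mul_le_mul_of_nonneg_left h7 hCw
  have a3 : 0 ≤ Cp * nN z ^ 4 := by positivity
  have a4 : 0 ≤ Cw * nN z ^ 4 := by positivity
  nlinarith

variable {μ : Measure G} [IsProbabilityMeasure μ] [μ.IsMulLeftInvariant]
  [μ.IsMulRightInvariant] [μ.IsInvInvariant]

/-- integration by parts with the weight `nN ^ 2` -/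
theorem ibp2 (hG : IsClosed (G : Set (UN N))) {f : G → ℝ} {F : (Mat N)ˣ → ℂ} (h : CF f F)
    (a : Fin n) :
    ∫ z, (Dz B F z a * pz B z a * nN z ^ 2 + f z * ip (B.X a) (mt z * B.X a) * nN z ^ 2 +
      2 * (f z * pz B z a ^ 2)) ∂μ = 0 := by
  have h1 := int_dR (B := B) (μ := μ) hG
    ((h.smo.mul (pz_smo (B := B) a)).mul nN2_smo) (Pi.single a 1)
  rw [← h1]
  refine integral_congr_ae (Eventually.of_forall fun z => ?_)
  beta_reduce
  rw [dR_mul B hG (h.smo.mul (pz_smo a)) nN2_smo, dR_mul B hG h.smo (pz_smo a), dR_Dz hG h,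
    dR_pz, dR_nN2]
  ring

/-- the mean of the fourth power of the distance to the identity -/
theorem mean_law2 (B : Frame G n) (hG : IsClosed (G : Set (UN N))) (μ : Measure G)
    [IsProbabilityMeasure μ] [μ.IsMulLeftInvariant] [μ.IsMulRightInvariant] [μ.IsInvInvariant] :
    ∃ r2 : ℝ, 0 < r2 ∧ ∀ r : ℝ, 0 < r → r ≤ r2 → GoodR B r →
    ∃ k0 C : ℝ, 1 ≤ k0 ∧ 0 ≤ C ∧ ∀ {k M : ℝ} {f : G → ℝ} {F : (Mat N)ˣ → ℂ}
      {m : (Fin n → ℂ) → ℂ}, k0 ≤ k → 0 ≤ M → M * r ^ 2 ≤ k / 1000 → CF f F → (∀ x, 0 < f x) →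
      Pool.Agent.N988.MK.St B r k M F m → Tube B r k F →
      |k * (∫ z, f z * nN z ^ 2 ∂μ) - n * ∫ z, f z ∂μ| ≤ C * (1 + M) / k * ∫ z, f z ∂μ ∧
      |k ^ 2 * (∫ z, f z * nN z ^ 4 ∂μ) - n * (n + 2) * ∫ z, f z ∂μ| ≤
        C * (1 + M) / k * ∫ z, f z ∂μ := by
  obtain ⟨r2, hr2, hml⟩ := mean_law B hG μ
  obtain ⟨r₀, C₀, b, Cq, Cu, Cs, Cp, c⟩ := exists_Cst B hG
  obtain ⟨Cw, ρ, hCw, hρ, hw⟩ := nN_sq_near B hG
  obtain ⟨m2, hm2, hmom2⟩ := moments1 (B := B) μ 2
  obtain ⟨m3, hm3, hmom3⟩ := moments1 (B := B) μ 3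
  have hr₀ := c.h.pos
  refine ⟨min r2 (min r₀ ρ), by positivity, fun r hr hrr hgr => ?_⟩
  have hrr₂ : r ≤ r2 := hrr.trans (min_le_left _ _)
  have hrr₀ : r ≤ r₀ := (hrr.trans (min_le_right _ _)).trans (min_le_left _ _)
  have hrρ : r ≤ ρ := (hrr.trans (min_le_right _ _)).trans (min_le_right _ _)
  obtain ⟨k2, C2, hk2, hC2, hml⟩ := hml r hr hrr₂ hgr
  obtain ⟨k1, hk1, hk1', hb⟩ := norm_beats1 (B := B) μ hgr (0.015 * r ^ 2) (by positivity) 4
  have hCu := c.hCu
  have hCp := c.hCp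
  obtain ⟨K, hK⟩ : ∃ K, K = 2 * Cu + 405 + 3 * Cp + 3 * Cw := ⟨_, rfl⟩
  have hK0 : 0 ≤ K := by rw [hK]; positivity
  obtain ⟨L, hL⟩ : ∃ L, L = 32 * n * Real.sqrt N / r + 4 * N := ⟨_, rfl⟩
  have hL0 : 0 ≤ L := by rw [hL]; positivity
  obtain ⟨P, hP⟩ : ∃ P, P = 9 * Cp + 3 * Cw := ⟨_, rfl⟩
  have hP0 : 0 ≤ P := by rw [hP]; positivity
  obtain ⟨C3, hC3⟩ : ∃ C3, C3 = K * m3 + L * (4 * N) + n / 2 * (m2 + 16 * N ^ 2) +
    2 * (P * m2 + (n + 1) * (4 * N)) := ⟨_, rfl⟩
  have hC30 : 0 ≤ C3 := by rw [hC3]; positivity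
  refine ⟨max k1 k2, C2 + ((n + 2) * C2 + C3), hk1.trans (le_max_left _ _), by positivity,
    fun {k M f F m} hk hM hMr hf hpos hs ht => ?_⟩
  have hka : k1 ≤ k := (le_max_left _ _).trans hk
  have hkb : k2 ≤ k := (le_max_right _ _).trans hk
  have hk1k : 1 ≤ k := hk1.trans hka
  have hk0 : 0 < k := by linarith
  have hNs := Pool.Agent.N991.MK.St.toNear hs
  have hkr : 16 / r ^ 2 ≤ k := hk1'.trans hka
  have hml1 := hml hkb hM hMr hf hpos hs ht
  obtain ⟨I, hI⟩ : ∃ I, I = ∫ z, f z ∂μ := ⟨_, rfl⟩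
  obtain ⟨J, hJ⟩ : ∃ J, J = ∫ z, f z * nN z ^ 2 ∂μ := ⟨_, rfl⟩
  obtain ⟨J4, hJ4⟩ : ∃ J4, J4 = ∫ z, f z * nN z ^ 4 ∂μ := ⟨_, rfl⟩
  obtain ⟨E, hE⟩ : ∃ E, E = ‖F 1‖ * Real.exp (-(0.015 * r ^ 2 * k)) := ⟨_, rfl⟩
  have hE0 : 0 ≤ E := by rw [hE]; positivity
  have hEI : k ^ 4 * E ≤ I := by rw [hE, hI]; exact hb hka hMr hf hpos hNs
  have hI0 : 0 ≤ I := by rw [hI]; exact integral_nonneg fun z => (hpos z).le
  rw [← hI, ← hJ] at hml1
  rw [← hI, ← hJ, ← hJ4]
  have cN : Continuous (nN : G → ℝ) := nN_cont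
  have cD : ∀ a, Continuous fun z : G => Dz B F z a := fun a => Dz_cont hf.hol a
  have cp : ∀ a, Continuous fun z : G => pz B z a := fun a => pz_cont a
  have cT : Continuous fun z : G => -∑ a, Dz B F z a * pz B z a :=
    (continuous_finsetSum _ fun a _ => (cD a).mul (cp a)).neg
  have cF := hf.cont
  have cfn : Continuous fun z : G => f z * nN z ^ 2 := cF.mul (cN.pow 2)
  have cfn4 : Continuous fun z : G => f z * nN z ^ 4 := cF.mul (cN.pow 4)
  have cfn6 : Continuous fun z : G => f z * nN z ^ 6 := cF.mul (cN.pow 6)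
  have ci : ∀ {φ : G → ℝ}, Continuous φ → Integrable φ μ := fun h => integrable_of_cont h
  have hEk : E ≤ I / k ^ 4 := by rw [le_div_iff₀ (by positivity)]; linarith
  have hkE : k * E ≤ I / k ^ 3 := by
    rw [le_div_iff₀ (by positivity)]
    calc k * E * k ^ 3 = k ^ 4 * E := by ring
      _ ≤ I := hEI
  have hE2 : E ≤ I / k ^ 2 := by
    refine hEk.trans ?_
    refine div_le_div_of_nonneg_left hI0 (by positivity) ?_
    exact pow_le_pow_right₀ hk1k (by norm_num)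
  have hN2 : ∀ z : G, nN z ^ 2 ≤ 4 * N := by
    intro z
    have h6 := pow_le_pow_left₀ (nN_nonneg z) (nN_le z) 2
    rw [mul_pow, Real.sq_sqrt (Nat.cast_nonneg N)] at h6
    linarith
  have hfE : ∀ z : G, r / 4 ≤ nN z → |f z| ≤ E := by
    intro z hz
    refine (far_up hgr hk0.le hf ht hz).trans ?_
    rw [hE]
    refine mul_le_mul_of_nonneg_left (Real.exp_le_exp.2 ?_) (norm_nonneg _)
    have : 0 ≤ r ^ 2 * k := by positivity
    nlinarith
  -- the derivative term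
  obtain ⟨S, hS⟩ : ∃ S, S = ∫ z, (-∑ a, Dz B F z a * pz B z a) * nN z ^ 2 ∂μ := ⟨_, rfl⟩
  have s1 : |S - k * J4| ≤ K * (k + M) * (m3 / k ^ 3 * I) + L * (4 * N) * (I / k ^ 3) := by
    have h1 := split_le μ
      (φ := fun z => (-∑ a, Dz B F z a * pz B z a) * nN z ^ 2 - k * (f z * nN z ^ 4))
      (ψ := fun z => K * (k + M) * (f z * nN z ^ 6)) (s := r / 4)
      (A := L * (4 * N) * (k * E)) ((cT.mul (cN.pow 2)).sub (continuous_const.mul cfn4))
      (continuous_const.mul cfn6) (by positivity)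
      (fun z hz => by
        have h1 := near_T c hCw hw hr hrr₀ hrρ hk0.le hM hf hpos hs hz
        have e : (-∑ a, Dz B F z a * pz B z a) * nN z ^ 2 - k * (f z * nN z ^ 4) =
          ((-∑ a, Dz B F z a * pz B z a) - k * (f z * nN z ^ 2)) * nN z ^ 2 := by ring
        rw [e, abs_mul, abs_of_nonneg (sq_nonneg (nN z))]
        calc _ ≤ ((2 * Cu + 405 + 3 * Cp + 3 * Cw) * (k + M) * (f z * nN z ^ 4)) * nN z ^ 2 :=
              mul_le_mul_of_nonneg_right h1 (sq_nonneg _)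
          _ = _ := by rw [hK]; ring)
      (fun z hz => by
        have h1 := far_T hf hgr hk1k ht hz
        have e : (-∑ a, Dz B F z a * pz B z a) * nN z ^ 2 - k * (f z * nN z ^ 4) =
          ((-∑ a, Dz B F z a * pz B z a) - k * (f z * nN z ^ 2)) * nN z ^ 2 := by ring
        rw [e, abs_mul, abs_of_nonneg (sq_nonneg (nN z))]
        calc _ ≤ ((32 * n * Real.sqrt N / r + 4 * N) *
              (k * (‖F 1‖ * Real.exp (-(0.015 * r ^ 2 * k))))) * (4 * N) :=
              mul_le_mul h1 (hN2 z) (sq_nonneg _) (by positivity)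
          _ = _ := by rw [hL, hE]; ring)
    have i1 : Integrable (fun z : G => (-∑ a, Dz B F z a * pz B z a) * nN z ^ 2) μ :=
      ci (cT.mul (cN.pow 2))
    have i2 : Integrable (fun z : G => k * (f z * nN z ^ 4)) μ := ci (continuous_const.mul cfn4)
    rw [integral_sub i1 i2, integral_const_mul, ← hS, ← hJ4, integral_const_mul] at h1
    refine h1.trans (add_le_add ?_ (mul_le_mul_of_nonneg_left hkE (by positivity)))
    refine mul_le_mul_of_nonneg_left ?_ (by positivity)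
    have h2 := hmom3 hgr hkr hMr hf hpos hNs
    rw [← hI] at h2
    rw [div_mul_eq_mul_div, le_div_iff₀ (by positivity)]
    linarith
  -- the fourth moment
  have s2 : J4 ≤ (m2 + 16 * N ^ 2) * (I / k ^ 2) := by
    have h1 := split_le μ (φ := fun z => f z * nN z ^ 4)
      (ψ := fun z => f z * nN z ^ 4) (s := r / 4) (A := 16 * N ^ 2 * E) cfn4 cfn4 (by positivity)
      (fun z _ => by
        rw [abs_of_nonneg]
        have := (hpos z).le
        positivity)
      (fun z hz => by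
        rw [abs_mul, abs_of_nonneg (by positivity : 0 ≤ nN z ^ 4)]
        have h5 : nN z ^ 4 ≤ 16 * (N : ℝ) ^ 2 := by
          have h6 := pow_le_pow_left₀ (sq_nonneg _) (hN2 z) 2
          calc nN z ^ 4 = (nN z ^ 2) ^ 2 := by ring
            _ ≤ (4 * (N : ℝ)) ^ 2 := h6
            _ = _ := by ring
        calc |f z| * nN z ^ 4 ≤ E * (16 * N ^ 2) :=
              mul_le_mul (hfE z hz) h5 (by positivity) hE0
          _ = _ := by ring)
    have h2 := hmom2 hgr hkr hMr hf hpos hNs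
    rw [← hI] at h2
    have h3 : ∫ z in {z : G | nN z ≤ r / 4}, f z * nN z ^ 4 ∂μ ≤ m2 * (I / k ^ 2) := by
      rw [mul_div_assoc', le_div_iff₀ (by positivity)]
      linarith
    have h4 : 16 * (N : ℝ) ^ 2 * E ≤ 16 * N ^ 2 * (I / k ^ 2) :=
      mul_le_mul_of_nonneg_left hE2 (by positivity)
    have h5 : J4 ≤ |∫ z, f z * nN z ^ 4 ∂μ| := by rw [hJ4]; exact le_abs_self _
    linarith
  -- integration by parts
  have cip : ∀ a, Continuous fun z : G => ip (B.X a) (mt z * B.X a) := fun a =>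
    (ip (B.X a)).continuous.comp (mt_cont.mul continuous_const)
  have cq : Continuous fun z : G => ∑ a, ip (B.X a) (mt z * B.X a) :=
    continuous_finsetSum _ fun a _ => cip a
  have cpp : Continuous fun z : G => ∑ a, pz B z a ^ 2 :=
    continuous_finsetSum _ fun a _ => (cp a).pow 2
  obtain ⟨Q, hQ⟩ : ∃ Q, Q = ∫ z, f z * (∑ a, ip (B.X a) (mt z * B.X a)) * nN z ^ 2 ∂μ := ⟨_, rfl⟩
  obtain ⟨R, hR⟩ : ∃ R, R = ∫ z, f z * ∑ a, pz B z a ^ 2 ∂μ := ⟨_, rfl⟩
  have s3 : S = Q + 2 * R := by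
    have i1 : ∀ a ∈ (Finset.univ : Finset (Fin n)), Integrable (fun z : G =>
        Dz B F z a * pz B z a * nN z ^ 2 + f z * ip (B.X a) (mt z * B.X a) * nN z ^ 2 +
          2 * (f z * pz B z a ^ 2)) μ := fun a _ =>
      ci (((((cD a).mul (cp a)).mul (cN.pow 2)).add ((cF.mul (cip a)).mul (cN.pow 2))).add
        (continuous_const.mul (cF.mul ((cp a).pow 2))))
    have h2 : ∫ z, (∑ a, (Dz B F z a * pz B z a * nN z ^ 2 +
        f z * ip (B.X a) (mt z * B.X a) * nN z ^ 2 + 2 * (f z * pz B z a ^ 2))) ∂μ = 0 := by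
      rw [integral_finsetSum _ i1]
      exact Finset.sum_eq_zero fun a _ => ibp2 hG hf a
    have h1 : ∀ z, (∑ a, (Dz B F z a * pz B z a * nN z ^ 2 +
        f z * ip (B.X a) (mt z * B.X a) * nN z ^ 2 + 2 * (f z * pz B z a ^ 2))) =
        (f z * (∑ a, ip (B.X a) (mt z * B.X a)) * nN z ^ 2 +
          2 * (f z * ∑ a, pz B z a ^ 2)) - (-∑ a, Dz B F z a * pz B z a) * nN z ^ 2 := by
      intro z
      rw [Finset.sum_add_distrib, Finset.sum_add_distrib, ← Finset.sum_mul, ← Finset.mul_sum,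
        ← Finset.mul_sum, ← Finset.sum_mul, ← Finset.mul_sum]
      ring
    have i2 : Integrable (fun z : G => f z * (∑ a, ip (B.X a) (mt z * B.X a)) * nN z ^ 2) μ :=
      ci ((cF.mul cq).mul (cN.pow 2))
    have i3 : Integrable (fun z : G => 2 * (f z * ∑ a, pz B z a ^ 2)) μ :=
      ci (continuous_const.mul (cF.mul cpp))
    have i4 : Integrable (fun z : G => f z * (∑ a, ip (B.X a) (mt z * B.X a)) * nN z ^ 2 +
        2 * (f z * ∑ a, pz B z a ^ 2)) μ := i2.add i3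
    have i5 : Integrable (fun z : G => (-∑ a, Dz B F z a * pz B z a) * nN z ^ 2) μ :=
      ci (cT.mul (cN.pow 2))
    rw [integral_congr_ae (Eventually.of_forall h1), integral_sub i4 i5, integral_add i2 i3,
      integral_const_mul, ← hS, ← hQ, ← hR] at h2
    linarith
  have s4 : |Q - n * J| ≤ n / 2 * J4 := by
    have i2 : Integrable (fun z : G => f z * (∑ a, ip (B.X a) (mt z * B.X a)) * nN z ^ 2) μ :=
      ci ((cF.mul cq).mul (cN.pow 2))
    have i3 : Integrable (fun z : G => (n : ℝ) * (f z * nN z ^ 2)) μ :=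
      ci (continuous_const.mul cfn)
    have h1 : Q - n * J =
        ∫ z, f z * (∑ a, (ip (B.X a) (mt z * B.X a) - 1)) * nN z ^ 2 ∂μ := by
      rw [hQ, hJ, ← integral_const_mul, ← integral_sub i2 i3]
      refine integral_congr_ae (Eventually.of_forall fun z => ?_)
      beta_reduce
      rw [Finset.sum_sub_distrib, Finset.sum_const, Finset.card_univ, Fintype.card_fin,
        nsmul_eq_mul]
      ring
    rw [h1, hJ4, ← integral_const_mul]
    refine (abs_integral_le_integral_abs).trans (integral_mono (ci ?_).abs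
      (ci (continuous_const.mul cfn4)) fun z => ?_)
    · exact (cF.mul (continuous_finsetSum _ fun a _ => (cip a).sub continuous_const)).mul
        (cN.pow 2)
    · beta_reduce
      rw [abs_mul, abs_mul, abs_of_pos (hpos z), abs_of_nonneg (sq_nonneg (nN z))]
      have h2 : |∑ a, (ip (B.X a) (mt z * B.X a) - 1)| ≤ n * (nN z ^ 2 / 2) := by
        refine (Finset.abs_sum_le_sum_abs _ _).trans ((Finset.sum_le_sum fun a _ =>
          (ip_diag a z).trans (le_of_eq (by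
            rw [Pool.Agent.N991.MK.norm_X, one_pow, one_mul]))).trans ?_)
        rw [Finset.sum_const, Finset.card_univ, Fintype.card_fin, nsmul_eq_mul]
      calc f z * |∑ a, (ip (B.X a) (mt z * B.X a) - 1)| * nN z ^ 2 ≤
            f z * (n * (nN z ^ 2 / 2)) * nN z ^ 2 := by
            refine mul_le_mul_of_nonneg_right ?_ (sq_nonneg _)
            exact mul_le_mul_of_nonneg_left h2 (hpos z).le
        _ = _ := by ring
  have s5 : |R - J| ≤ (P * m2 + (n + 1) * (4 * N)) * (I / k ^ 2) := by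
    have h1 := split_le μ (φ := fun z => f z * (∑ a, pz B z a ^ 2) - f z * nN z ^ 2)
      (ψ := fun z => P * (f z * nN z ^ 4)) (s := r / 4) (A := (n + 1) * (4 * N) * E)
      ((cF.mul cpp).sub cfn) (continuous_const.mul cfn4) (by positivity)
      (fun z hz => by
        have h2 := sum_pz_near c hCw hw hr hrr₀ hrρ hz
        rw [← mul_sub, abs_mul, abs_of_pos (hpos z)]
        calc f z * |(∑ a, pz B z a ^ 2) - nN z ^ 2| ≤ f z * ((9 * Cp + 3 * Cw) * nN z ^ 4) :=
              mul_le_mul_of_nonneg_left h2 (hpos z).le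
          _ = _ := by rw [hP]; ring)
      (fun z hz => by
        rw [← mul_sub, abs_mul]
        have h2 : |(∑ a, pz B z a ^ 2) - nN z ^ 2| ≤ (n + 1) * (4 * N) := by
          refine (abs_sub _ _).trans ?_
          rw [abs_of_nonneg (Finset.sum_nonneg fun a _ => sq_nonneg _),
            abs_of_nonneg (sq_nonneg _)]
          have h3 := sum_pz_le (B := B) z
          have h4 := hN2 z
          have h5 : (n : ℝ) * nN z ^ 2 ≤ n * (4 * N) :=
            mul_le_mul_of_nonneg_left h4 (Nat.cast_nonneg n)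
          linarith
        calc |f z| * |(∑ a, pz B z a ^ 2) - nN z ^ 2| ≤ E * ((n + 1) * (4 * N)) :=
              mul_le_mul (hfE z hz) h2 (abs_nonneg _) hE0
          _ = _ := by ring)
    have i2 : Integrable (fun z : G => f z * ∑ a, pz B z a ^ 2) μ := ci (cF.mul cpp)
    rw [integral_sub i2 (ci cfn), ← hR, ← hJ, integral_const_mul] at h1
    have h2 := hmom2 hgr hkr hMr hf hpos hNs
    rw [← hI] at h2
    have h3 : ∫ z in {z : G | nN z ≤ r / 4}, f z * nN z ^ 4 ∂μ ≤ m2 * (I / k ^ 2) := by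
      rw [mul_div_assoc', le_div_iff₀ (by positivity)]
      linarith
    have h4 : ((n : ℝ) + 1) * (4 * N) * E ≤ (n + 1) * (4 * N) * (I / k ^ 2) :=
      mul_le_mul_of_nonneg_left hE2 (by positivity)
    have h5 := mul_le_mul_of_nonneg_left h3 hP0
    linarith
  -- conclusion
  have hIk2 : 0 ≤ I / k ^ 2 := by positivity
  have hIk3 : 0 ≤ I / k ^ 3 := by positivity
  have t1 : K * (k + M) * (m3 / k ^ 3 * I) ≤ K * m3 * (1 + M) * (I / k ^ 2) := by
    have h6 : k + M ≤ (1 + M) * k := by nlinarith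
    calc K * (k + M) * (m3 / k ^ 3 * I) ≤ K * ((1 + M) * k) * (m3 / k ^ 3 * I) := by gcongr
      _ = _ := by field_simp
  have t2 : L * (4 * N) * (I / k ^ 3) ≤ L * (4 * N) * (1 + M) * (I / k ^ 2) := by
    have h6 : I / k ^ 3 ≤ I / k ^ 2 := by
      refine div_le_div_of_nonneg_left hI0 (by positivity) ?_
      exact pow_le_pow_right₀ hk1k (by norm_num)
    calc L * (4 * N) * (I / k ^ 3) ≤ L * (4 * N) * (I / k ^ 2) := by gcongr
      _ = L * (4 * N) * 1 * (I / k ^ 2) := by ring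
      _ ≤ _ := by gcongr; linarith
  have t3 : n / 2 * J4 ≤ n / 2 * (m2 + 16 * N ^ 2) * (1 + M) * (I / k ^ 2) := by
    calc n / 2 * J4 ≤ n / 2 * ((m2 + 16 * N ^ 2) * (I / k ^ 2)) := by gcongr
      _ = n / 2 * (m2 + 16 * N ^ 2) * 1 * (I / k ^ 2) := by ring
      _ ≤ _ := by gcongr; linarith
  have t4 : 2 * ((P * m2 + (n + 1) * (4 * N)) * (I / k ^ 2)) ≤
      2 * (P * m2 + (n + 1) * (4 * N)) * (1 + M) * (I / k ^ 2) := by
    calc _ = 2 * (P * m2 + (n + 1) * (4 * N)) * 1 * (I / k ^ 2) := by ring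
      _ ≤ _ := by gcongr; linarith
  have s6 : |k * J4 - (n + 2) * J| ≤ C3 * (1 + M) * (I / k ^ 2) := by
    have e : k * J4 - (n + 2) * J = -(S - k * J4) + ((Q - n * J) + 2 * (R - J)) := by
      rw [s3]; ring
    rw [e]
    have h1 : |-(S - k * J4) + ((Q - n * J) + 2 * (R - J))| ≤
        |S - k * J4| + (|Q - n * J| + 2 * |R - J|) := by
      refine (abs_add_le _ _).trans ?_
      rw [abs_neg]
      refine add_le_add le_rfl ((abs_add_le _ _).trans ?_)
      rw [abs_mul, abs_of_pos (by norm_num : (0 : ℝ) < 2)]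
    have h2 : C3 * (1 + M) * (I / k ^ 2) = K * m3 * (1 + M) * (I / k ^ 2) +
        L * (4 * N) * (1 + M) * (I / k ^ 2) +
        n / 2 * (m2 + 16 * N ^ 2) * (1 + M) * (I / k ^ 2) +
        2 * (P * m2 + (n + 1) * (4 * N)) * (1 + M) * (I / k ^ 2) := by
      rw [hC3]; ring
    rw [h2]
    linarith
  have hX0 : 0 ≤ (1 + M) / k * I := by positivity
  have e1 : C2 * (1 + M) / k * I = C2 * ((1 + M) / k * I) := by ring
  have e2 : (C2 + ((n + 2) * C2 + C3)) * (1 + M) / k * I =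
      (C2 + ((n + 2) * C2 + C3)) * ((1 + M) / k * I) := by ring
  rw [e1] at hml1
  rw [e2]
  constructor
  · refine hml1.trans (mul_le_mul_of_nonneg_right ?_ hX0)
    have : 0 ≤ (n + 2) * C2 + C3 := by positivity
    linarith
  · have e : k ^ 2 * J4 - n * (n + 2) * I = (n + 2) * (k * J - n * I) +
        k * (k * J4 - (n + 2) * J) := by ring
    rw [e]
    have h1 : |(n + 2 : ℝ) * (k * J - n * I) + k * (k * J4 - (n + 2) * J)| ≤
        (n + 2) * |k * J - n * I| + k * |k * J4 - (n + 2) * J| := by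
      refine (abs_add_le _ _).trans ?_
      rw [abs_mul, abs_mul, abs_of_pos hk0, abs_of_nonneg (by positivity : (0 : ℝ) ≤ n + 2)]
    have h2 : (n + 2 : ℝ) * |k * J - n * I| ≤ (n + 2) * (C2 * ((1 + M) / k * I)) := by gcongr
    have h3 : k * |k * J4 - (n + 2) * J| ≤ C3 * ((1 + M) / k * I) := by
      calc k * |k * J4 - (n + 2) * J| ≤ k * (C3 * (1 + M) * (I / k ^ 2)) := by gcongr
        _ = _ := by field_simp
    have h4 : 0 ≤ C2 * ((1 + M) / k * I) := by positivity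
    linarith

end

end Pool.Agent.N453.MK
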