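import Mathlib
import Pool.Agent.N988.MK.Nrm
import Pool.Agent.N991.MK.Fm

/-!
# Two-sided bound of the variance of a tangent field in an environment
-/

open MeasureTheory Matrix Filter
open scoped Matrix.Norms.Frobenius ContDiff Topology
open Pool.Agent.H906R3.YM Pool.Agent.W793.YM Pool.Agent.TH618.YM Pool.Agent.N984.TW
open Pool.Agent.N991.MK
open Pool.Agent.N988.MK (qC)

namespace Pool.Agent.N453.MK

set_option linter.unusedSectionVars false

noncomputable section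

variable {N n : ℕ} {G : Subgroup (UN N)} {B : Frame G n}

/-- elements of prescribed size -/
lemma exists_size {r : ℝ} (hr : GoodR B r) (hn : 0 < n) {s : ℝ} (hs : 0 ≤ s) (hsr : s ≤ r) :
    ∃ y : G, 0.999 * s ≤ nN y ∧ nN y ≤ 1.001 * s := by
  set a : Fin n → ℝ := Pi.single ⟨0, hn⟩ s with ha
  have h1 : nE a = s := by
    unfold nE
    rw [Finset.sum_eq_single (⟨0, hn⟩ : Fin n)]
    · rw [ha, Pi.single_eq_same, Real.sqrt_sq hs]
    · intro b _ hb
      rw [ha, Pi.single_eq_of_ne hb]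
      norm_num
    · intro h
      exact absurd (Finset.mem_univ _) h
  obtain ⟨a', y, e1, e2, e3, e4⟩ := hr.polar (rl a) (by rw [nC_rl, h1]; exact hsr)
  rw [reP_rl, nC_rl, h1] at e3 e4
  exact ⟨y, by linarith, by linarith⟩

/-- the form of a tangent vector at small elements of the group -/
def NearT (r a lam : ℝ) (f h : G → ℝ) : Prop :=
  ∀ z : G, nN z ≤ 0.95 * r → ∃ t e : ℝ, h z = f z * (-(a / 2) * t - e) ∧
    0.999 * nN z ^ 2 ≤ t ∧ t ≤ 1.001 * nN z ^ 2 ∧ |e| ≤ lam * (1.01 * nN z ^ 4)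

/-- the form at small elements from the complex expansion -/
lemma nearT_of {r a lam : ℝ} (hr : GoodR B r) {f h : G → ℝ} {F H : (Mat N)ˣ → ℂ}
    {η : (Fin n → ℂ) → ℂ} (hlam : 0 ≤ lam) (hf : ∀ g : G, F (uG g) = (f g : ℂ))
    (hh : ∀ g : G, H (uG g) = (h g : ℂ))
    (near : ∀ x, nC x < r → H (uE B x) = F (uE B x) * (-(a / 2) * qC x - η x))
    (bd : ∀ x, nC x < r → ‖η x‖ ≤ lam * nC x ^ 4) : NearT r a lam f h := by
  intro z hz
  have hp := hr.pos
  obtain ⟨x, e1, e2, e3, e4, e5⟩ := hr.near0 (y := z) (by linarith)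
  have hz0 := nN_nonneg z
  have hE0 := nE_nonneg (reP x)
  have h1 := near x e2
  rw [e1, hf, hh] at h1
  have h2 : qC x = ((nE (reP x) ^ 2 : ℝ) : ℂ) := by
    have h3 : nE (imP x) ^ 2 = 0 := by rw [e3]; norm_num
    rw [Pool.Agent.N991.MK.nE_sq] at h3
    have h4 : ∀ i, imP x i = 0 := by
      intro i
      have h5 := (Finset.sum_eq_zero_iff_of_nonneg (fun j _ => sq_nonneg (imP x j))).1 h3 i
        (Finset.mem_univ _)
      exact pow_eq_zero_iff (two_ne_zero) |>.1 h5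
    rw [Pool.Agent.N991.MK.nE_sq]
    unfold qC
    push_cast
    refine Finset.sum_congr rfl fun i _ => ?_
    congr 1
    apply Complex.ext
    · simp [reP]
    · have := h4 i
      simp only [imP] at this
      simp [this]
  have h3 : nC x ^ 2 = nE (reP x) ^ 2 := by rw [nE_re_im, e3]; ring
  refine ⟨nE (reP x) ^ 2, (η x).re, ?_, ?_, ?_, ?_⟩
  · have h4 := congrArg Complex.re h1
    rw [Complex.ofReal_re, Complex.re_ofReal_mul, Complex.sub_re, h2] at h4
    rw [h4]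
    congr 2
    have : (-((a : ℂ) / 2) * ((nE (reP x) ^ 2 : ℝ) : ℂ)) =
      ((-(a / 2) * nE (reP x) ^ 2 : ℝ) : ℂ) := by push_cast; ring
    rw [this, Complex.ofReal_re]
  · nlinarith
  · nlinarith
  · refine (Complex.abs_re_le_norm _).trans ((bd x e2).trans ?_)
    refine mul_le_mul_of_nonneg_left ?_ hlam
    have h5 : nC x ^ 4 = (nE (reP x) ^ 2) ^ 2 := by rw [← h3]; ring
    rw [h5]
    have h6 : nE (reP x) ^ 2 ≤ 1.001 * nN z ^ 2 := by nlinarith
    calc (nE (reP x) ^ 2) ^ 2 ≤ (1.001 * nN z ^ 2) ^ 2 :=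
          pow_le_pow_left₀ (sq_nonneg _) h6 2
      _ ≤ 1.01 * nN z ^ 4 := by
          have : (1.001 * nN z ^ 2) ^ 2 = 1.002001 * nN z ^ 4 := by ring
          rw [this]
          have h7 : 0 ≤ nN z ^ 4 := by positivity
          nlinarith

variable [CompactSpace G] [MeasurableSpace G] [BorelSpace G]
  (μ : Measure G) [IsProbabilityMeasure μ] [μ.IsMulLeftInvariant] [μ.IsMulRightInvariant]
  [μ.IsInvInvariant]

/-- a ring has at least the volume of the ball -/
lemma vol_ring {r : ℝ} (hr : GoodR B r) (hn : 0 < n) {s : ℝ} (hs : 0 < s) (hsr : 4 * s ≤ r) :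
    μ.real (bl s : Set G) ≤ μ.real {g : G | s < nN g ∧ nN g ≤ 4 * s} := by
  obtain ⟨y, h1, h2⟩ := exists_size hr hn (s := 2.5 * s) (by positivity) (by linarith)
  have h3 : {g : G | ‖mt g - mt y‖ ≤ s} ⊆ {g : G | s < nN g ∧ nN g ≤ 4 * s} := by
    intro g hg
    have h4 : nN (y⁻¹ * g) ≤ s := by rw [nN_dist]; exact hg
    have h5 : nN g ≤ nN y + nN (y⁻¹ * g) := by
      have := nN_mul_le y (y⁻¹ * g)
      rwa [mul_inv_cancel_left] at this
    have h6 : nN y ≤ nN g + nN (y⁻¹ * g) := by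
      have := nN_mul_le g (y⁻¹ * g)⁻¹
      rw [nN_inv, _root_.mul_inv_rev, mul_inv_cancel_left, inv_inv] at this
      exact this
    exact ⟨by linarith, by linarith⟩
  rw [← bl_shift μ y s]
  exact measureReal_mono h3 (measure_ne_top _ _)

/-- the integral is bounded by the volume of a ball -/
theorem int1_upper {r : ℝ} (hr : GoodR B r) : ∃ C k0 : ℝ, 0 < C ∧ 1 ≤ k0 ∧ 16 / r ^ 2 ≤ k0 ∧
    ∀ {k M : ℝ} {f : G → ℝ} {F : (Mat N)ˣ → ℂ}, k0 ≤ k → M * r ^ 2 ≤ k / 1000 → CF f F →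
      (∀ x, 0 < f x) → NearS B r k M F → Tube B r k F →
      ∫ z, f z ∂μ ≤ C * (‖F 1‖ * μ.real (bl (1 / Real.sqrt k) : Set G)) := by
  have hp := hr.pos
  obtain ⟨C1, hC1, hg⟩ := gauss_le μ (G := G) 0.4985 (by norm_num)
  obtain ⟨k1, hk1, hk1', hb⟩ := norm_beats1 μ hr (0.03 * r ^ 2) (by positivity) 1
  refine ⟨2 * C1, max k1 2, by positivity, hk1.trans (le_max_left _ _),
    hk1'.trans (le_max_left _ _), fun {k M f F} hk hM h hpos hn ht => ?_⟩
  have hka : k1 ≤ k := (le_max_left _ _).trans hk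
  have hk2 : 2 ≤ k := (le_max_right _ _).trans hk
  have hk0 : 0 < k := by linarith
  have h1 := hb hka hM h hpos hn
  rw [pow_one] at h1
  have hF0 : 0 ≤ ‖F 1‖ * Real.exp (-(0.03 * r ^ 2 * k)) := by positivity
  have h2 : ‖F 1‖ * Real.exp (-(0.03 * r ^ 2 * k)) ≤ (∫ z, f z ∂μ) / 2 := by
    rw [le_div_iff₀ (by norm_num)]
    nlinarith
  have h5 : ∀ z : G, (nN z / (1 / Real.sqrt k)) ^ 2 = k * nN z ^ 2 := by
    intro z
    rw [div_pow, div_pow, Real.sq_sqrt hk0.le]
    field_simp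
  have hpt : ∀ z : G, f z ≤ ‖F 1‖ * Real.exp (-(0.4985 * (nN z / (1 / Real.sqrt k)) ^ 2)) +
      ‖F 1‖ * Real.exp (-(0.03 * r ^ 2 * k)) := by
    intro z
    rw [h5]
    have hA : 0 ≤ ‖F 1‖ * Real.exp (-(0.4985 * (k * nN z ^ 2))) := by positivity
    rcases le_total (nN z) (r / 4) with hz | hz
    · have h6 := near_up hr hk0.le hM h hn (z := z) (by linarith)
      rw [abs_of_pos (hpos z), mul_assoc] at h6
      linarith
    · have h6 := far_up hr hk0.le h ht hz
      rw [abs_of_pos (hpos z)] at h6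
      linarith
  have hcont2 : Continuous fun z : G => ‖F 1‖ *
      Real.exp (-(0.4985 * (nN z / (1 / Real.sqrt k)) ^ 2)) := by
    have h2 := nN_cont (G := G)
    fun_prop
  have h7 : ∫ z, f z ∂μ ≤ ‖F 1‖ * (C1 * μ.real (bl (1 / Real.sqrt k) : Set G)) +
      ‖F 1‖ * Real.exp (-(0.03 * r ^ 2 * k)) := by
    calc ∫ z, f z ∂μ ≤ ∫ z : G, (‖F 1‖ * Real.exp (-(0.4985 * (nN z / (1 / Real.sqrt k)) ^ 2)) +
          ‖F 1‖ * Real.exp (-(0.03 * r ^ 2 * k))) ∂μ :=
          integral_mono (integrable_of_cont h.cont)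
            ((integrable_of_cont hcont2).add (integrable_const _)) hpt
      _ = ‖F 1‖ * ∫ z : G, Real.exp (-(0.4985 * (nN z / (1 / Real.sqrt k)) ^ 2)) ∂μ +
          ‖F 1‖ * Real.exp (-(0.03 * r ^ 2 * k)) := by
          rw [integral_add (integrable_of_cont hcont2) (integrable_const _), integral_const_mul,
            integral_const]
          simp
      _ ≤ _ := by
          gcongr
          exact hg _ (by positivity)
  linarith

/-- the moments on a larger ball -/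
theorem moments2 {r : ℝ} (hr : GoodR B r) (j : ℕ) : ∃ C k0 : ℝ, 0 < C ∧ 1 ≤ k0 ∧
    ∀ {k M : ℝ} {f : G → ℝ} {F : (Mat N)ˣ → ℂ}, k0 ≤ k → M * r ^ 2 ≤ k / 1000 → CF f F →
      (∀ x, 0 < f x) → NearS B r k M F → Tube B r k F →
      k ^ j * ∫ z in {z : G | nN z ≤ 0.95 * r}, f z * nN z ^ (2 * j) ∂μ ≤ C * ∫ z, f z ∂μ := by
  have hp := hr.pos
  have hr1 := hr.le
  obtain ⟨C1, hC1, hm⟩ := moments1 (B := B) μ j
  obtain ⟨k1, hk1, hk1', hb⟩ := norm_beats1 μ hr (0.03 * r ^ 2) (by positivity) j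
  refine ⟨C1 + 1, k1, by positivity, hk1, fun {k M f F} hk hM h hpos hn ht => ?_⟩
  have hk0 : 0 < k := by linarith
  have h1 := hb hk hM h hpos hn
  have h2 := hm hr (hk1'.trans hk) hM h hpos hn
  have hcont : Continuous fun z : G => f z * nN z ^ (2 * j) :=
    h.cont.mul ((nN_cont (G := G)).pow _)
  have hint : Integrable (fun z : G => f z * nN z ^ (2 * j)) μ := integrable_of_cont hcont
  have hsub : (bl (r / 4) : Set G) ⊆ {z : G | nN z ≤ 0.95 * r} :=
    fun z (hz : nN z ≤ r / 4) => by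
      show nN z ≤ 0.95 * r
      linarith
  have hmeas : MeasurableSet {z : G | nN z ≤ 0.95 * r} := bl_meas _
  have h3 : ∫ z in {z : G | nN z ≤ 0.95 * r}, f z * nN z ^ (2 * j) ∂μ =
      ∫ z in {z : G | nN z ≤ r / 4}, f z * nN z ^ (2 * j) ∂μ +
      ∫ z in {z : G | nN z ≤ 0.95 * r} \ {z : G | nN z ≤ r / 4}, f z * nN z ^ (2 * j) ∂μ := by
    rw [← integral_inter_add_sdiff (s := {z : G | nN z ≤ 0.95 * r}) (bl_meas (r / 4))
      hint.integrableOn, Set.inter_eq_self_of_subset_right hsub]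
    rfl
  have h4 : ∫ z in {z : G | nN z ≤ 0.95 * r} \ {z : G | nN z ≤ r / 4}, f z * nN z ^ (2 * j) ∂μ ≤
      ‖F 1‖ * Real.exp (-(0.03 * r ^ 2 * k)) := by
    have hpt : ∀ z ∈ {z : G | nN z ≤ 0.95 * r} \ {z : G | nN z ≤ r / 4},
        f z * nN z ^ (2 * j) ≤ ‖F 1‖ * Real.exp (-(0.03 * r ^ 2 * k)) := by
      rintro z ⟨hz1, hz2⟩
      have hz1' : nN z ≤ 0.95 * r := hz1
      have hz2' : r / 4 < nN z := not_le.1 hz2
      have h6 := far_up hr hk0.le h ht hz2'.le
      rw [abs_of_pos (hpos z)] at h6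
      have h7 : nN z ^ (2 * j) ≤ 1 := pow_le_one₀ (nN_nonneg z) (by linarith)
      calc f z * nN z ^ (2 * j) ≤ f z * 1 := mul_le_mul_of_nonneg_left h7 (hpos z).le
        _ = f z := mul_one _
        _ ≤ _ := h6
    have hF0 : 0 ≤ ‖F 1‖ * Real.exp (-(0.03 * r ^ 2 * k)) := by positivity
    calc _ ≤ ∫ z in {z : G | nN z ≤ 0.95 * r} \ {z : G | nN z ≤ r / 4},
          ‖F 1‖ * Real.exp (-(0.03 * r ^ 2 * k)) ∂μ :=
          setIntegral_mono_on hint.integrableOn (integrable_const _).integrableOn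
            (hmeas.diff (bl_meas _)) hpt
      _ = μ.real ({z : G | nN z ≤ 0.95 * r} \ {z : G | nN z ≤ r / 4}) *
          (‖F 1‖ * Real.exp (-(0.03 * r ^ 2 * k))) := by
          rw [setIntegral_const, smul_eq_mul]
      _ ≤ 1 * (‖F 1‖ * Real.exp (-(0.03 * r ^ 2 * k))) :=
          mul_le_mul_of_nonneg_right measureReal_le_one hF0
      _ = _ := one_mul _
  rw [h3, mul_add, add_mul, one_mul]
  refine add_le_add h2 (le_trans ?_ h1)
  exact mul_le_mul_of_nonneg_left h4 (by positivity)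

/-- the variance of `h / f` under the density `f E / ∫ f E` -/
def vr (f h E : G → ℝ) : ℝ :=
  (∫ z, h z ^ 2 / f z * E z ∂μ) / (∫ z, f z * E z ∂μ) -
    ((∫ z, h z * E z ∂μ) / (∫ z, f z * E z ∂μ)) ^ 2

variable {μ} in
lemma vr_eq {f h E : G → ℝ} (hf : Continuous f) (hh : Continuous h) (hE : Continuous E)
    (hpos : ∀ x, 0 < f x) (hZ : 0 < ∫ z, f z * E z ∂μ) :
    vr μ f h E = (∫ z, (h z / f z - (∫ z, h z * E z ∂μ) / (∫ z, f z * E z ∂μ)) ^ 2 *
      (f z * E z) ∂μ) / (∫ z, f z * E z ∂μ) := by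
  unfold vr
  set Z := ∫ z, f z * E z ∂μ with hZd
  set m1 := ∫ z, h z * E z ∂μ with hm1
  set m := m1 / Z with hm
  have hne : ∀ z, f z ≠ 0 := fun z => (hpos z).ne'
  have e1 : ∀ z, (h z / f z - m) ^ 2 * (f z * E z) =
      h z ^ 2 / f z * E z - (2 * m * (h z * E z) - m ^ 2 * (f z * E z)) := by
    intro z
    have := hne z
    field_simp
    ring
  have i1 : Integrable (fun z => h z ^ 2 / f z * E z) μ :=
    integrable_of_cont (((hh.pow 2).div hf hne).mul hE)
  have i2 : Integrable (fun z => 2 * m * (h z * E z)) μ :=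
    integrable_of_cont (continuous_const.mul (hh.mul hE))
  have i3 : Integrable (fun z => m ^ 2 * (f z * E z)) μ :=
    integrable_of_cont (continuous_const.mul (hf.mul hE))
  have e2 : ∫ z, (h z / f z - m) ^ 2 * (f z * E z) ∂μ =
      (∫ z, h z ^ 2 / f z * E z ∂μ) - (2 * m * m1 - m ^ 2 * Z) := by
    have i23 : Integrable (fun z => 2 * m * (h z * E z) - m ^ 2 * (f z * E z)) μ := i2.sub i3
    rw [integral_congr_ae (Eventually.of_forall e1), integral_sub i1 i23,
      integral_sub i2 i3, integral_const_mul, integral_const_mul]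
  rw [e2, hm]
  field_simp
  ring

variable {μ} in
/-- a lower bound of the variance by one region -/
lemma vr_lower {f h E : G → ℝ} (hf : Continuous f) (hh : Continuous h) (hE : Continuous E)
    (hpos : ∀ x, 0 < f x) (hEpos : ∀ x, 0 < E x) (hZ : 0 < ∫ z, f z * E z ∂μ)
    {R1 R2 : Set G} (m1 : MeasurableSet R1) (m2 : MeasurableSet R2) {v1 v2 q V : ℝ}
    (hv : v2 ≤ v1) (h1 : ∀ z ∈ R1, v1 ≤ h z / f z) (h2 : ∀ z ∈ R2, h z / f z ≤ v2)
    (hq : 0 ≤ q) (q1 : ∀ z ∈ R1, q ≤ f z * E z) (q2 : ∀ z ∈ R2, q ≤ f z * E z)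
    (V1 : V ≤ μ.real R1) (V2 : V ≤ μ.real R2) :
    ((v1 - v2) / 2) ^ 2 * (q * V) / (∫ z, f z * E z ∂μ) ≤ vr μ f h E := by
  rw [vr_eq hf hh hE hpos hZ]
  set m := (∫ z, h z * E z ∂μ) / (∫ z, f z * E z ∂μ) with hm
  have hne : ∀ z, f z ≠ 0 := fun z => (hpos z).ne'
  have hfE : ∀ z, 0 < f z * E z := fun z => mul_pos (hpos z) (hEpos z)
  refine div_le_div_of_nonneg_right ?_ hZ.le
  have hcont : Continuous fun z => (h z / f z - m) ^ 2 * (f z * E z) :=
    (((hh.div hf hne).sub continuous_const).pow 2).mul (hf.mul hE)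
  have key : ∀ R : Set G, MeasurableSet R → (∀ z ∈ R, q ≤ f z * E z) → V ≤ μ.real R →
      (∀ z ∈ R, ((v1 - v2) / 2) ^ 2 ≤ (h z / f z - m) ^ 2) →
      ((v1 - v2) / 2) ^ 2 * (q * V) ≤ ∫ z, (h z / f z - m) ^ 2 * (f z * E z) ∂μ := by
    intro R hR hqR hVR hR2
    calc ((v1 - v2) / 2) ^ 2 * (q * V) ≤ ((v1 - v2) / 2) ^ 2 * (q * μ.real R) := by gcongr
      _ = ∫ _z in R, ((v1 - v2) / 2) ^ 2 * q ∂μ := by
          rw [setIntegral_const, smul_eq_mul]; ring
      _ ≤ ∫ z in R, (h z / f z - m) ^ 2 * (f z * E z) ∂μ := by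
          refine setIntegral_mono_on (integrable_const _).integrableOn
            (integrable_of_cont hcont).integrableOn hR fun z hz => ?_
          exact mul_le_mul (hR2 z hz) (hqR z hz) hq (sq_nonneg _)
      _ ≤ _ := setIntegral_le_integral (integrable_of_cont hcont)
          (Eventually.of_forall fun z => mul_nonneg (sq_nonneg _) (hfE z).le)
  rcases le_total m ((v1 + v2) / 2) with hmm | hmm
  · refine key R1 m1 q1 V1 fun z hz => ?_
    have := h1 z hz
    exact pow_le_pow_left₀ (by linarith) (by linarith) 2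
  · refine key R2 m2 q2 V2 fun z hz => ?_
    have := h2 z hz
    rw [← neg_sq (h z / f z - m)]
    exact pow_le_pow_left₀ (by linarith) (by linarith) 2

/-- the Gaussian lower bound near the identity -/
lemma near_low {r k M : ℝ} {f : G → ℝ} {F : (Mat N)ˣ → ℂ} (hr : GoodR B r) (hk : 0 ≤ k)
    (hM : M * r ^ 2 ≤ k / 1000) (h : CF f F) (hpos : ∀ x, 0 < f x) (hn : NearS B r k M F) {z : G}
    (hz : nN z ≤ r / 2) : ‖F 1‖ * Real.exp (-(0.502 * (k * nN z ^ 2))) ≤ f z := by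
  have hp := hr.pos
  obtain ⟨x, e1, e2, e3, e4, e5⟩ := hr.near0 (y := z) (by linarith)
  have h1 := hn.lower hp hk hM e2
  rw [e1, e3, h.norm_res, abs_of_pos (hpos z)] at h1
  refine le_trans (mul_le_mul_of_nonneg_left (Real.exp_le_exp.2 ?_) (norm_nonneg _)) h1
  have hz0 := nN_nonneg z
  have hE0 := nE_nonneg (reP x)
  have h4 : nE (reP x) ^ 2 ≤ 1.0003 * nN z ^ 2 := by nlinarith
  have h5 : k * nE (reP x) ^ 2 ≤ k * (1.0003 * nN z ^ 2) := mul_le_mul_of_nonneg_left h4 hk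
  have h6 : 0 ≤ k * nN z ^ 2 := by positivity
  nlinarith

/-- the second moment of a tangent field -/
theorem second_moment {r : ℝ} (hr : GoodR B r) {c : ℝ} (hc : 0 < c) :
    ∃ C k0 : ℝ, 0 < C ∧ 1 ≤ k0 ∧
    ∀ {k M a lam : ℝ} {f h : G → ℝ} {F : (Mat N)ˣ → ℂ}, k0 ≤ k → M * r ^ 2 ≤ k / 1000 → CF f F →
      (∀ x, 0 < f x) → NearS B r k M F → Tube B r k F → Continuous h → 0 ≤ lam →
      lam ≤ k * |a| → NearT r a lam f h →
      ∫ z in {z : G | 0.95 * r < nN z}, h z ^ 2 / f z ∂μ ≤ Real.exp (-(c * k)) * a ^ 2 * f 1 →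
      ∫ z, h z ^ 2 / f z ∂μ ≤ C * (a ^ 2 / k ^ 2) * ∫ z, f z ∂μ := by
  have hp := hr.pos
  have hr1 := hr.le
  obtain ⟨C2, k2, hC2, hk2, hm2⟩ := moments2 μ hr 2
  obtain ⟨C4, k4, hC4, hk4, hm4⟩ := moments2 μ hr 4
  obtain ⟨k1, hk1, hk1', hb⟩ := norm_beats1 μ hr c hc 2
  refine ⟨C2 + 3 * C4 + 1, max k1 (max k2 k4), by positivity, hk1.trans (le_max_left _ _),
    fun {k M a lam f h F} hk hM hF hpos hn ht hh hlam hlk hnT hfar => ?_⟩
  have hka : k1 ≤ k := (le_max_left _ _).trans hk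
  have hkb : k2 ≤ k := (le_max_left _ _).trans ((le_max_right _ _).trans hk)
  have hkc : k4 ≤ k := (le_max_right _ _).trans ((le_max_right _ _).trans hk)
  have hk0 : 0 < k := by linarith
  have hf := hF.cont
  have hne : ∀ z, f z ≠ 0 := fun z => (hpos z).ne'
  have b2 := hm2 hkb hM hF hpos hn ht
  have b4 := hm4 hkc hM hF hpos hn ht
  have b1 := hb hka hM hF hpos hn
  have hI0 : 0 ≤ ∫ z, f z ∂μ := integral_nonneg fun z => (hpos z).le
  have hlam2 : lam ^ 2 ≤ k ^ 2 * a ^ 2 := by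
    calc lam ^ 2 ≤ (k * |a|) ^ 2 := pow_le_pow_left₀ hlam hlk 2
      _ = k ^ 2 * a ^ 2 := by rw [mul_pow, sq_abs]
  have hpt : ∀ z ∈ {z : G | nN z ≤ 0.95 * r}, h z ^ 2 / f z ≤
      a ^ 2 * (f z * nN z ^ (2 * 2)) + 3 * lam ^ 2 * (f z * nN z ^ (2 * 4)) := by
    intro z hz
    obtain ⟨t, e, q1, q2, q3, q4⟩ := hnT z hz
    have hf0 := hpos z
    have e1 : h z ^ 2 / f z = f z * (-(a / 2) * t - e) ^ 2 := by
      rw [q1]
      field_simp
    rw [e1]
    have hz0 := nN_nonneg z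
    have ht0 : 0 ≤ t := le_trans (by positivity) q2
    have ht2 : t ^ 2 ≤ 1.01 * nN z ^ 4 := by
      calc t ^ 2 ≤ (1.001 * nN z ^ 2) ^ 2 := pow_le_pow_left₀ ht0 q3 2
        _ = 1.002001 * nN z ^ 4 := by ring
        _ ≤ _ := by
            have h7 : 0 ≤ nN z ^ 4 := by positivity
            nlinarith
    have he2 : e ^ 2 ≤ lam ^ 2 * (1.1 * nN z ^ 8) := by
      calc e ^ 2 = |e| ^ 2 := (sq_abs e).symm
        _ ≤ (lam * (1.01 * nN z ^ 4)) ^ 2 := pow_le_pow_left₀ (abs_nonneg _) q4 2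
        _ = lam ^ 2 * (1.0201 * nN z ^ 8) := by ring
        _ ≤ _ := by
            have h7 : 0 ≤ nN z ^ 8 := by positivity
            refine mul_le_mul_of_nonneg_left ?_ (sq_nonneg _)
            nlinarith
    have h3 : (-(a / 2) * t - e) ^ 2 ≤ a ^ 2 / 2 * t ^ 2 + 2 * e ^ 2 := by
      nlinarith [sq_nonneg ((a / 2) * t - e)]
    have h4 : (-(a / 2) * t - e) ^ 2 ≤ a ^ 2 * nN z ^ 4 + 3 * lam ^ 2 * nN z ^ 8 := by
      have h5 : a ^ 2 / 2 * t ^ 2 ≤ a ^ 2 / 2 * (1.01 * nN z ^ 4) :=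
        mul_le_mul_of_nonneg_left ht2 (by positivity)
      have h6 : 0 ≤ a ^ 2 * nN z ^ 4 := by positivity
      have h7 : 0 ≤ lam ^ 2 * nN z ^ 8 := by positivity
      have h8 : a ^ 2 / 2 * (1.01 * nN z ^ 4) = 0.505 * (a ^ 2 * nN z ^ 4) := by ring
      have h9 : 2 * (lam ^ 2 * (1.1 * nN z ^ 8)) = 2.2 * (lam ^ 2 * nN z ^ 8) := by ring
      have h10 : 3 * lam ^ 2 * nN z ^ 8 = 3 * (lam ^ 2 * nN z ^ 8) := by ring
      rw [h10]
      linarith
    calc f z * (-(a / 2) * t - e) ^ 2 ≤ f z * (a ^ 2 * nN z ^ 4 + 3 * lam ^ 2 * nN z ^ 8) :=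
          mul_le_mul_of_nonneg_left h4 hf0.le
      _ = _ := by ring
  have hcont : Continuous fun z => h z ^ 2 / f z := (hh.pow 2).div hf hne
  have hint := integrable_of_cont (μ := μ) hcont
  have hc2 : Continuous fun z : G => f z * nN z ^ (2 * 2) := hf.mul ((nN_cont (G := G)).pow _)
  have hc4 : Continuous fun z : G => f z * nN z ^ (2 * 4) := hf.mul ((nN_cont (G := G)).pow _)
  have hs : MeasurableSet {z : G | nN z ≤ 0.95 * r} := bl_meas _
  have hsc : {z : G | nN z ≤ 0.95 * r}ᶜ = {z : G | 0.95 * r < nN z} := by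
    ext z
    simp only [Set.mem_compl_iff, Set.mem_ofPred_eq, not_le]
  have h1 : ∫ z in {z : G | nN z ≤ 0.95 * r}, h z ^ 2 / f z ∂μ ≤
      (C2 + 3 * C4) * (a ^ 2 / k ^ 2) * ∫ z, f z ∂μ := by
    have b2' : ∫ z in {z : G | nN z ≤ 0.95 * r}, f z * nN z ^ (2 * 2) ∂μ ≤
        C2 * (∫ z, f z ∂μ) / k ^ 2 := by
      rw [le_div_iff₀ (by positivity)]
      linarith
    have b4' : ∫ z in {z : G | nN z ≤ 0.95 * r}, f z * nN z ^ (2 * 4) ∂μ ≤
        C4 * (∫ z, f z ∂μ) / k ^ 4 := by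
      rw [le_div_iff₀ (by positivity)]
      linarith
    calc ∫ z in {z : G | nN z ≤ 0.95 * r}, h z ^ 2 / f z ∂μ
        ≤ ∫ z in {z : G | nN z ≤ 0.95 * r},
          (a ^ 2 * (f z * nN z ^ (2 * 2)) + 3 * lam ^ 2 * (f z * nN z ^ (2 * 4))) ∂μ :=
          setIntegral_mono_on hint.integrableOn
            (integrable_of_cont ((continuous_const.mul hc2).add
              (continuous_const.mul hc4))).integrableOn hs hpt
      _ = a ^ 2 * ∫ z in {z : G | nN z ≤ 0.95 * r}, f z * nN z ^ (2 * 2) ∂μ +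
          3 * lam ^ 2 * ∫ z in {z : G | nN z ≤ 0.95 * r}, f z * nN z ^ (2 * 4) ∂μ := by
          have j2 : IntegrableOn (fun z : G => a ^ 2 * (f z * nN z ^ (2 * 2)))
              {z : G | nN z ≤ 0.95 * r} μ :=
            (integrable_of_cont (μ := μ) (continuous_const.mul hc2)).integrableOn
          have j4 : IntegrableOn (fun z : G => 3 * lam ^ 2 * (f z * nN z ^ (2 * 4)))
              {z : G | nN z ≤ 0.95 * r} μ :=
            (integrable_of_cont (μ := μ) (continuous_const.mul hc4)).integrableOn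
          rw [integral_add j2 j4, integral_const_mul, integral_const_mul]
      _ ≤ a ^ 2 * (C2 * (∫ z, f z ∂μ) / k ^ 2) +
          3 * (k ^ 2 * a ^ 2) * (C4 * (∫ z, f z ∂μ) / k ^ 4) := by
          have i4 : 0 ≤ ∫ z in {z : G | nN z ≤ 0.95 * r}, f z * nN z ^ (2 * 4) ∂μ :=
            setIntegral_nonneg hs fun z _ => mul_nonneg (hpos z).le (pow_nonneg (nN_nonneg z) _)
          refine add_le_add (mul_le_mul_of_nonneg_left b2' (sq_nonneg a)) ?_
          exact mul_le_mul (by linarith) b4' i4 (by positivity)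
      _ = _ := by
          field_simp
  have h2 : ∫ z in {z : G | 0.95 * r < nN z}, h z ^ 2 / f z ∂μ ≤
      a ^ 2 / k ^ 2 * ∫ z, f z ∂μ := by
    refine hfar.trans ?_
    have h3 : f 1 = ‖F 1‖ := by rw [hF.one, abs_of_pos (hpos 1)]
    rw [h3]
    calc Real.exp (-(c * k)) * a ^ 2 * ‖F 1‖ =
          a ^ 2 / k ^ 2 * (k ^ 2 * (‖F 1‖ * Real.exp (-(c * k)))) := by field_simp
      _ ≤ _ := mul_le_mul_of_nonneg_left b1 (by positivity)
  rw [← integral_add_compl hs hint, hsc]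
  calc _ ≤ (C2 + 3 * C4) * (a ^ 2 / k ^ 2) * ∫ z, f z ∂μ + a ^ 2 / k ^ 2 * ∫ z, f z ∂μ :=
        add_le_add h1 h2
    _ = _ := by ring

/-- **two-sided bound of the variance of a tangent field** -/
theorem var_two_sided {r : ℝ} (hr : GoodR B r) (hn0 : 0 < n) {c₀ c : ℝ} (hc₀ : 0 < c₀)
    (hc : 0 < c) : ∃ C k0 ε : ℝ, 1 ≤ C ∧ 1 ≤ k0 ∧ 0 < ε ∧
    ∀ {k M a lam : ℝ} {f h E : G → ℝ} {F : (Mat N)ˣ → ℂ}, k0 ≤ k → M * r ^ 2 ≤ k / 1000 →
      CF f F → (∀ x, 0 < f x) → NearS B r k M F → Tube B r k F → Continuous h → 0 < a →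
      0 ≤ lam → lam ≤ ε * (k * a) → NearT r a lam f h →
      ∫ z in {z : G | 0.95 * r < nN z}, h z ^ 2 / f z ∂μ ≤ Real.exp (-(c * k)) * a ^ 2 * f 1 →
      Continuous E → (∀ x, 0 < E x) → (∀ x, E x ≤ E 1) →
      (∀ x, nN x ≤ r / 8 → c₀ * E 1 * Real.exp (-(k / 2 * nN x ^ 2)) ≤ E x) →
      1 / C * (a ^ 2 / k ^ 2) ≤ vr μ f h E ∧ vr μ f h E ≤ C * (a ^ 2 / k ^ 2) := by
  have hp := hr.pos
  have hr1 := hr.le
  obtain ⟨C1, k1, hC1, hk1, hk1', hup⟩ := int1_upper μ hr
  obtain ⟨C2, k2, hC2, hk2, hsm⟩ := second_moment μ hr hc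
  obtain ⟨K, hK1, hK⟩ := vol_doubling μ (G := G)
  set ε : ℝ := 1 / 10000 with hε
  set q0 : ℝ := Real.exp (-9) * (c₀ * Real.exp (-8)) with hq0
  have hq0' : 0 < q0 := by positivity
  set CL : ℝ := 100 * C1 * K ^ 2 / q0 with hCL
  set CU : ℝ := C2 * C1 / q0 with hCU
  have hCL0 : 0 < CL := by positivity
  have hCU0 : 0 < CU := by positivity
  refine ⟨1 + CL + CU, max (max k1 k2) (1024 / r ^ 2), ε, by linarith,
    hk1.trans ((le_max_left _ _).trans (le_max_left _ _)), by positivity,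
    fun {k M a lam f h E F} hk hM hF hpos hn ht hh ha hlam hlk hnT hfar hE hEpos hE1 hElow => ?_⟩
  have hka : k1 ≤ k := (le_max_left _ _).trans ((le_max_left _ _).trans hk)
  have hkb : k2 ≤ k := (le_max_right _ _).trans ((le_max_left _ _).trans hk)
  have hkr : 1024 / r ^ 2 ≤ k := (le_max_right _ _).trans hk
  have hk1'' : 1 ≤ k := hk1.trans hka
  have hk0 : 0 < k := by linarith
  have hf := hF.cont
  have hne : ∀ z, f z ≠ 0 := fun z => (hpos z).ne'
  have hfE : ∀ z, 0 < f z * E z := fun z => mul_pos (hpos z) (hEpos z)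
  have hsk : 0 < Real.sqrt k := Real.sqrt_pos.2 hk0
  set s : ℝ := 1 / Real.sqrt k with hs
  have hs0 : 0 < s := by positivity
  have hss : k * s ^ 2 = 1 := by
    rw [hs, div_pow, Real.sq_sqrt hk0.le]; field_simp
  have h4s : 4 * s ≤ r / 8 := by
    have h1 : Real.sqrt (1024 / r ^ 2) ≤ Real.sqrt k := Real.sqrt_le_sqrt hkr
    have h2 : Real.sqrt (1024 / r ^ 2) = 32 / r := by
      rw [show 1024 / r ^ 2 = (32 / r) ^ 2 by ring, Real.sqrt_sq (by positivity)]
    rw [h2] at h1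
    rw [hs, ← mul_div_assoc, mul_one, div_le_iff₀ hsk]
    calc (4 : ℝ) = r / 8 * (32 / r) := by field_simp; norm_num
      _ ≤ r / 8 * Real.sqrt k := by gcongr
  set V : ℝ := μ.real (bl s : Set G) with hV
  -- lower bound of the density
  have hlow : ∀ z : G, nN z ≤ 4 * s → q0 * (‖F 1‖ * E 1) ≤ f z * E z := by
    intro z hz
    have hz0 := nN_nonneg z
    have h1 := near_low hr hk0.le hM hF hpos hn (z := z) (by linarith)
    have h2 := hElow z (by linarith)
    have h3 : nN z ^ 2 ≤ 16 * s ^ 2 := by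
      calc nN z ^ 2 ≤ (4 * s) ^ 2 := pow_le_pow_left₀ hz0 hz 2
        _ = _ := by ring
    have h4 : k * nN z ^ 2 ≤ 16 := by
      calc k * nN z ^ 2 ≤ k * (16 * s ^ 2) := mul_le_mul_of_nonneg_left h3 hk0.le
        _ = 16 * (k * s ^ 2) := by ring
        _ = 16 := by rw [hss, mul_one]
    have h5 : Real.exp (-9) ≤ Real.exp (-(0.502 * (k * nN z ^ 2))) :=
      Real.exp_le_exp.2 (by linarith)
    have h6 : Real.exp (-8) ≤ Real.exp (-(k / 2 * nN z ^ 2)) :=
      Real.exp_le_exp.2 (by nlinarith)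
    have hE10 := hEpos 1
    calc q0 * (‖F 1‖ * E 1) = (‖F 1‖ * Real.exp (-9)) * (c₀ * E 1 * Real.exp (-8)) := by
          rw [hq0]; ring
      _ ≤ (‖F 1‖ * Real.exp (-(0.502 * (k * nN z ^ 2)))) *
          (c₀ * E 1 * Real.exp (-(k / 2 * nN z ^ 2))) := by gcongr
      _ ≤ f z * E z := mul_le_mul h1 h2 (by positivity) (hpos z).le
  have hF1 : 0 < ‖F 1‖ := by rw [hF.one, abs_of_pos (hpos 1)]; exact hpos 1
  have hE10 := hEpos 1
  have hVpos : 0 < V := by
    obtain ⟨c', hc', D, hv⟩ := vol_lower μ (G := G)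
    have h1 := hv s hs0 (by linarith)
    exact lt_of_lt_of_le (by positivity) h1
  have hq1 : 0 ≤ q0 * (‖F 1‖ * E 1) := by positivity
  have hint := integrable_of_cont (μ := μ) (hf.mul hE)
  -- normalisation
  have hZlow : q0 * (‖F 1‖ * E 1) * V ≤ ∫ z, f z * E z ∂μ := by
    calc q0 * (‖F 1‖ * E 1) * V = ∫ _z in (bl s : Set G), q0 * (‖F 1‖ * E 1) ∂μ := by
          rw [setIntegral_const, smul_eq_mul]; ring
      _ ≤ ∫ z in (bl s : Set G), f z * E z ∂μ :=
          setIntegral_mono_on (integrable_const _).integrableOn hint.integrableOn (bl_meas _)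
            fun z (hz : nN z ≤ s) => hlow z (by linarith)
      _ ≤ _ := setIntegral_le_integral hint (Eventually.of_forall fun z => (hfE z).le)
  have hZ : 0 < ∫ z, f z * E z ∂μ := lt_of_lt_of_le (by positivity) hZlow
  have hup1 := hup hka hM hF hpos hn ht
  have hZup : ∫ z, f z * E z ∂μ ≤ C1 * (‖F 1‖ * V) * E 1 := by
    calc ∫ z, f z * E z ∂μ ≤ ∫ z, f z * E 1 ∂μ :=
          integral_mono hint (integrable_of_cont (hf.mul continuous_const))
            fun z => mul_le_mul_of_nonneg_left (hE1 z) (hpos z).le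
      _ = (∫ z, f z ∂μ) * E 1 := integral_mul_const _ _
      _ ≤ _ := mul_le_mul_of_nonneg_right hup1 hE10.le
  have hak : 0 < a ^ 2 / k ^ 2 := by positivity
  constructor
  · -- lower bound
    have hK2 : V ≤ K ^ 2 * μ.real (bl (s / 4) : Set G) := by
      have h1 := hK (s / 2) (by positivity)
      have h2 := hK (s / 4) (by positivity)
      rw [show 2 * (s / 2) = s by ring] at h1
      rw [show 2 * (s / 4) = s / 2 by ring] at h2
      calc V ≤ K * μ.real (bl (s / 2) : Set G) := h1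
        _ ≤ K * (K * μ.real (bl (s / 4) : Set G)) := by gcongr
        _ = _ := by ring
    have hV1 : V / K ^ 2 ≤ μ.real (bl (s / 4) : Set G) := by
      rw [div_le_iff₀ (by positivity)]
      linarith
    have hV2 : V / K ^ 2 ≤ μ.real {g : G | s < nN g ∧ nN g ≤ 4 * s} := by
      refine le_trans (div_le_self hVpos.le (one_le_pow₀ hK1)) ?_
      exact vol_ring μ hr hn0 hs0 (by linarith)
    have hsa : a * s ^ 2 = a / k := by
      rw [eq_div_iff hk0.ne']
      linear_combination a * hss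
    have hls : lam * s ^ 4 ≤ ε * (a / k) := by
      calc lam * s ^ 4 ≤ ε * (k * a) * s ^ 4 := by gcongr
        _ = ε * (a / k) := by
            rw [← hsa]
            linear_combination ε * a * s ^ 2 * hss
    have hak' : 0 < a / k := by positivity
    have hls0 : 0 ≤ lam * s ^ 4 := by positivity
    have hl := vr_lower (μ := μ) (R1 := (bl (s / 4) : Set G))
      (R2 := {g : G | s < nN g ∧ nN g ≤ 4 * s})
      (v1 := -(0.1 * (a / k))) (v2 := -(0.3 * (a / k))) (q := q0 * (‖F 1‖ * E 1))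
      (V := V / K ^ 2) hf hh hE hpos hEpos hZ (bl_meas _)
      ((measurableSet_lt measurable_const nN_cont.measurable).inter (bl_meas _))
      (by linarith) ?_ ?_ hq1 ?_ ?_ hV1 hV2
    · refine le_trans ?_ hl
      have e1 : (-(0.1 * (a / k)) - -(0.3 * (a / k))) / 2 = 0.1 * (a / k) := by ring
      rw [e1]
      have e2 : 1 / (1 + CL + CU) ≤ 1 / CL := by
        apply one_div_le_one_div_of_le hCL0
        linarith
      calc 1 / (1 + CL + CU) * (a ^ 2 / k ^ 2) ≤ 1 / CL * (a ^ 2 / k ^ 2) := by gcongr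
        _ = (0.1 * (a / k)) ^ 2 * (q0 * (‖F 1‖ * E 1) * (V / K ^ 2)) /
            (C1 * (‖F 1‖ * V) * E 1) := by
            rw [hCL]
            field_simp
            norm_num
        _ ≤ _ := by
            refine div_le_div_of_nonneg_left (by positivity) hZ hZup
    · intro z hz
      have hz1 : nN z ≤ s / 4 := hz
      have hz0 := nN_nonneg z
      obtain ⟨t, e, q1, q2, q3, q4⟩ := hnT z (by linarith)
      have e1 : h z / f z = -(a / 2) * t - e := by
        rw [q1]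
        have := hne z
        field_simp
      rw [e1]
      have h3 : nN z ^ 2 ≤ s ^ 2 / 16 := by
        calc nN z ^ 2 ≤ (s / 4) ^ 2 := pow_le_pow_left₀ hz0 hz1 2
          _ = _ := by ring
      have h4 : nN z ^ 4 ≤ s ^ 4 / 256 := by
        calc nN z ^ 4 ≤ (s / 4) ^ 4 := pow_le_pow_left₀ hz0 hz1 4
          _ = _ := by ring
      have h5 : |e| ≤ 0.01 * (a / k) := by
        calc |e| ≤ lam * (1.01 * nN z ^ 4) := q4
          _ ≤ lam * (1.01 * (s ^ 4 / 256)) := by gcongr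
          _ = 1.01 / 256 * (lam * s ^ 4) := by ring
          _ ≤ 1.01 / 256 * (ε * (a / k)) := by gcongr
          _ ≤ _ := by rw [hε]; linarith
      have h6 : a * t ≤ 1.001 / 16 * (a / k) := by
        calc a * t ≤ a * (1.001 * (s ^ 2 / 16)) := by
              refine mul_le_mul_of_nonneg_left ?_ ha.le
              linarith
          _ = 1.001 / 16 * (a * s ^ 2) := by ring
          _ = _ := by rw [hsa]
      have h7 := le_abs_self e
      linarith
    · rintro z ⟨hz1, hz2⟩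
      have hz0 := nN_nonneg z
      obtain ⟨t, e, q1, q2, q3, q4⟩ := hnT z (by linarith)
      have e1 : h z / f z = -(a / 2) * t - e := by
        rw [q1]
        have := hne z
        field_simp
      rw [e1]
      have h3 : s ^ 2 ≤ nN z ^ 2 := pow_le_pow_left₀ hs0.le hz1.le 2
      have h4 : nN z ^ 4 ≤ 256 * s ^ 4 := by
        calc nN z ^ 4 ≤ (4 * s) ^ 4 := pow_le_pow_left₀ hz0 hz2 4
          _ = _ := by ring
      have h5 : |e| ≤ 0.03 * (a / k) := by
        calc |e| ≤ lam * (1.01 * nN z ^ 4) := q4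
          _ ≤ lam * (1.01 * (256 * s ^ 4)) := by gcongr
          _ = 1.01 * 256 * (lam * s ^ 4) := by ring
          _ ≤ 1.01 * 256 * (ε * (a / k)) := by gcongr
          _ ≤ _ := by rw [hε]; linarith
      have h6 : 0.999 * (a / k) ≤ a * t := by
        calc 0.999 * (a / k) = a * (0.999 * s ^ 2) := by rw [← hsa]; ring
          _ ≤ a * t := by
              refine mul_le_mul_of_nonneg_left ?_ ha.le
              linarith
      have h7 := neg_abs_le e
      linarith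
    · intro z hz
      have hz1 : nN z ≤ s / 4 := hz
      exact hlow z (by linarith)
    · rintro z ⟨hz1, hz2⟩
      exact hlow z hz2
  · -- upper bound
    have hlk' : lam ≤ k * |a| := by
      rw [abs_of_pos ha]
      refine hlk.trans ?_
      have : 0 < k * a := by positivity
      rw [hε]
      linarith
    have h1 := hsm hkb hM hF hpos hn ht hh hlam hlk' hnT hfar
    have h2 : ∫ z, h z ^ 2 / f z * E z ∂μ ≤ C2 * (a ^ 2 / k ^ 2) * (C1 * (‖F 1‖ * V)) * E 1 := by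
      have hcont : Continuous fun z => h z ^ 2 / f z := (hh.pow 2).div hf hne
      calc ∫ z, h z ^ 2 / f z * E z ∂μ ≤ ∫ z, h z ^ 2 / f z * E 1 ∂μ :=
            integral_mono (integrable_of_cont (hcont.mul hE))
              (integrable_of_cont (hcont.mul continuous_const))
              fun z => mul_le_mul_of_nonneg_left (hE1 z)
                (div_nonneg (sq_nonneg _) (hpos z).le)
        _ = (∫ z, h z ^ 2 / f z ∂μ) * E 1 := integral_mul_const _ _
        _ ≤ (C2 * (a ^ 2 / k ^ 2) * ∫ z, f z ∂μ) * E 1 := by gcongr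
        _ ≤ _ := by gcongr
    calc vr μ f h E ≤ (∫ z, h z ^ 2 / f z * E z ∂μ) / (∫ z, f z * E z ∂μ) := by
          unfold vr
          have := sq_nonneg ((∫ z, h z * E z ∂μ) / (∫ z, f z * E z ∂μ))
          linarith
      _ ≤ (C2 * (a ^ 2 / k ^ 2) * (C1 * (‖F 1‖ * V)) * E 1) / (q0 * (‖F 1‖ * E 1) * V) := by
          gcongr
      _ = CU * (a ^ 2 / k ^ 2) := by
          rw [hCU]
          field_simp
      _ ≤ _ := by
          refine mul_le_mul_of_nonneg_right ?_ hak.le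
          linarith

end

end Pool.Agent.N453.MK
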