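import Mathlib
import Pool.Agent.N453.MK.ExactA
import Pool.Agent.N453.MK.Var

/-!
# The exact constant of the variance of a tangent field
-/

open MeasureTheory Matrix Filter
open scoped Matrix.Norms.Frobenius ContDiff Topology
open Pool.Agent.H906R3.YM Pool.Agent.W793.YM Pool.Agent.TH618.YM Pool.Agent.N984.TW
open Pool.Agent.N991.MK
open Pool.Agent.N988.MK (qC)

namespace Pool.Agent.N453.MK

set_option linter.unusedSectionVars false

noncomputable section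

variable {N n : ℕ} {G : Subgroup (UN N)} {B : Frame G n}

/-- the fine form of a tangent vector at small elements of the group -/
def NearQ (r Ct a lam : ℝ) (f h : G → ℝ) : Prop :=
  ∀ z : G, nN z ≤ 0.95 * r → ∃ t e : ℝ, h z = f z * (-(a / 2) * t - e) ∧
    |t - nN z ^ 2| ≤ Ct * nN z ^ 4 ∧ |e| ≤ lam * (1.01 * nN z ^ 4)

lemma NearQ.nearT {r Ct a lam : ℝ} {f h : G → ℝ} (H : NearQ r Ct a lam f h) (hCt : 0 ≤ Ct)
    (hr : 0 ≤ r) (hs : Ct * r ^ 2 ≤ 0.001) : NearT r a lam f h := by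
  intro z hz
  obtain ⟨t, e, h1, h2, h3⟩ := H z hz
  have hz0 := nN_nonneg z
  have h4 : Ct * nN z ^ 4 ≤ 0.001 * nN z ^ 2 := by
    have h5 : nN z ^ 2 ≤ r ^ 2 := pow_le_pow_left₀ hz0 (by linarith) 2
    calc Ct * nN z ^ 4 = (Ct * nN z ^ 2) * nN z ^ 2 := by ring
      _ ≤ (Ct * r ^ 2) * nN z ^ 2 := by gcongr
      _ ≤ 0.001 * nN z ^ 2 := mul_le_mul_of_nonneg_right hs (sq_nonneg _)
  obtain ⟨h5, h6⟩ := abs_le.1 (h2.trans h4)
  exact ⟨t, e, h1, by linarith, by linarith, h3⟩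

variable [CompactSpace G] [MeasurableSpace G] [BorelSpace G]

/-- real points of the chart -/
lemma chart_real (B : Frame G n) (hG : IsClosed (G : Set (UN N))) : ∃ Ct ρ : ℝ, 0 ≤ Ct ∧ 0 < ρ ∧
    ∀ r : ℝ, r ≤ ρ → GoodR B r → ∀ z : G, nN z ≤ 0.95 * r → ∃ x : Fin n → ℂ, uE B x = uG z ∧
      nC x < r ∧ nE (imP x) = 0 ∧ 0.999 * nN z ^ 2 ≤ nE (reP x) ^ 2 ∧
      nE (reP x) ^ 2 ≤ 1.001 * nN z ^ 2 ∧ |nE (reP x) ^ 2 - nN z ^ 2| ≤ Ct * nN z ^ 4 := by
  obtain ⟨Cw, ρ, hCw, hρ, hw⟩ := nN_sq_near B hG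
  refine ⟨1.01 * Cw, ρ, by positivity, hρ, fun r hrρ hr z hz => ?_⟩
  have hp := hr.pos
  have hz0 := nN_nonneg z
  obtain ⟨x, e1, e2, e3, e4, e5⟩ := hr.near0 (y := z) (by linarith)
  have hE0 := nE_nonneg (reP x)
  have h3 : nC x ^ 2 = nE (reP x) ^ 2 := by rw [nE_re_im, e3]; ring
  have h4 : 0.999 * nN z ^ 2 ≤ nE (reP x) ^ 2 := by nlinarith
  have h5 : nE (reP x) ^ 2 ≤ 1.001 * nN z ^ 2 := by nlinarith
  have h6 : ∀ i, imP x i = 0 := by
    intro i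
    have h7 : nE (imP x) ^ 2 = 0 := by rw [e3]; norm_num
    rw [Pool.Agent.N991.MK.nE_sq] at h7
    have h8 := (Finset.sum_eq_zero_iff_of_nonneg (fun j _ => sq_nonneg (imP x j))).1 h7 i
      (Finset.mem_univ _)
    exact pow_eq_zero_iff (two_ne_zero) |>.1 h8
  have hx : x = rl (reP x) := by
    funext i
    apply Complex.ext
    · simp [rl, reP]
    · have := h6 i
      simp only [imP] at this
      simp [rl, this]
  have h7 : Eg B hG (reP x) = z := by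
    have h8 : uE B x = uG (Eg B hG (reP x)) := by
      rw [← uE_rl B hG, ← hx]
    rw [e1] at h8
    apply mt_inj
    have h9 := congrArg Units.val h8
    rw [uG_val, uG_val] at h9
    exact h9.symm
  have h8 : nE (reP x) < ρ := by
    have h9 : nE (reP x) ≤ nC x := nE_re_le x
    linarith
  have h9 := hw (reP x) h8
  rw [h7] at h9
  refine ⟨x, e1, e2, e3, h4, h5, ?_⟩
  rw [abs_sub_comm]
  refine h9.trans ?_
  have h10 : nE (reP x) ^ 4 ≤ 1.01 * nN z ^ 4 := by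
    calc nE (reP x) ^ 4 = (nE (reP x) ^ 2) ^ 2 := by ring
      _ ≤ (1.001 * nN z ^ 2) ^ 2 := pow_le_pow_left₀ (sq_nonneg _) h5 2
      _ = 1.002001 * nN z ^ 4 := by ring
      _ ≤ _ := by
          have h7 : 0 ≤ nN z ^ 4 := by positivity
          nlinarith
  calc Cw * nE (reP x) ^ 4 ≤ Cw * (1.01 * nN z ^ 4) := mul_le_mul_of_nonneg_left h10 hCw
    _ = _ := by ring

/-- the fine form from the complex expansion -/
lemma nearQ_of (B : Frame G n) (hG : IsClosed (G : Set (UN N))) : ∃ Ct ρ : ℝ, 0 ≤ Ct ∧ 0 < ρ ∧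
    ∀ r : ℝ, r ≤ ρ → GoodR B r → ∀ {a lam : ℝ} {f h : G → ℝ} {F H : (Mat N)ˣ → ℂ}
      {η : (Fin n → ℂ) → ℂ}, 0 ≤ lam → (∀ g : G, F (uG g) = (f g : ℂ)) →
      (∀ g : G, H (uG g) = (h g : ℂ)) →
      (∀ x, nC x < r → H (uE B x) = F (uE B x) * (-(a / 2) * qC x - η x)) →
      (∀ x, nC x < r → ‖η x‖ ≤ lam * nC x ^ 4) → NearQ r Ct a lam f h := by
  obtain ⟨Ct, ρ, hCt, hρ, hch⟩ := chart_real B hG
  refine ⟨Ct, ρ, hCt, hρ, fun r hrρ hr {a lam f h F H η} hlam hf hh near bd z hz => ?_⟩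
  obtain ⟨x, e1, e2, e3, e4, e5, e6⟩ := hch r hrρ hr z hz
  have hz0 := nN_nonneg z
  have h1 := near x e2
  rw [e1, hf, hh] at h1
  have h2 : qC x = ((nE (reP x) ^ 2 : ℝ) : ℂ) := by
    have h3 : nE (imP x) ^ 2 = 0 := by rw [e3]; norm_num
    rw [Pool.Agent.N991.MK.nE_sq] at h3
    have h4 : ∀ i, imP x i = 0 := by
      intro i
      have h5 := (Finset.sum_eq_zero_iff_of_nonneg (fun j _ => sq_nonneg (imP x j))).1 h3 i
        (Finset.mem_univ _)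
      exact pow_eq_zero_iff (two_ne_zero) |>.1 h5
    rw [Pool.Agent.N991.MK.nE_sq]
    unfold qC
    push_cast
    refine Finset.sum_congr rfl fun i _ => ?_
    congr 1
    apply Complex.ext
    · simp [reP]
    · have := h4 i
      simp only [imP] at this
      simp [this]
  have h3 : nC x ^ 2 = nE (reP x) ^ 2 := by rw [nE_re_im, e3]; ring
  refine ⟨nE (reP x) ^ 2, (η x).re, ?_, e6, ?_⟩
  · have h4 := congrArg Complex.re h1
    rw [Complex.ofReal_re, Complex.re_ofReal_mul, Complex.sub_re, h2] at h4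
    rw [h4]
    congr 2
    have : (-((a : ℂ) / 2) * ((nE (reP x) ^ 2 : ℝ) : ℂ)) =
      ((-(a / 2) * nE (reP x) ^ 2 : ℝ) : ℂ) := by push_cast; ring
    rw [this, Complex.ofReal_re]
  · refine (Complex.abs_re_le_norm _).trans ((bd x e2).trans ?_)
    refine mul_le_mul_of_nonneg_left ?_ hlam
    have h5 : nC x ^ 4 = (nE (reP x) ^ 2) ^ 2 := by rw [← h3]; ring
    rw [h5]
    calc (nE (reP x) ^ 2) ^ 2 ≤ (1.001 * nN z ^ 2) ^ 2 :=
          pow_le_pow_left₀ (sq_nonneg _) e5 2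
      _ ≤ 1.01 * nN z ^ 4 := by
          have : (1.001 * nN z ^ 2) ^ 2 = 1.002001 * nN z ^ 4 := by ring
          rw [this]
          have h7 : 0 ≤ nN z ^ 4 := by positivity
          nlinarith

/-- the arithmetic of the square -/
lemma sq_arith {a w D d : ℝ} (ha : 0 ≤ a) (hw : 0 ≤ w) (hd : |d| ≤ a * (D * w ^ 2)) :
    |(-(a / 2) * w - d) ^ 2 - a ^ 2 / 4 * w ^ 2| ≤
      a ^ 2 * (D * w ^ 3 + D ^ 2 * w ^ 4) := by
  have e : (-(a / 2) * w - d) ^ 2 - a ^ 2 / 4 * w ^ 2 = a * w * d + d ^ 2 := by ring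
  rw [e]
  refine (abs_add_le _ _).trans ?_
  rw [abs_mul, abs_mul, abs_of_nonneg ha, abs_of_nonneg hw, abs_of_nonneg (sq_nonneg d)]
  have h1 : a * w * |d| ≤ a * w * (a * (D * w ^ 2)) :=
    mul_le_mul_of_nonneg_left hd (mul_nonneg ha hw)
  have h2 : d ^ 2 ≤ (a * (D * w ^ 2)) ^ 2 := by
    rw [← sq_abs]
    exact pow_le_pow_left₀ (abs_nonneg _) hd 2
  calc a * w * |d| + d ^ 2 ≤ a * w * (a * (D * w ^ 2)) + (a * (D * w ^ 2)) ^ 2 := add_le_add h1 h2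
    _ = _ := by ring

/-- the final arithmetic of the variance -/
lemma fin_var {A1 A2 C T τ ν : ℝ} (hC : 0 ≤ C) (hτ : 0 ≤ τ) (hT : τ ≤ T) (hν : 0 ≤ ν)
    (h1 : |A1 - ν * (ν + 2) / 4| ≤ C * τ) (h2 : |A2 + ν / 2| ≤ C * τ) :
    |A1 - A2 ^ 2 - ν / 2| ≤ (C + C * (ν + C * T)) * τ := by
  have e : A1 - A2 ^ 2 - ν / 2 = (A1 - ν * (ν + 2) / 4) - (A2 + ν / 2) * (A2 - ν / 2) := by ring
  rw [e]
  refine (abs_sub _ _).trans ?_
  rw [abs_mul]
  have h3 : |A2 - ν / 2| ≤ ν + C * T := by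
    have e2 : A2 - ν / 2 = (A2 + ν / 2) - ν := by ring
    rw [e2]
    refine (abs_sub _ _).trans ?_
    rw [abs_of_nonneg hν]
    have := mul_le_mul_of_nonneg_left hT hC
    linarith
  have h4 : |A2 + ν / 2| * |A2 - ν / 2| ≤ C * τ * (ν + C * T) :=
    mul_le_mul h2 h3 (abs_nonneg _) (by positivity)
  calc _ ≤ C * τ + C * τ * (ν + C * T) := add_le_add h1 h4
    _ = _ := by ring

/-- **The exact constant of the variance of a tangent field**: the variance of `h / f` under the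
density `f` is `(n / 2) a ^ 2 / k ^ 2` in the limit of weak coupling. -/
theorem var_exact (B : Frame G n) (hG : IsClosed (G : Set (UN N))) (μ : Measure G)
    [IsProbabilityMeasure μ] [μ.IsMulLeftInvariant] [μ.IsMulRightInvariant] [μ.IsInvInvariant]
    {Ct : ℝ} (hCt : 0 ≤ Ct) :
    ∃ r2 : ℝ, 0 < r2 ∧ ∀ r : ℝ, 0 < r → r ≤ r2 → GoodR B r → ∀ c : ℝ, 0 < c →
    ∃ k0 C : ℝ, 1 ≤ k0 ∧ 0 ≤ C ∧ ∀ {k M a lam δ : ℝ} {f h : G → ℝ} {F : (Mat N)ˣ → ℂ}
      {m : (Fin n → ℂ) → ℂ}, k0 ≤ k → 0 ≤ M → M * r ^ 2 ≤ k / 1000 → CF f F → (∀ x, 0 < f x) →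
      Pool.Agent.N988.MK.St B r k M F m → Tube B r k F → Continuous h → 0 < a → 0 ≤ lam →
      0 ≤ δ → δ ≤ 1 → lam ≤ δ * (k * a) → NearQ r Ct a lam f h →
      ∫ z in {z : G | 0.95 * r < nN z}, h z ^ 2 / f z ∂μ ≤ Real.exp (-(c * k)) * a ^ 2 * f 1 →
      |k ^ 2 / a ^ 2 * vr μ f h (fun _ => 1) - n / 2| ≤ C * ((1 + M) / k + δ) := by
  obtain ⟨r2, hr2, hml⟩ := mean_law2 B hG μ
  refine ⟨r2, hr2, fun r hr hrr hgr c hc => ?_⟩
  have hr1 := hgr.le
  obtain ⟨k1, C1, hk1, hC1, hml⟩ := hml r hr hrr hgr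
  obtain ⟨m2, k2, hm2, hk2, hmom2⟩ := moments2 (B := B) μ hgr 2
  obtain ⟨m3, k3, hm3, hk3, hmom3⟩ := moments2 (B := B) μ hgr 3
  obtain ⟨m4, k4, hm4, hk4, hmom4⟩ := moments2 (B := B) μ hgr 4
  obtain ⟨k5, hk5, hk5', hb5⟩ := norm_beats1 (B := B) μ hgr (0.03 * r ^ 2) (by positivity) 4
  obtain ⟨k6, hk6, -, hb6⟩ := norm_beats1 (B := B) μ hgr c hc 4
  obtain ⟨C3, hC3⟩ : ∃ C3, C3 = (Ct + 2) * (m3 + (Ct + 2) * m4 + m2) + 4 * N ^ 2 + 2 * N +
    C1 + 2 := ⟨_, rfl⟩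
  have hC30 : 0 ≤ C3 := by rw [hC3]; positivity
  obtain ⟨T, hT⟩ : ∃ T, T = 2 + 1 / (1000 * r ^ 2) := ⟨_, rfl⟩
  refine ⟨max (max (max k1 k2) (max k3 k4)) (max k5 k6), C3 + C3 * (n + C3 * T),
    hk1.trans ((le_max_left _ _).trans ((le_max_left _ _).trans (le_max_left _ _))),
    by rw [hT]; positivity,
    fun {k M a lam δ f h F m} hk hM hMr hf hpos hs ht hh ha hlam hδ0 hδ hlk hQ hfar => ?_⟩
  simp only [max_le_iff] at hk
  obtain ⟨⟨⟨q1, q2⟩, q3, q4⟩, q5, q6⟩ := hk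
  have hk1k : 1 ≤ k := hk1.trans q1
  have hk0 : 0 < k := by linarith
  have hNs := Pool.Agent.N991.MK.St.toNear hs
  obtain ⟨v1, v2⟩ := hml q1 hM hMr hf hpos hs ht
  have b2 := hmom2 q2 hMr hf hpos hNs ht
  have b3 := hmom3 q3 hMr hf hpos hNs ht
  have b4 := hmom4 q4 hMr hf hpos hNs ht
  have b5 := hb5 q5 hMr hf hpos hNs
  have b6 := hb6 q6 hMr hf hpos hNs
  have cN : Continuous (nN : G → ℝ) := nN_cont
  have cF := hf.cont
  have hne : ∀ z, f z ≠ 0 := fun z => (hpos z).ne'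
  have ci : ∀ {φ : G → ℝ}, Continuous φ → Integrable φ μ := fun h => integrable_of_cont h
  obtain ⟨I, hI⟩ : ∃ I, I = ∫ z, f z ∂μ := ⟨_, rfl⟩
  obtain ⟨J, hJ⟩ : ∃ J, J = ∫ z, f z * nN z ^ 2 ∂μ := ⟨_, rfl⟩
  obtain ⟨J4, hJ4⟩ : ∃ J4, J4 = ∫ z, f z * nN z ^ 4 ∂μ := ⟨_, rfl⟩
  rw [← hI, ← hJ] at v1
  rw [← hI, ← hJ4] at v2
  rw [← hI] at b2 b3 b4 b5 b6
  have hf1 : f 1 = ‖F 1‖ := by rw [hf.one, abs_of_pos (hpos 1)]
  obtain ⟨E, hE⟩ : ∃ E, E = ‖F 1‖ * Real.exp (-(0.03 * r ^ 2 * k)) := ⟨_, rfl⟩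
  have hE0 : 0 ≤ E := by rw [hE]; positivity
  rw [← hE] at b5
  have hIpos : 0 < I := by
    rw [hI, integral_pos_iff_support_of_nonneg (fun z => (hpos z).le) (ci cF)]
    have h3 : Function.support f = Set.univ := by
      ext z; simp [(hpos z).ne']
    rw [h3, measure_univ]
    exact one_pos
  obtain ⟨A, hA⟩ : ∃ A : Set G, A = {z : G | nN z ≤ 0.95 * r} := ⟨_, rfl⟩
  have hAm : MeasurableSet A := by rw [hA]; exact bl_meas _
  have hAc : Aᶜ = {z : G | 0.95 * r < nN z} := by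
    ext z
    rw [hA]
    simp only [Set.mem_compl_iff, Set.mem_ofPred_eq, not_le]
  rw [← hA] at b2 b3 b4
  rw [← hAc] at hfar
  have hN2 : ∀ z : G, nN z ^ 2 ≤ 4 * N := by
    intro z
    have h6 := pow_le_pow_left₀ (nN_nonneg z) (nN_le z) 2
    rw [mul_pow, Real.sq_sqrt (Nat.cast_nonneg N)] at h6
    linarith
  have hN4 : ∀ z : G, nN z ^ 4 ≤ 16 * (N : ℝ) ^ 2 := by
    intro z
    have h6 := pow_le_pow_left₀ (sq_nonneg _) (hN2 z) 2
    calc nN z ^ 4 = (nN z ^ 2) ^ 2 := by ring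
      _ ≤ (4 * (N : ℝ)) ^ 2 := h6
      _ = _ := by ring
  have hfE : ∀ z ∈ Aᶜ, f z ≤ E := by
    intro z hz
    rw [hAc] at hz
    have hz' : 0.95 * r < nN z := hz
    have h1 := far_up hgr hk0.le hf ht (z := z) (by linarith)
    rw [abs_of_pos (hpos z)] at h1
    rw [hE]
    exact h1
  have hm1 : μ.real Aᶜ ≤ 1 := measureReal_le_one
  -- the moments on the two parts
  have hbd : ∀ (φ : G → ℝ) (K : ℝ), Continuous φ → 0 ≤ K → (∀ z ∈ Aᶜ, φ z ≤ K) →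
      ∫ z in Aᶜ, φ z ∂μ ≤ K := by
    intro φ K hφ hK hle
    calc ∫ z in Aᶜ, φ z ∂μ ≤ ∫ _z in Aᶜ, K ∂μ :=
          setIntegral_mono_on (ci hφ).integrableOn (integrable_const _).integrableOn
            hAm.compl hle
      _ = μ.real Aᶜ * K := by rw [setIntegral_const, smul_eq_mul]
      _ ≤ 1 * K := mul_le_mul_of_nonneg_right hm1 hK
      _ = K := one_mul _
  have cfn : Continuous fun z : G => f z * nN z ^ 2 := cF.mul (cN.pow 2)
  have cfn4 : Continuous fun z : G => f z * nN z ^ 4 := cF.mul (cN.pow 4)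
  have cfn6 : Continuous fun z : G => f z * nN z ^ 6 := cF.mul (cN.pow 6)
  have cfn8 : Continuous fun z : G => f z * nN z ^ 8 := cF.mul (cN.pow 8)
  obtain ⟨JA, hJA⟩ : ∃ JA, JA = ∫ z in A, f z * nN z ^ 2 ∂μ := ⟨_, rfl⟩
  obtain ⟨J4A, hJ4A⟩ : ∃ J4A, J4A = ∫ z in A, f z * nN z ^ 4 ∂μ := ⟨_, rfl⟩
  have u1 : |J - JA| ≤ 4 * N * E := by
    have h1 : J - JA = ∫ z in Aᶜ, f z * nN z ^ 2 ∂μ := by
      rw [hJ, hJA, ← integral_add_compl hAm (ci cfn)]; ring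
    have h2 : 0 ≤ ∫ z in Aᶜ, f z * nN z ^ 2 ∂μ :=
      setIntegral_nonneg hAm.compl fun z _ => mul_nonneg (hpos z).le (sq_nonneg _)
    rw [h1, abs_of_nonneg h2]
    refine hbd _ _ cfn (by positivity) fun z hz => ?_
    calc f z * nN z ^ 2 ≤ E * (4 * N) := mul_le_mul (hfE z hz) (hN2 z) (sq_nonneg _) hE0
      _ = _ := by ring
  have u2 : |J4 - J4A| ≤ 16 * N ^ 2 * E := by
    have h1 : J4 - J4A = ∫ z in Aᶜ, f z * nN z ^ 4 ∂μ := by
      rw [hJ4, hJ4A, ← integral_add_compl hAm (ci cfn4)]; ring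
    have h2 : 0 ≤ ∫ z in Aᶜ, f z * nN z ^ 4 ∂μ :=
      setIntegral_nonneg hAm.compl fun z _ => mul_nonneg (hpos z).le
        (pow_nonneg (nN_nonneg z) _)
    rw [h1, abs_of_nonneg h2]
    refine hbd _ _ cfn4 (by positivity) fun z hz => ?_
    calc f z * nN z ^ 4 ≤ E * (16 * N ^ 2) :=
          mul_le_mul (hfE z hz) (hN4 z) (pow_nonneg (nN_nonneg z) _) hE0
      _ = _ := by ring
  -- the pointwise expansion
  obtain ⟨D, hD⟩ : ∃ D, D = Ct + 2 * (δ * k) := ⟨_, rfl⟩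
  have hD0 : 0 ≤ D := by rw [hD]; positivity
  have hpt : ∀ z ∈ A, ∃ d : ℝ, h z = f z * (-(a / 2) * nN z ^ 2 - d) ∧
      |d| ≤ a * (D * (nN z ^ 2) ^ 2) := by
    intro z hz
    rw [hA] at hz
    obtain ⟨t, e, g1, g2, g3⟩ := hQ z hz
    refine ⟨a / 2 * (t - nN z ^ 2) + e, by rw [g1]; ring, ?_⟩
    refine (abs_add_le _ _).trans ?_
    rw [abs_mul, abs_of_pos (half_pos ha)]
    have hz4 : 0 ≤ nN z ^ 4 := pow_nonneg (nN_nonneg z) _
    have g4 : a / 2 * |t - nN z ^ 2| ≤ a / 2 * (Ct * nN z ^ 4) :=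
      mul_le_mul_of_nonneg_left g2 (half_pos ha).le
    have g5 : |e| ≤ δ * (k * a) * (1.01 * nN z ^ 4) :=
      g3.trans (mul_le_mul_of_nonneg_right hlk (by positivity))
    have g6 : 0 ≤ a * (Ct * nN z ^ 4) := by positivity
    have g7 : 0 ≤ a * (δ * k * nN z ^ 4) := by positivity
    have e7 : a * (D * (nN z ^ 2) ^ 2) = a * (Ct * nN z ^ 4) + 2 * (a * (δ * k * nN z ^ 4)) := by
      rw [hD]; ring
    rw [e7]
    have e8 : a / 2 * (Ct * nN z ^ 4) = 1 / 2 * (a * (Ct * nN z ^ 4)) := by ring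
    have e9 : δ * (k * a) * (1.01 * nN z ^ 4) = 1.01 * (a * (δ * k * nN z ^ 4)) := by ring
    rw [e8] at g4
    rw [e9] at g5
    linarith
  -- the parameter
  obtain ⟨η, hη⟩ : ∃ η, η = D / k := ⟨_, rfl⟩
  have hη0 : 0 ≤ η := by rw [hη]; positivity
  have hη1 : η ≤ (Ct + 2) * ((1 + M) / k + δ) := by
    have h1 : η = Ct * (1 / k) + 2 * δ := by
      rw [hη, hD]
      field_simp
    have h2 : 1 / k ≤ (1 + M) / k := div_le_div_of_nonneg_right (by linarith) hk0.le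
    have h3 : Ct * (1 / k) ≤ Ct * ((1 + M) / k) := mul_le_mul_of_nonneg_left h2 hCt
    have h4 : 0 ≤ (1 + M) / k := by positivity
    have h5 : 0 ≤ Ct * δ := by positivity
    rw [h1]
    nlinarith
  have hη2 : η ≤ Ct + 2 := by
    rw [hη, hD, div_le_iff₀ hk0]
    have h1 : Ct * 1 ≤ Ct * k := mul_le_mul_of_nonneg_left hk1k hCt
    have h2 : δ * k ≤ 1 * k := mul_le_mul_of_nonneg_right hδ hk0.le
    nlinarith
  obtain ⟨τ, hτ⟩ : ∃ τ, τ = (1 + M) / k + δ := ⟨_, rfl⟩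
  have hMk : 0 ≤ (1 + M) / k := by positivity
  have hτ0 : 0 ≤ τ := by rw [hτ]; positivity
  have hkτ : 1 / k ≤ τ := by
    have h2 : 1 / k ≤ (1 + M) / k := div_le_div_of_nonneg_right (by linarith) hk0.le
    rw [hτ]
    linarith
  rw [← hτ] at hη1
  have hτT : τ ≤ T := by
    rw [hτ, hT, add_div]
    have h1 : 1 / k ≤ 1 := (div_le_one hk0).2 hk1k
    have h2 : M / k ≤ 1 / (1000 * r ^ 2) := by
      rw [div_le_div_iff₀ hk0 (by positivity)]
      linarith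
    linarith
  have hEk : ∀ j : ℕ, j ≤ 3 → k ^ j * E ≤ I * τ := by
    intro j hj
    have h1 : k ^ j * E * k ≤ I := by
      refine le_trans ?_ b5
      calc k ^ j * E * k = k ^ (j + 1) * E := by ring
        _ ≤ k ^ 4 * E := mul_le_mul_of_nonneg_right
            (pow_le_pow_right₀ hk1k (by omega)) hE0
    calc k ^ j * E ≤ I / k := by rw [le_div_iff₀ hk0]; exact h1
      _ = I * (1 / k) := by ring
      _ ≤ I * τ := mul_le_mul_of_nonneg_left hkτ hIpos.le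
  have e6 : ∀ z : G, (nN z ^ 2) ^ 3 = nN z ^ 6 := fun z => by ring
  have e8 : ∀ z : G, (nN z ^ 2) ^ 4 = nN z ^ 8 := fun z => by ring
  have e4 : ∀ z : G, (nN z ^ 2) ^ 2 = nN z ^ 4 := fun z => by ring
  -- the second moment of the field
  have ch2 : Continuous fun z => h z ^ 2 / f z := (hh.pow 2).div cF hne
  obtain ⟨X, hX⟩ : ∃ X, X = ∫ z in A, h z ^ 2 / f z ∂μ := ⟨_, rfl⟩
  have w1 : |X - a ^ 2 / 4 * J4A| ≤ a ^ 2 / k ^ 2 * (I * ((m3 + (Ct + 2) * m4) * η)) := by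
    have h1 : X - a ^ 2 / 4 * J4A =
        ∫ z in A, (h z ^ 2 / f z - a ^ 2 / 4 * (f z * nN z ^ 4)) ∂μ := by
      have i2 : IntegrableOn (fun z : G => a ^ 2 / 4 * (f z * nN z ^ 4)) A μ :=
        (ci (continuous_const.mul cfn4)).integrableOn
      rw [integral_sub (ci ch2).integrableOn i2, integral_const_mul, hX, hJ4A]
    have h2 : ∀ z ∈ A, |h z ^ 2 / f z - a ^ 2 / 4 * (f z * nN z ^ 4)| ≤
        a ^ 2 * D * (f z * nN z ^ 6) + a ^ 2 * D ^ 2 * (f z * nN z ^ 8) := by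
      intro z hz
      obtain ⟨d, g1, g2⟩ := hpt z hz
      have hf0 := hpos z
      have e1 : h z ^ 2 / f z - a ^ 2 / 4 * (f z * nN z ^ 4) =
          f z * ((-(a / 2) * nN z ^ 2 - d) ^ 2 - a ^ 2 / 4 * (nN z ^ 2) ^ 2) := by
        rw [g1]
        field_simp
      rw [e1, abs_mul, abs_of_pos hf0]
      have h3 := sq_arith ha.le (sq_nonneg (nN z)) g2
      rw [e6, e8] at h3
      calc f z * |(-(a / 2) * nN z ^ 2 - d) ^ 2 - a ^ 2 / 4 * (nN z ^ 2) ^ 2| ≤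
            f z * (a ^ 2 * (D * nN z ^ 6 + D ^ 2 * nN z ^ 8)) :=
            mul_le_mul_of_nonneg_left h3 hf0.le
        _ = _ := by ring
    have i6 : IntegrableOn (fun z : G => a ^ 2 * D * (f z * nN z ^ 6)) A μ :=
      (ci (continuous_const.mul cfn6)).integrableOn
    have i8 : IntegrableOn (fun z : G => a ^ 2 * D ^ 2 * (f z * nN z ^ 8)) A μ :=
      (ci (continuous_const.mul cfn8)).integrableOn
    have h4 : ∫ z in A, f z * nN z ^ 6 ∂μ ≤ m3 * I / k ^ 3 := by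
      rw [le_div_iff₀ (by positivity)]
      linarith
    have h5 : ∫ z in A, f z * nN z ^ 8 ∂μ ≤ m4 * I / k ^ 4 := by
      rw [le_div_iff₀ (by positivity)]
      linarith
    rw [h1]
    calc |∫ z in A, (h z ^ 2 / f z - a ^ 2 / 4 * (f z * nN z ^ 4)) ∂μ|
        ≤ ∫ z in A, |h z ^ 2 / f z - a ^ 2 / 4 * (f z * nN z ^ 4)| ∂μ :=
          abs_integral_le_integral_abs
      _ ≤ ∫ z in A, (a ^ 2 * D * (f z * nN z ^ 6) + a ^ 2 * D ^ 2 * (f z * nN z ^ 8)) ∂μ :=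
          setIntegral_mono_on
            (ci (ch2.sub (continuous_const.mul cfn4))).abs.integrableOn (i6.add i8) hAm h2
      _ = a ^ 2 * D * ∫ z in A, f z * nN z ^ 6 ∂μ +
          a ^ 2 * D ^ 2 * ∫ z in A, f z * nN z ^ 8 ∂μ := by
          rw [integral_add i6 i8, integral_const_mul, integral_const_mul]
      _ ≤ a ^ 2 * D * (m3 * I / k ^ 3) + a ^ 2 * D ^ 2 * (m4 * I / k ^ 4) := by gcongr
      _ = a ^ 2 / k ^ 2 * (I * (m3 * η + m4 * (η * η))) := by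
          rw [hη]
          field_simp
      _ ≤ a ^ 2 / k ^ 2 * (I * (m3 * η + m4 * ((Ct + 2) * η))) := by gcongr
      _ = _ := by ring
  obtain ⟨Y, hY⟩ : ∃ Y, Y = ∫ z in Aᶜ, h z ^ 2 / f z ∂μ := ⟨_, rfl⟩
  have hY0 : 0 ≤ Y := by
    rw [hY]
    exact setIntegral_nonneg hAm.compl fun z _ => div_nonneg (sq_nonneg _) (hpos z).le
  have hYle : k ^ 4 * Y ≤ a ^ 2 * I := by
    rw [hY]
    calc k ^ 4 * ∫ z in Aᶜ, h z ^ 2 / f z ∂μ ≤ k ^ 4 * (Real.exp (-(c * k)) * a ^ 2 * f 1) :=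
          mul_le_mul_of_nonneg_left hfar (by positivity)
      _ = a ^ 2 * (k ^ 4 * (‖F 1‖ * Real.exp (-(c * k)))) := by rw [hf1]; ring
      _ ≤ a ^ 2 * I := mul_le_mul_of_nonneg_left b6 (sq_nonneg _)
  have hYk : Y ≤ a ^ 2 / k ^ 2 * (I * τ) := by
    have h1 : Y ≤ a ^ 2 * I / k ^ 4 := by
      rw [le_div_iff₀ (by positivity)]; linarith
    have h2 : a ^ 2 * I / k ^ 4 ≤ a ^ 2 * I / k ^ 3 := by
      refine div_le_div_of_nonneg_left (by positivity) (by positivity) ?_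
      exact pow_le_pow_right₀ hk1k (by norm_num)
    calc Y ≤ a ^ 2 * I / k ^ 3 := h1.trans h2
      _ = a ^ 2 / k ^ 2 * (I * (1 / k)) := by field_simp
      _ ≤ _ := by gcongr
  obtain ⟨S2, hS2⟩ : ∃ S2, S2 = ∫ z, h z ^ 2 / f z ∂μ := ⟨_, rfl⟩
  have hS2' : S2 = X + Y := by rw [hS2, hX, hY, integral_add_compl hAm (ci ch2)]
  have w2 : |k ^ 2 / a ^ 2 * S2 - n * (n + 2) / 4 * I| ≤ C3 * τ * I := by
    have e : k ^ 2 / a ^ 2 * S2 - n * (n + 2) / 4 * I =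
        k ^ 2 / a ^ 2 * (X - a ^ 2 / 4 * J4A) + k ^ 2 / a ^ 2 * Y +
          (-(k ^ 2 / 4 * (J4 - J4A)) + 1 / 4 * (k ^ 2 * J4 - n * (n + 2) * I)) := by
      rw [hS2']
      field_simp
      ring
    have hka : 0 < k ^ 2 / a ^ 2 := by positivity
    have g1 : |k ^ 2 / a ^ 2 * (X - a ^ 2 / 4 * J4A)| ≤ I * ((m3 + (Ct + 2) * m4) * η) := by
      rw [abs_mul, abs_of_pos hka]
      calc _ ≤ k ^ 2 / a ^ 2 * (a ^ 2 / k ^ 2 * (I * ((m3 + (Ct + 2) * m4) * η))) :=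
            mul_le_mul_of_nonneg_left w1 hka.le
        _ = _ := by field_simp
    have g2 : |k ^ 2 / a ^ 2 * Y| ≤ I * τ := by
      rw [abs_mul, abs_of_pos hka, abs_of_nonneg hY0]
      calc _ ≤ k ^ 2 / a ^ 2 * (a ^ 2 / k ^ 2 * (I * τ)) :=
            mul_le_mul_of_nonneg_left hYk hka.le
        _ = _ := by field_simp
    have g3 : |-(k ^ 2 / 4 * (J4 - J4A))| ≤ 4 * N ^ 2 * (I * τ) := by
      rw [abs_neg, abs_mul, abs_of_pos (by positivity : 0 < k ^ 2 / 4)]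
      have h1 := hEk 2 (by norm_num)
      calc k ^ 2 / 4 * |J4 - J4A| ≤ k ^ 2 / 4 * (16 * N ^ 2 * E) := by gcongr
        _ = 4 * N ^ 2 * (k ^ 2 * E) := by ring
        _ ≤ _ := by gcongr
    have g4 : |1 / 4 * (k ^ 2 * J4 - n * (n + 2) * I)| ≤ C1 * (I * τ) := by
      rw [abs_mul, abs_of_pos (by norm_num : (0 : ℝ) < 1 / 4)]
      have h1 : C1 * (1 + M) / k * I ≤ C1 * (I * τ) := by
        have h2 : (1 + M) / k ≤ τ := by rw [hτ]; linarith
        calc C1 * (1 + M) / k * I = C1 * (I * ((1 + M) / k)) := by ring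
          _ ≤ _ := by gcongr
      have h3 := abs_nonneg (k ^ 2 * J4 - n * (n + 2) * I)
      linarith
    have g5 : I * ((m3 + (Ct + 2) * m4) * η) ≤
        (Ct + 2) * (m3 + (Ct + 2) * m4) * (I * τ) := by
      calc I * ((m3 + (Ct + 2) * m4) * η) ≤ I * ((m3 + (Ct + 2) * m4) * ((Ct + 2) * τ)) := by
            gcongr
        _ = _ := by ring
    rw [e]
    have hIτ : 0 ≤ I * τ := by positivity
    have g6 : C3 * τ * I = (Ct + 2) * (m3 + (Ct + 2) * m4) * (I * τ) + (Ct + 2) * m2 * (I * τ) +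
        4 * N ^ 2 * (I * τ) + 2 * N * (I * τ) + C1 * (I * τ) + 2 * (I * τ) := by
      rw [hC3]; ring
    have g7 : 0 ≤ (Ct + 2) * m2 * (I * τ) := by positivity
    have g8 : 0 ≤ 2 * (N : ℝ) * (I * τ) := by positivity
    rw [g6]
    refine (abs_add_le _ _).trans ?_
    have g9 := abs_add_le (k ^ 2 / a ^ 2 * (X - a ^ 2 / 4 * J4A)) (k ^ 2 / a ^ 2 * Y)
    have g10 := abs_add_le (-(k ^ 2 / 4 * (J4 - J4A))) (1 / 4 * (k ^ 2 * J4 - n * (n + 2) * I))
    linarith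
  -- the mean of the field
  obtain ⟨XA, hXA⟩ : ∃ XA, XA = ∫ z in A, h z ∂μ := ⟨_, rfl⟩
  obtain ⟨XB, hXB⟩ : ∃ XB, XB = ∫ z in Aᶜ, h z ∂μ := ⟨_, rfl⟩
  obtain ⟨S1, hS1⟩ : ∃ S1, S1 = ∫ z, h z ∂μ := ⟨_, rfl⟩
  have hS1' : S1 = XA + XB := by rw [hS1, hXA, hXB, integral_add_compl hAm (ci hh)]
  have w3 : |XA + a / 2 * JA| ≤ a / k * (I * (m2 * η)) := by
    have h1 : XA + a / 2 * JA = ∫ z in A, (h z + a / 2 * (f z * nN z ^ 2)) ∂μ := by
      have i2 : IntegrableOn (fun z : G => a / 2 * (f z * nN z ^ 2)) A μ :=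
        (ci (continuous_const.mul cfn)).integrableOn
      rw [integral_add (ci hh).integrableOn i2, integral_const_mul, hXA, hJA]
    have h2 : ∀ z ∈ A, |h z + a / 2 * (f z * nN z ^ 2)| ≤ a * D * (f z * nN z ^ 4) := by
      intro z hz
      obtain ⟨d, g1, g2⟩ := hpt z hz
      have e1 : h z + a / 2 * (f z * nN z ^ 2) = f z * (-d) := by rw [g1]; ring
      rw [e1, abs_mul, abs_of_pos (hpos z), abs_neg]
      rw [e4] at g2
      calc f z * |d| ≤ f z * (a * (D * nN z ^ 4)) := mul_le_mul_of_nonneg_left g2 (hpos z).le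
        _ = _ := by ring
    have h4 : ∫ z in A, f z * nN z ^ 4 ∂μ ≤ m2 * I / k ^ 2 := by
      rw [le_div_iff₀ (by positivity)]
      linarith
    rw [h1]
    calc |∫ z in A, (h z + a / 2 * (f z * nN z ^ 2)) ∂μ|
        ≤ ∫ z in A, |h z + a / 2 * (f z * nN z ^ 2)| ∂μ := abs_integral_le_integral_abs
      _ ≤ ∫ z in A, a * D * (f z * nN z ^ 4) ∂μ :=
          setIntegral_mono_on (ci (hh.add (continuous_const.mul cfn))).abs.integrableOn
            (ci (continuous_const.mul cfn4)).integrableOn hAm h2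
      _ = a * D * ∫ z in A, f z * nN z ^ 4 ∂μ := integral_const_mul _ _
      _ ≤ a * D * (m2 * I / k ^ 2) := by gcongr
      _ = _ := by
          rw [hη]
          field_simp
  have w4 : |XB| ≤ a / k * (I * τ) := by
    have h1 : ∀ z ∈ Aᶜ, |h z| ≤ k ^ 2 / (2 * a) * (h z ^ 2 / f z) + a / (2 * k ^ 2) * f z := by
      intro z _
      have hf0 := hpos z
      have h2 : k ^ 2 / (2 * a) * (h z ^ 2 / f z) + a / (2 * k ^ 2) * f z - |h z| =
          (k ^ 2 * |h z| - a * f z) ^ 2 / (2 * a * k ^ 2 * f z) := by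
        have h3 : h z ^ 2 = |h z| ^ 2 := (sq_abs _).symm
        rw [h3]
        field_simp
        ring
      have h4 : 0 ≤ (k ^ 2 * |h z| - a * f z) ^ 2 / (2 * a * k ^ 2 * f z) := by positivity
      linarith
    have i1 : IntegrableOn (fun z : G => k ^ 2 / (2 * a) * (h z ^ 2 / f z)) Aᶜ μ :=
      (ci (continuous_const.mul ch2)).integrableOn
    have i2 : IntegrableOn (fun z : G => a / (2 * k ^ 2) * f z) Aᶜ μ :=
      (ci (continuous_const.mul cF)).integrableOn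
    have h5 : ∫ z in Aᶜ, f z ∂μ ≤ E := hbd _ _ cF hE0 hfE
    rw [hXB]
    calc |∫ z in Aᶜ, h z ∂μ| ≤ ∫ z in Aᶜ, |h z| ∂μ := abs_integral_le_integral_abs
      _ ≤ ∫ z in Aᶜ, (k ^ 2 / (2 * a) * (h z ^ 2 / f z) + a / (2 * k ^ 2) * f z) ∂μ :=
          setIntegral_mono_on (ci hh).abs.integrableOn (i1.add i2) hAm.compl h1
      _ = k ^ 2 / (2 * a) * Y + a / (2 * k ^ 2) * ∫ z in Aᶜ, f z ∂μ := by
          rw [integral_add i1 i2, integral_const_mul, integral_const_mul, hY]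
      _ ≤ k ^ 2 / (2 * a) * (a ^ 2 * I / k ^ 4) + a / (2 * k ^ 2) * E := by
          gcongr
          rw [le_div_iff₀ (by positivity)]
          linarith
      _ = a / k * (1 / 2 * (I * (1 / k)) + 1 / 2 * (E / k)) := by
          field_simp
      _ ≤ a / k * (1 / 2 * (I * τ) + 1 / 2 * (I * τ)) := by
          have h6 : E / k ≤ I * τ := by
            have h7 := hEk 0 (by norm_num)
            rw [pow_zero, one_mul] at h7
            exact (div_le_self hE0 hk1k).trans h7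
          gcongr
      _ = _ := by ring
  have w5 : |k / a * S1 + n / 2 * I| ≤ C3 * τ * I := by
    have e : k / a * S1 + n / 2 * I =
        k / a * (XA + a / 2 * JA) + k / a * XB +
          (k / 2 * (J - JA) + -(1 / 2 * (k * J - n * I))) := by
      rw [hS1']
      field_simp
      ring
    have hka : 0 < k / a := by positivity
    have g1 : |k / a * (XA + a / 2 * JA)| ≤ I * (m2 * η) := by
      rw [abs_mul, abs_of_pos hka]
      calc _ ≤ k / a * (a / k * (I * (m2 * η))) := mul_le_mul_of_nonneg_left w3 hka.le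
        _ = _ := by field_simp
    have g2 : |k / a * XB| ≤ I * τ := by
      rw [abs_mul, abs_of_pos hka]
      calc _ ≤ k / a * (a / k * (I * τ)) := mul_le_mul_of_nonneg_left w4 hka.le
        _ = _ := by field_simp
    have g3 : |k / 2 * (J - JA)| ≤ 2 * N * (I * τ) := by
      rw [abs_mul, abs_of_pos (by positivity : 0 < k / 2)]
      have h1 := hEk 1 (by norm_num)
      rw [pow_one] at h1
      calc k / 2 * |J - JA| ≤ k / 2 * (4 * N * E) := by gcongr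
        _ = 2 * N * (k * E) := by ring
        _ ≤ _ := by gcongr
    have g4 : |-(1 / 2 * (k * J - n * I))| ≤ C1 * (I * τ) := by
      rw [abs_neg, abs_mul, abs_of_pos (by norm_num : (0 : ℝ) < 1 / 2)]
      have h1 : C1 * (1 + M) / k * I ≤ C1 * (I * τ) := by
        have h2 : (1 + M) / k ≤ τ := by rw [hτ]; linarith
        calc C1 * (1 + M) / k * I = C1 * (I * ((1 + M) / k)) := by ring
          _ ≤ _ := by gcongr
      have h3 := abs_nonneg (k * J - n * I)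
      linarith
    have g5 : I * (m2 * η) ≤ (Ct + 2) * m2 * (I * τ) := by
      calc I * (m2 * η) ≤ I * (m2 * ((Ct + 2) * τ)) := by gcongr
        _ = _ := by ring
    rw [e]
    have hIτ : 0 ≤ I * τ := by positivity
    have g6 : C3 * τ * I = (Ct + 2) * (m3 + (Ct + 2) * m4) * (I * τ) + (Ct + 2) * m2 * (I * τ) +
        4 * N ^ 2 * (I * τ) + 2 * N * (I * τ) + C1 * (I * τ) + 2 * (I * τ) := by
      rw [hC3]; ring
    have g7 : 0 ≤ (Ct + 2) * (m3 + (Ct + 2) * m4) * (I * τ) := by positivity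
    have g8 : 0 ≤ 4 * (N : ℝ) ^ 2 * (I * τ) := by positivity
    rw [g6]
    refine (abs_add_le _ _).trans ?_
    have g9 := abs_add_le (k / a * (XA + a / 2 * JA)) (k / a * XB)
    have g10 := abs_add_le (k / 2 * (J - JA)) (-(1 / 2 * (k * J - n * I)))
    linarith
  -- conclusion
  have hvr : k ^ 2 / a ^ 2 * vr μ f h (fun _ => 1) =
      k ^ 2 / a ^ 2 * S2 / I - (k / a * S1 / I) ^ 2 := by
    unfold vr
    simp only [mul_one]
    rw [← hS2, ← hS1, ← hI]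
    field_simp
  rw [hvr]
  rw [hτ] at hτ0 hτT
  have x1 : |k ^ 2 / a ^ 2 * S2 / I - n * (n + 2) / 4| ≤ C3 * ((1 + M) / k + δ) := by
    have e : k ^ 2 / a ^ 2 * S2 / I - n * (n + 2) / 4 =
        (k ^ 2 / a ^ 2 * S2 - n * (n + 2) / 4 * I) / I := by
      field_simp
    rw [e, abs_div, abs_of_pos hIpos, div_le_iff₀ hIpos, ← hτ]
    exact w2
  have x2 : |k / a * S1 / I + n / 2| ≤ C3 * ((1 + M) / k + δ) := by
    have e : k / a * S1 / I + n / 2 = (k / a * S1 + n / 2 * I) / I := by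
      field_simp
    rw [e, abs_div, abs_of_pos hIpos, div_le_iff₀ hIpos, ← hτ]
    exact w5
  exact fin_var hC30 hτ0 hτT (Nat.cast_nonneg n) x1 x2

end

end Pool.Agent.N453.MK
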