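import Mathlib
import Pool.Agent.N991.MK.Fm

/-!
# The far part of a tangent field along the renormalisation flow
-/

open MeasureTheory Matrix Filter
open scoped Matrix.Norms.Frobenius ContDiff Topology
open Pool.Agent.H906R3.YM Pool.Agent.W793.YM Pool.Agent.TH618.YM Pool.Agent.N984.TW
open Pool.Agent.N991.MK

namespace Pool.Agent.N453.MK

set_option linter.unusedSectionVars false

noncomputable section

section general

variable {G : Type*} [Group G] [TopologicalSpace G] [IsTopologicalGroup G] [CompactSpace G]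
  [MeasurableSpace G] [BorelSpace G] [SecondCountableTopology G]
  {μ : Measure G} [IsProbabilityMeasure μ] [μ.IsMulLeftInvariant] [μ.IsMulRightInvariant]
  [μ.IsInvInvariant]

/-- Cauchy–Schwarz -/
lemma cs_int {u p q : G → ℝ} (hu : Continuous u) (hp : Continuous p) (hq : Continuous q)
    (p0 : ∀ x, 0 ≤ p x) (q0 : ∀ x, 0 ≤ q x) (h : ∀ x, u x ^ 2 ≤ p x * q x) :
    (∫ x, u x ∂μ) ^ 2 ≤ (∫ x, p x ∂μ) * ∫ x, q x ∂μ := by
  have hpt : ∀ (t : ℝ) (x : G), 0 ≤ t * t * p x + (2 * t * u x + q x) := by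
    intro t x
    have h1 : |u x| ≤ Real.sqrt (p x) * Real.sqrt (q x) := by
      rw [← Real.sqrt_mul (p0 x)]
      exact Real.abs_le_sqrt (h x)
    have h2 : p x = Real.sqrt (p x) ^ 2 := (Real.sq_sqrt (p0 x)).symm
    have h3 : q x = Real.sqrt (q x) ^ 2 := (Real.sq_sqrt (q0 x)).symm
    have h4 : -(|t| * (Real.sqrt (p x) * Real.sqrt (q x))) ≤ t * u x := by
      have h5 : |t * u x| ≤ |t| * (Real.sqrt (p x) * Real.sqrt (q x)) := by
        rw [abs_mul]
        exact mul_le_mul_of_nonneg_left h1 (abs_nonneg t)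
      exact (neg_le_neg h5).trans (neg_abs_le _)
    have h6 : t * t = |t| ^ 2 := by rw [sq_abs, sq]
    rw [h6]
    have h7 := sq_nonneg (|t| * Real.sqrt (p x) - Real.sqrt (q x))
    have h8 : |t| ^ 2 * p x = (|t| * Real.sqrt (p x)) ^ 2 := by rw [mul_pow, ← h2]
    rw [h8]
    nlinarith
  have ip : Integrable p μ := integrable_of_cont hp
  have iq : Integrable q μ := integrable_of_cont hq
  have iu : Integrable u μ := integrable_of_cont hu
  have h1 : ∀ t : ℝ, 0 ≤ (∫ x, p x ∂μ) * (t * t) + (2 * ∫ x, u x ∂μ) * t + ∫ x, q x ∂μ := by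
    intro t
    have h2 : 0 ≤ ∫ x, (t * t * p x + (2 * t * u x + q x)) ∂μ := integral_nonneg (hpt t)
    have i1 : Integrable (fun x => 2 * t * u x + q x) μ := (iu.const_mul _).add iq
    rw [integral_add (ip.const_mul _) i1, integral_add (iu.const_mul _) iq,
      integral_const_mul, integral_const_mul] at h2
    linarith
  have h2 := discrim_le_zero h1
  unfold discrim at h2
  linarith

lemma cont_shift {g : G → ℝ} (hg : Continuous g) (x : G) : Continuous fun y : G => g (y⁻¹ * x) :=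
  hg.comp (continuous_inv.mul continuous_const)

lemma conv_cs {f g w : G → ℝ} (hf : Continuous f) (hg : Continuous g) (hw : Continuous w)
    (f0 : ∀ x, 0 ≤ f x) (w0 : ∀ x, 0 ≤ w x) (h : ∀ x, g x ^ 2 ≤ f x * w x) (x : G) :
    conv μ f g x ^ 2 ≤ conv μ f f x * conv μ f w x := by
  unfold conv
  refine cs_int (hf.mul (cont_shift hg x)) (hf.mul (cont_shift hf x)) (hf.mul (cont_shift hw x))
    (fun y => mul_nonneg (f0 _) (f0 _)) (fun y => mul_nonneg (f0 _) (w0 _)) fun y => ?_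
  calc (f y * g (y⁻¹ * x)) ^ 2 = f y ^ 2 * g (y⁻¹ * x) ^ 2 := by ring
    _ ≤ f y ^ 2 * (f (y⁻¹ * x) * w (y⁻¹ * x)) :=
        mul_le_mul_of_nonneg_left (h _) (sq_nonneg _)
    _ = _ := by ring

lemma conv_cs' {f g w : G → ℝ} (hf : Continuous f) (hg : Continuous g) (hw : Continuous w)
    (f0 : ∀ x, 0 ≤ f x) (w0 : ∀ x, 0 ≤ w x) (h : ∀ x, g x ^ 2 ≤ f x * w x) (x : G) :
    conv μ g f x ^ 2 ≤ conv μ f f x * conv μ w f x := by
  unfold conv
  refine cs_int (hg.mul (cont_shift hf x)) (hf.mul (cont_shift hf x)) (hw.mul (cont_shift hf x))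
    (fun y => mul_nonneg (f0 _) (f0 _)) (fun y => mul_nonneg (w0 _) (f0 _)) fun y => ?_
  calc (g y * f (y⁻¹ * x)) ^ 2 = g y ^ 2 * f (y⁻¹ * x) ^ 2 := by ring
    _ ≤ (f y * w y) * f (y⁻¹ * x) ^ 2 :=
        mul_le_mul_of_nonneg_right (h _) (sq_nonneg _)
    _ = _ := by ring

lemma int_shift (g : G → ℝ) (x : G) : ∫ y, g (y⁻¹ * x) ∂μ = ∫ y, g y ∂μ := by
  rw [integral_inv_eq_self (μ := μ) (fun y => g (y * x)), integral_mul_right_eq_self]

lemma conv_le_sup {f g : G → ℝ} {c : ℝ} (hf : Continuous f) (hg : Continuous g)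
    (g0 : ∀ x, 0 ≤ g x) (hc : ∀ x, f x ≤ c) (x : G) : conv μ f g x ≤ c * ∫ y, g y ∂μ := by
  unfold conv
  calc ∫ y, f y * g (y⁻¹ * x) ∂μ ≤ ∫ y, c * g (y⁻¹ * x) ∂μ :=
        integral_mono (integrable_of_cont (hf.mul (cont_shift hg x)))
          (integrable_of_cont (continuous_const.mul (cont_shift hg x)))
          fun y => mul_le_mul_of_nonneg_right (hc y) (g0 _)
    _ = _ := by rw [integral_const_mul, int_shift]

lemma conv_le_sup' {f g : G → ℝ} {c : ℝ} (hf : Continuous f) (hg : Continuous g)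
    (g0 : ∀ x, 0 ≤ g x) (hc : ∀ x, f x ≤ c) (x : G) : conv μ g f x ≤ c * ∫ y, g y ∂μ := by
  unfold conv
  calc ∫ y, g y * f (y⁻¹ * x) ∂μ ≤ ∫ y, g y * c ∂μ :=
        integral_mono (integrable_of_cont (hg.mul (cont_shift hf x)))
          (integrable_of_cont (hg.mul continuous_const))
          fun y => mul_le_mul_of_nonneg_left (hc _) (g0 _)
    _ = _ := by rw [integral_mul_const, mul_comm]

lemma intg_conv {f g : G → ℝ} (hf : Continuous f) (hg : Continuous g) :
    ∫ x, conv μ f g x ∂μ = (∫ x, f x ∂μ) * ∫ x, g x ∂μ := by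
  unfold conv
  rw [integral_integral_swap (f := fun x y => f y * g (y⁻¹ * x))]
  · have h1 : ∀ y, ∫ x, f y * g (y⁻¹ * x) ∂μ = f y * ∫ x, g x ∂μ := by
      intro y
      rw [integral_const_mul, integral_mul_left_eq_self]
    simp only [h1]
    rw [integral_mul_const]
  · have h2 : Continuous (Function.uncurry fun x y : G => f y * g (y⁻¹ * x)) :=
      (hf.comp continuous_snd).mul
        (hg.comp ((continuous_inv.comp continuous_snd).mul continuous_fst))
    exact h2.integrable_of_hasCompactSupport (HasCompactSupport.of_compactSpace _)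

variable (μ) in
/-- the derivative of the four-fold convolution square -/
def dS (f h : G → ℝ) (x : G) : ℝ :=
  conv μ (fun x => conv μ f h x + conv μ h f x) (conv μ f f) x +
    conv μ (conv μ f f) (fun x => conv μ f h x + conv μ h f x) x

/-- the fundamental estimate of the derivative -/
theorem dS_sq {f h : G → ℝ} (hf : Continuous f) (hh : Continuous h) (hpos : ∀ x, 0 < f x)
    {c : ℝ} (hc : ∀ x, f x ≤ c) (x : G) :
    dS μ f h x ^ 2 ≤ 16 * conv μ (conv μ f f) (conv μ f f) x *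
      (c * (∫ z, f z ∂μ) ^ 2 * ∫ z, h z ^ 2 / f z ∂μ) := by
  set w : G → ℝ := fun z => h z ^ 2 / f z with hw
  have hne : ∀ z, f z ≠ 0 := fun z => (hpos z).ne'
  have cw : Continuous w := (hh.pow 2).div hf hne
  have w0 : ∀ z, 0 ≤ w z := fun z => div_nonneg (sq_nonneg _) (hpos z).le
  have f0 : ∀ z, 0 ≤ f z := fun z => (hpos z).le
  have hfw : ∀ z, h z ^ 2 ≤ f z * w z := fun z => by
    rw [hw]; beta_reduce; rw [mul_div_cancel₀ _ (hne z)]
  set F2 := conv μ f f with hF2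
  have cF2 : Continuous F2 := cont_conv hf hf
  have F20 : ∀ z, 0 < F2 z := conv_pos hf hf hpos hpos
  set d : G → ℝ := fun x => conv μ f h x + conv μ h f x with hd
  have cd : Continuous d := (cont_conv hf hh).add (cont_conv hh hf)
  set V : G → ℝ := fun x => 2 * (conv μ f w x + conv μ w f x) with hV
  have cV : Continuous V := continuous_const.mul ((cont_conv hf cw).add (cont_conv cw hf))
  have cv0 : ∀ (p q : G → ℝ), (∀ z, 0 ≤ p z) → (∀ z, 0 ≤ q z) → ∀ z, 0 ≤ conv μ p q z :=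
    fun p q hp hq z => integral_nonneg fun y => mul_nonneg (hp _) (hq _)
  have V0 : ∀ z, 0 ≤ V z := fun z =>
    mul_nonneg zero_le_two (add_nonneg (cv0 _ _ f0 w0 z) (cv0 _ _ w0 f0 z))
  have hdV : ∀ z, d z ^ 2 ≤ F2 z * V z := by
    intro z
    have h1 := conv_cs (μ := μ) hf hh cw f0 w0 hfw z
    have h2 := conv_cs' (μ := μ) hf hh cw f0 w0 hfw z
    rw [hd, hV]
    beta_reduce
    have h3 := sq_nonneg (conv μ f h z - conv μ h f z)
    nlinarith
  have hc0 : 0 ≤ c := (f0 1).trans (hc 1)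
  have hF2c : ∀ z, F2 z ≤ c * ∫ y, f y ∂μ := fun z => conv_le_sup hf hf f0 hc z
  have hIV : ∫ z, V z ∂μ = 4 * ((∫ z, f z ∂μ) * ∫ z, w z ∂μ) := by
    rw [hV]
    rw [integral_const_mul, integral_add (integrable_of_cont (cont_conv hf cw))
      (integrable_of_cont (cont_conv cw hf)), intg_conv hf cw, intg_conv cw hf]
    ring
  have Q0 : 0 ≤ conv μ F2 F2 x := cv0 _ _ (fun z => (F20 z).le) (fun z => (F20 z).le) x
  have a1 := conv_cs' (μ := μ) cF2 cd cV (fun z => (F20 z).le) V0 hdV x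
  have a2 := conv_cs (μ := μ) cF2 cd cV (fun z => (F20 z).le) V0 hdV x
  have b1 := conv_le_sup (μ := μ) cF2 cV V0 hF2c x
  have b2 := conv_le_sup' (μ := μ) cF2 cV V0 hF2c x
  have h3 := sq_nonneg (conv μ d F2 x - conv μ F2 d x)
  have h4 : dS μ f h x ^ 2 ≤ 2 * (conv μ d F2 x ^ 2 + conv μ F2 d x ^ 2) := by
    unfold dS
    nlinarith
  calc dS μ f h x ^ 2 ≤ 2 * (conv μ d F2 x ^ 2 + conv μ F2 d x ^ 2) := h4
    _ ≤ 2 * (conv μ F2 F2 x * conv μ V F2 x + conv μ F2 F2 x * conv μ F2 V x) := by linarith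
    _ = 2 * conv μ F2 F2 x * (conv μ V F2 x + conv μ F2 V x) := by ring
    _ ≤ 2 * conv μ F2 F2 x * (c * (∫ y, f y ∂μ) * (∫ y, V y ∂μ) +
        c * (∫ y, f y ∂μ) * (∫ y, V y ∂μ)) := by gcongr
    _ = _ := by rw [hIV]; ring

lemma int4_le {f : G → ℝ} (hf : Continuous f) (hc : Cls f) (hs : Sy f) :
    (∫ z, f z ∂μ) ^ 4 ≤ conv μ (conv μ f f) (conv μ f f) 1 := by
  rw [conv_one (conv_sy hc hc hs hs)]
  have h1 := cs_int (μ := μ) (u := conv μ f f) (p := fun _ => 1) (q := fun z => conv μ f f z ^ 2)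
    (cont_conv hf hf) continuous_const ((cont_conv hf hf).pow 2) (fun _ => zero_le_one)
    (fun _ => sq_nonneg _) (fun z => by rw [one_mul])
  rw [intg_conv hf hf, integral_const] at h1
  simp only [probReal_univ, smul_eq_mul, mul_one, one_mul] at h1
  calc (∫ z, f z ∂μ) ^ 4 = ((∫ x, f x ∂μ) * ∫ x, f x ∂μ) ^ 2 := by ring
    _ ≤ _ := h1

end general

variable {N n : ℕ} {G : Subgroup (UN N)} {B : Frame G n}
variable [CompactSpace G] [MeasurableSpace G] [BorelSpace G]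
  (μ : Measure G) [IsProbabilityMeasure μ] [μ.IsMulLeftInvariant] [μ.IsMulRightInvariant]
  [μ.IsInvInvariant]

/-- the density is largest at the identity -/
lemma le_one_of {r k M : ℝ} {f : G → ℝ} {F : (Mat N)ˣ → ℂ} (hr : GoodR B r) (hk : 0 ≤ k)
    (hM : M * r ^ 2 ≤ k / 1000) (h : CF f F) (hpos : ∀ x, 0 < f x) (hn : NearS B r k M F)
    (ht : Tube B r k F) (z : G) : f z ≤ f 1 := by
  have hp := hr.pos
  have h3 : f 1 = ‖F 1‖ := by rw [h.one, abs_of_pos (hpos 1)]
  rw [h3]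
  have hz0 := nN_nonneg z
  rcases le_total (nN z) (r / 4) with hz | hz
  · have h6 := near_up hr hk hM h hn (z := z) (by linarith)
    rw [abs_of_pos (hpos z)] at h6
    refine h6.trans (mul_le_of_le_one_right (norm_nonneg _) (Real.exp_le_one_iff.2 ?_))
    have : 0 ≤ 0.4985 * k * nN z ^ 2 := by positivity
    linarith
  · have h6 := far_up hr hk h ht hz
    rw [abs_of_pos (hpos z)] at h6
    refine h6.trans (mul_le_of_le_one_right (norm_nonneg _) (Real.exp_le_one_iff.2 ?_))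
    have : 0 ≤ 0.03 * r ^ 2 * k := by positivity
    linarith

/-- the derivative of the renormalisation map, divided by the root of the density -/
theorem dT_point {r δ : ℝ} (hr : GoodR B r) (hδ : 0 < δ) : ∃ k0 : ℝ, 1 ≤ k0 ∧
    ∀ {k M : ℝ} {f h : G → ℝ} {F : (Mat N)ˣ → ℂ}, k0 ≤ k → M * r ^ 2 ≤ k / 1000 → CF f F →
      (∀ x, 0 < f x) → NearS B r k M F → Tube B r k F → Continuous h → ∀ {W : ℝ},
      ∫ z, h z ^ 2 / f z ∂μ ≤ W * ∫ z, f z ∂μ → ∀ x,
      dS μ f h x ^ 2 ≤ 16 * conv μ (conv μ f f) (conv μ f f) x *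
        (Real.exp (δ * k) * W * conv μ (conv μ f f) (conv μ f f) 1) := by
  obtain ⟨k1, hk1, hk1', hb⟩ := norm_beats1 μ hr δ hδ 0
  refine ⟨k1, hk1, fun {k M f h F} hk hM hF hpos hn ht hh {W} hW x => ?_⟩
  have hk0 : 0 < k := by linarith
  have hf := hF.cont
  have h3 : f 1 = ‖F 1‖ := by rw [hF.one, abs_of_pos (hpos 1)]
  have h1 := hb hk hM hF hpos hn
  rw [pow_zero, one_mul, ← h3] at h1
  have hsup := le_one_of hr hk0.le hM hF hpos hn ht
  have h2 := dS_sq (μ := μ) hf hh hpos hsup x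
  refine h2.trans ?_
  have hQ : 0 ≤ conv μ (conv μ f f) (conv μ f f) x :=
    integral_nonneg fun y => mul_nonneg (conv_pos hf hf hpos hpos _).le
      (conv_pos hf hf hpos hpos _).le
  have hI : 0 ≤ ∫ z, f z ∂μ := integral_nonneg fun z => (hpos z).le
  have hW0 : 0 ≤ ∫ z, h z ^ 2 / f z ∂μ :=
    integral_nonneg fun z => div_nonneg (sq_nonneg _) (hpos z).le
  refine mul_le_mul_of_nonneg_left ?_ (by positivity)
  have h4 : f 1 ≤ Real.exp (δ * k) * ∫ z, f z ∂μ := by
    have h5 := mul_le_mul_of_nonneg_left h1 (Real.exp_pos (δ * k)).le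
    have h6 : Real.exp (δ * k) * (f 1 * Real.exp (-(δ * k))) = f 1 := by
      rw [mul_left_comm, ← Real.exp_add]
      simp
    rwa [h6] at h5
  have hWI : 0 ≤ W * ∫ z, f z ∂μ := hW0.trans hW
  have h7 := int4_le (μ := μ) hf hF.clsR hF.symR
  have hIpos : 0 < ∫ z, f z ∂μ := by
    have h8 : 0 < f 1 * Real.exp (-(δ * k)) := mul_pos (hpos 1) (Real.exp_pos _)
    linarith
  have hW' : 0 ≤ W := nonneg_of_mul_nonneg_left hWI hIpos
  calc f 1 * (∫ z, f z ∂μ) ^ 2 * ∫ z, h z ^ 2 / f z ∂μ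
      ≤ (Real.exp (δ * k) * ∫ z, f z ∂μ) * (∫ z, f z ∂μ) ^ 2 * (W * ∫ z, f z ∂μ) := by
        gcongr
    _ = Real.exp (δ * k) * W * (∫ z, f z ∂μ) ^ 4 := by ring
    _ ≤ _ := by gcongr

/-- **the far part of a tangent field after one step**, in normalised form -/
theorem far_step {r A : ℝ} (hr : GoodR B r) (hA : 0 < A) : ∃ k0 : ℝ, 1 ≤ k0 ∧
    ∀ {k k' M a a' : ℝ} {f h f' g' : G → ℝ} {F F' : (Mat N)ˣ → ℂ}, k0 ≤ k →
      M * r ^ 2 ≤ k / 1000 → CF f F → (∀ x, 0 < f x) → NearS B r k M F → Tube B r k F →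
      Continuous h → ∫ z, h z ^ 2 / f z ∂μ ≤ A * a ^ 2 * ∫ z, f z ∂μ →
      |a| ≤ 2 * |a'| → k / 2 ≤ k' → k' ≤ 2 * k →
      (∀ x, f' x = conv μ (conv μ f f) (conv μ f f) x ^ 4) →
      (∀ x, g' x = 4 * conv μ (conv μ f f) (conv μ f f) x ^ 3 * dS μ f h x) →
      CF f' F' → Tube B r k' F' →
      ∫ z in {z : G | 0.95 * r < nN z},
        (g' z / f' 1 - g' 1 * f' z / f' 1 ^ 2) ^ 2 / (f' z / f' 1) ∂μ ≤
        Real.exp (-(r ^ 2 / 400 * k')) * a' ^ 2 := by
  have hp := hr.pos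
  obtain ⟨k1, hk1, hb⟩ := dT_point (B := B) μ hr (δ := 0.005 * r ^ 2) (by positivity)
  obtain ⟨k2, hk2, hexp⟩ := exp_beats (0.001 * r ^ 2) 1 (by positivity) one_pos
    (Real.log (4096 * A)) 0
  refine ⟨max k1 k2, hk1.trans (le_max_left _ _),
    fun {k k' M a a' f h f' g' F F'} hk hM hF hpos hn ht hh hW haa hkk hkk' hf' hg' hF' ht' => ?_⟩
  have hka : k1 ≤ k := (le_max_left _ _).trans hk
  have hkb : k2 ≤ k := (le_max_right _ _).trans hk
  have hk0 : 0 < k := by linarith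
  have hk0' : 0 < k' := by linarith
  have hf := hF.cont
  set Q := conv μ (conv μ f f) (conv μ f f) with hQ
  have cF2 : Continuous (conv μ f f) := cont_conv hf hf
  have F20 : ∀ z, 0 < conv μ f f z := conv_pos hf hf hpos hpos
  have cQ : Continuous Q := cont_conv cF2 cF2
  have Q0 : ∀ z, 0 < Q z := conv_pos cF2 cF2 F20 F20
  have hpt := hb hka hM hF hpos hn ht hh hW
  set Y := Real.exp (0.005 * r ^ 2 * k) * (A * a ^ 2) with hY
  have hY0 : 0 ≤ Y := by positivity
  have cd : Continuous (dS μ f h) := by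
    have c1 : Continuous fun x => conv μ f h x + conv μ h f x :=
      (cont_conv hf hh).add (cont_conv hh hf)
    exact (cont_conv c1 cF2).add (cont_conv cF2 c1)
  have f'pos : ∀ z, 0 < f' z := fun z => by rw [hf' z]; exact pow_pos (Q0 z) 4
  have cf' : Continuous f' := hF'.cont
  have cg' : Continuous g' := by
    have : g' = fun x => 4 * Q x ^ 3 * dS μ f h x := funext hg'
    rw [this]
    exact (continuous_const.mul (cQ.pow 3)).mul cd
  -- the ratio at far points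
  have hfar : ∀ z : G, r / 4 ≤ nN z → (Q z / Q 1) ^ 4 ≤ Real.exp (-(0.03 * r ^ 2 * k')) := by
    intro z hz
    have h1 := far_up hr hk0'.le hF' ht' hz
    rw [abs_of_pos (f'pos z), hF'.one, abs_of_pos (f'pos 1), hf' z, hf' 1] at h1
    rw [div_pow, div_le_iff₀ (pow_pos (Q0 1) 4)]
    linarith
  have hfar3 : ∀ z : G, r / 4 ≤ nN z →
      (Q z / Q 1) ^ 3 ≤ Real.exp (-(0.0225 * r ^ 2 * k')) := by
    intro z hz
    have hq : 0 ≤ Q z / Q 1 := div_nonneg (Q0 z).le (Q0 1).le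
    have h1 : Q z / Q 1 ≤ Real.exp (-(0.0075 * r ^ 2 * k')) := by
      refine le_of_pow_le_pow_left₀ (n := 4) (by norm_num) (Real.exp_pos _).le ?_
      refine (hfar z hz).trans (le_of_eq ?_)
      rw [← Real.exp_nat_mul]
      congr 1
      push_cast
      ring
    calc (Q z / Q 1) ^ 3 ≤ Real.exp (-(0.0075 * r ^ 2 * k')) ^ 3 := pow_le_pow_left₀ hq h1 3
      _ = _ := by
          rw [← Real.exp_nat_mul]
          congr 1
          push_cast
          ring
  -- the pointwise bound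
  have hg2 : ∀ z, g' z ^ 2 ≤ 256 * Q z ^ 7 * (Y * Q 1) := by
    intro z
    rw [hg' z]
    calc (4 * Q z ^ 3 * dS μ f h z) ^ 2 = 16 * Q z ^ 6 * dS μ f h z ^ 2 := by ring
      _ ≤ 16 * Q z ^ 6 * (16 * Q z * (Y * Q 1)) := by
          refine mul_le_mul_of_nonneg_left ?_ (by positivity)
          refine (hpt z).trans (le_of_eq ?_)
          rw [hY]
      _ = _ := by ring
  have hpt2 : ∀ z ∈ {z : G | 0.95 * r < nN z},
      (g' z / f' 1 - g' 1 * f' z / f' 1 ^ 2) ^ 2 / (f' z / f' 1) ≤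
      Real.exp (-(r ^ 2 / 400 * k')) * a' ^ 2 := by
    intro z hz
    have hz1 : 0.95 * r < nN z := hz
    have hz4 : r / 4 ≤ nN z := by linarith
    set q := Q z / Q 1 with hq
    have hQ1 := Q0 1
    have hQz := Q0 z
    have q0 : 0 < q := div_pos hQz hQ1
    have q3 := hfar3 z hz4
    have q1 : q ≤ 1 := by
      have h5 : q ^ 3 ≤ 1 := q3.trans (Real.exp_le_one_iff.2 (by
        have : 0 ≤ 0.0225 * r ^ 2 * k' := by positivity
        linarith))
      by_contra hcon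
      push Not at hcon
      exact absurd h5 (not_le.2 (one_lt_pow₀ hcon (by norm_num)))
    have e1 : f' z / f' 1 = q ^ 4 := by rw [hf' z, hf' 1, hq, div_pow]
    -- first term
    have t1 : (g' z / f' 1) ^ 2 / q ^ 4 ≤ 256 * Y * q ^ 3 := by
      have h1 : (g' z / f' 1) ^ 2 ≤ 256 * Y * q ^ 7 := by
        rw [div_pow, hf' 1, div_le_iff₀ (by positivity)]
        refine (hg2 z).trans (le_of_eq ?_)
        rw [hq]
        field_simp
      rw [div_le_iff₀ (by positivity)]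
      calc (g' z / f' 1) ^ 2 ≤ 256 * Y * q ^ 7 := h1
        _ = _ := by ring
    have t2 : (g' 1 / f' 1) ^ 2 ≤ 256 * Y := by
      have h1 := hg2 1
      rw [div_pow, hf' 1, div_le_iff₀ (by positivity)]
      refine h1.trans (le_of_eq ?_)
      ring
    have e2 : (g' z / f' 1 - g' 1 * f' z / f' 1 ^ 2) ^ 2 / (f' z / f' 1) ≤
        2 * ((g' z / f' 1) ^ 2 / q ^ 4) + 2 * ((g' 1 / f' 1) ^ 2 * q ^ 4) := by
      have h1 : g' 1 * f' z / f' 1 ^ 2 = g' 1 / f' 1 * q ^ 4 := by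
        rw [← e1]
        field_simp
      rw [h1, e1]
      have h2 : (g' z / f' 1 - g' 1 / f' 1 * q ^ 4) ^ 2 ≤
          2 * (g' z / f' 1) ^ 2 + 2 * (g' 1 / f' 1 * q ^ 4) ^ 2 := by
        nlinarith [sq_nonneg (g' z / f' 1 + g' 1 / f' 1 * q ^ 4)]
      rw [div_le_iff₀ (by positivity)]
      refine h2.trans (le_of_eq ?_)
      have hq4 : q ^ 4 ≠ 0 := by positivity
      field_simp
    have q43 : q ^ 4 ≤ q ^ 3 := pow_le_pow_of_le_one q0.le q1 (by norm_num)
    have e3 : 2 * ((g' z / f' 1) ^ 2 / q ^ 4) + 2 * ((g' 1 / f' 1) ^ 2 * q ^ 4) ≤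
        1024 * Y * q ^ 3 := by
      have h1 : (g' 1 / f' 1) ^ 2 * q ^ 4 ≤ 256 * Y * q ^ 3 :=
        mul_le_mul t2 q43 (by positivity) (by positivity)
      linarith
    have haa2 : a ^ 2 ≤ 4 * a' ^ 2 := by
      calc a ^ 2 = |a| ^ 2 := (sq_abs a).symm
        _ ≤ (2 * |a'|) ^ 2 := pow_le_pow_left₀ (abs_nonneg a) haa 2
        _ = 4 * a' ^ 2 := by rw [mul_pow, sq_abs]; norm_num
    have hx := hexp k hkb
    rw [pow_zero, mul_one, Real.exp_sub, Real.exp_log (by positivity)] at hx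
    have hx2 : 4096 * A ≤ Real.exp (0.001 * r ^ 2 * k) := by
      rwa [div_le_one (Real.exp_pos _)] at hx
    calc (g' z / f' 1 - g' 1 * f' z / f' 1 ^ 2) ^ 2 / (f' z / f' 1)
        ≤ 1024 * Y * q ^ 3 := e2.trans e3
      _ ≤ 1024 * (Real.exp (0.005 * r ^ 2 * k) * (A * (4 * a' ^ 2))) *
          Real.exp (-(0.0225 * r ^ 2 * k')) := by
          rw [hY]
          gcongr
      _ = (4096 * A) * (Real.exp (0.005 * r ^ 2 * k) * Real.exp (-(0.0225 * r ^ 2 * k'))) *
          a' ^ 2 := by ring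
      _ ≤ Real.exp (0.001 * r ^ 2 * k) *
          (Real.exp (0.005 * r ^ 2 * k) * Real.exp (-(0.0225 * r ^ 2 * k'))) * a' ^ 2 := by
          gcongr
      _ = Real.exp (0.001 * r ^ 2 * k + (0.005 * r ^ 2 * k + -(0.0225 * r ^ 2 * k'))) *
          a' ^ 2 := by rw [Real.exp_add, Real.exp_add]
      _ ≤ _ := by
          refine mul_le_mul_of_nonneg_right (Real.exp_le_exp.2 ?_) (sq_nonneg _)
          have h5 : 0 < r ^ 2 := by positivity
          nlinarith
  have hcont : Continuous fun z =>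
      (g' z / f' 1 - g' 1 * f' z / f' 1 ^ 2) ^ 2 / (f' z / f' 1) := by
    refine Continuous.div (Continuous.pow ?_ 2) (cf'.div_const _) fun z =>
      (div_pos (f'pos z) (f'pos 1)).ne'
    exact (cg'.div_const _).sub ((continuous_const.mul cf').div_const _)
  have hms : MeasurableSet {z : G | 0.95 * r < nN z} :=
    measurableSet_lt measurable_const nN_cont.measurable
  have hR0 : 0 ≤ Real.exp (-(r ^ 2 / 400 * k')) * a' ^ 2 := by positivity
  calc _ ≤ ∫ _z in {z : G | 0.95 * r < nN z}, Real.exp (-(r ^ 2 / 400 * k')) * a' ^ 2 ∂μ :=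
        setIntegral_mono_on (integrable_of_cont hcont).integrableOn
          (integrable_const _).integrableOn hms hpt2
    _ = μ.real {z : G | 0.95 * r < nN z} * (Real.exp (-(r ^ 2 / 400 * k')) * a' ^ 2) := by
        rw [setIntegral_const, smul_eq_mul]
    _ ≤ 1 * (Real.exp (-(r ^ 2 / 400 * k')) * a' ^ 2) :=
        mul_le_mul_of_nonneg_right measureReal_le_one hR0
    _ = _ := one_mul _

/-- the far part of a bare insertion -/
theorem far_init {r K κ : ℝ} (hr : GoodR B r) (hK : 0 ≤ K) (hκ : 0 < κ) : ∃ k0 : ℝ, 1 ≤ k0 ∧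
    ∀ {k : ℝ} {f h : G → ℝ} {F : (Mat N)ˣ → ℂ}, k0 ≤ k → CF f F →
      (∀ x, 0 < f x) → Tube B r k F → Continuous h → (∀ x, |h x| ≤ K * f x) →
      ∫ z in {z : G | 0.95 * r < nN z}, h z ^ 2 / f z ∂μ ≤
        Real.exp (-(r ^ 2 / 400 * k)) * κ ^ 2 * f 1 := by
  have hp := hr.pos
  obtain ⟨k2, hk2, hexp⟩ := exp_beats (0.0275 * r ^ 2) (κ ^ 2 / (K ^ 2 + 1)) (by positivity)
    (by positivity) 0 0
  refine ⟨k2, hk2, fun {k f h F} hk hF hpos ht hh hhK => ?_⟩
  have hk0 : 0 < k := by linarith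
  have hf := hF.cont
  have hne : ∀ z, f z ≠ 0 := fun z => (hpos z).ne'
  have h3 : f 1 = ‖F 1‖ := by rw [hF.one, abs_of_pos (hpos 1)]
  have hf1 := hpos 1
  have hx := hexp k hk
  rw [pow_zero, mul_one, zero_sub, le_div_iff₀ (by positivity)] at hx
  have hpt : ∀ z ∈ {z : G | 0.95 * r < nN z}, h z ^ 2 / f z ≤
      Real.exp (-(r ^ 2 / 400 * k)) * κ ^ 2 * f 1 := by
    intro z hz
    have hz1 : 0.95 * r < nN z := hz
    have h6 := far_up hr hk0.le hF ht (z := z) (by linarith)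
    rw [abs_of_pos (hpos z), ← h3] at h6
    have hz0 := hpos z
    have h7 : h z ^ 2 ≤ K ^ 2 * f z ^ 2 := by
      calc h z ^ 2 = |h z| ^ 2 := (sq_abs _).symm
        _ ≤ (K * f z) ^ 2 := pow_le_pow_left₀ (abs_nonneg _) (hhK z) 2
        _ = _ := by ring
    calc h z ^ 2 / f z ≤ K ^ 2 * f z ^ 2 / f z := by gcongr
      _ = K ^ 2 * f z := by field_simp
      _ ≤ (K ^ 2 + 1) * (f 1 * Real.exp (-(0.03 * r ^ 2 * k))) := by
          refine mul_le_mul (by linarith) h6 hz0.le (by positivity)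
      _ = Real.exp (-(0.0275 * r ^ 2 * k)) * (K ^ 2 + 1) *
          (Real.exp (-(r ^ 2 / 400 * k)) * f 1) := by
          have : Real.exp (-(0.03 * r ^ 2 * k)) =
              Real.exp (-(0.0275 * r ^ 2 * k)) * Real.exp (-(r ^ 2 / 400 * k)) := by
            rw [← Real.exp_add]
            congr 1
            ring
          rw [this]
          ring
      _ ≤ κ ^ 2 * (Real.exp (-(r ^ 2 / 400 * k)) * f 1) := by gcongr
      _ = _ := by ring
  have hcont : Continuous fun z => h z ^ 2 / f z := (hh.pow 2).div hf hne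
  have hms : MeasurableSet {z : G | 0.95 * r < nN z} :=
    measurableSet_lt measurable_const nN_cont.measurable
  have hR0 : 0 ≤ Real.exp (-(r ^ 2 / 400 * k)) * κ ^ 2 * f 1 := by positivity
  calc _ ≤ ∫ _z in {z : G | 0.95 * r < nN z}, Real.exp (-(r ^ 2 / 400 * k)) * κ ^ 2 * f 1 ∂μ :=
        setIntegral_mono_on (integrable_of_cont hcont).integrableOn
          (integrable_const _).integrableOn hms hpt
    _ = μ.real {z : G | 0.95 * r < nN z} * (Real.exp (-(r ^ 2 / 400 * k)) * κ ^ 2 * f 1) := by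
        rw [setIntegral_const, smul_eq_mul]
    _ ≤ 1 * (Real.exp (-(r ^ 2 / 400 * k)) * κ ^ 2 * f 1) :=
        mul_le_mul_of_nonneg_right measureReal_le_one hR0
    _ = _ := one_mul _

end

end Pool.Agent.N453.MK
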