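import Mathlib
import Pool.Agent.N453.MK.Var
import Pool.Agent.N453.MK.VarFar
import Pool.Agent.N681.MK.TanDefs
import Pool.Agent.N988.MK.Tan5

/-!
# The far part of the tangent fields along the trajectories
-/

open MeasureTheory Matrix Filter
open scoped Matrix.Norms.Frobenius ContDiff Topology
open Pool.Agent.H906R3.YM Pool.Agent.W793.YM Pool.Agent.TH618.YM Pool.Agent.N984.TW
open Pool.Agent.N991.MK
open Pool.Agent.N988.MK (nf ng ng_lin nf_lin eq_nf eq_ng)
open Pool.Agent.N989.MK (TT H4)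
open Pool.Agent.N681.MK (fld)

namespace Pool.Agent.N453.MK

set_option linter.unusedSectionVars false

noncomputable section

variable {N : ℕ} {G : Subgroup (UN N)}
variable [CompactSpace G] [MeasurableSpace G] [BorelSpace G] [SecondCountableTopology G]
  {μ : Measure G} [IsProbabilityMeasure μ] [μ.IsHaarMeasure] [μ.IsMulRightInvariant]
  [μ.IsInvInvariant]

/-- the variance in terms of the normalised density and tangent vector -/
lemma vr_norm {f g E : G → ℝ} (hpos : ∀ x, 0 < f x) :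
    vr μ f (fun x => fld f g x * f x) E = vr μ (nf f) (ng f g) E := by
  have h1 := (hpos 1).ne'
  have e1 : ∀ x, fld f g x * f x = f 1 * ng f g x := by
    intro x
    have := (hpos x).ne'
    unfold fld ng
    field_simp
  have e2 : ∀ x, f x = f 1 * nf f x := fun x => eq_nf h1 x
  have e3 : ∀ x, (fld f g x * f x) ^ 2 / f x * E x =
      f 1 * (ng f g x ^ 2 / nf f x * E x) := by
    intro x
    have h2 := (hpos x).ne'
    have h3 : nf f x ≠ 0 := by
      unfold nf
      exact mul_ne_zero (inv_ne_zero h1) h2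
    rw [e1, e2 x]
    field_simp
  have e4 : ∀ x, f x * E x = f 1 * (nf f x * E x) := fun x => by
    nth_rewrite 1 [e2 x]
    ring
  have e5 : ∀ x, fld f g x * f x * E x = f 1 * (ng f g x * E x) := fun x => by
    rw [e1]; ring
  unfold vr
  simp only [e3, e4, e5]
  rw [integral_const_mul, integral_const_mul, integral_const_mul, mul_div_mul_left _ _ h1,
    mul_div_mul_left _ _ h1]

lemma dS_eq (f h : G → ℝ) (x : G) :
    dS μ f h x = Pool.Agent.N988.MK.dcv μ (conv μ f f) (Pool.Agent.N988.MK.dcv μ f h) x := by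
  unfold dS Pool.Agent.N988.MK.dcv
  rw [add_comm]

/-- one step in terms of the normalised density and tangent vector -/
lemma step_norm {f g : G → ℝ} (hf : Continuous f) (hg : Continuous g) (hpos : ∀ x, 0 < f x)
    {f' g' : G → ℝ}
    (hf' : ∀ x, f' x = conv μ (conv μ (nf f) (nf f)) (conv μ (nf f) (nf f)) x ^ 4)
    (hg' : ∀ x, g' x = 4 * conv μ (conv μ (nf f) (nf f)) (conv μ (nf f) (nf f)) x ^ 3 *
      dS μ (nf f) (ng f g) x) (h1' : f' 1 ≠ 0) :
    (∀ x, nf (TT μ f) x = nf f' x) ∧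
      ∀ x, ng (TT μ f) (Pool.Agent.N681.MK.dTT μ f g) x = ng f' g' x := by
  have h1 := (hpos 1).ne'
  have cn : Continuous (nf f) := by unfold nf; exact continuous_const.mul hf
  have cg : Continuous (ng f g) := by
    unfold ng
    exact continuous_const.mul (hg.sub (continuous_const.mul hf))
  have a1 : ∀ x, f x = f 1 * nf f x := fun x => eq_nf h1 x
  have a2 : ∀ x, g x = f 1 * ng f g x + g 1 * nf f x := fun x => eq_ng h1 x
  have b1 : ∀ x, conv μ f f x = f 1 ^ 2 * conv μ (nf f) (nf f) x :=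
    fun x => Pool.Agent.N988.MK.conv_sq_lin a1 x
  have b2 : ∀ x, Pool.Agent.N988.MK.dcv μ f g x =
      f 1 ^ 2 * Pool.Agent.N988.MK.dcv μ (nf f) (ng f g) x +
        2 * f 1 * g 1 * conv μ (nf f) (nf f) x := by
    intro x
    rw [Pool.Agent.N988.MK.dcv_lin cn cg a1 a2]
    ring
  have c2 : Continuous (conv μ (nf f) (nf f)) := cont_conv cn cn
  have cd : Continuous (Pool.Agent.N988.MK.dcv μ (nf f) (ng f g)) :=
    (cont_conv cn cg).add (cont_conv cg cn)
  have b3 : ∀ x, H4 μ f x =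
      f 1 ^ 4 * conv μ (conv μ (nf f) (nf f)) (conv μ (nf f) (nf f)) x := by
    intro x
    unfold H4
    rw [Pool.Agent.N988.MK.conv_sq_lin b1]
    ring
  have b4 : ∀ x, Pool.Agent.N988.MK.dcv μ (conv μ f f) (Pool.Agent.N988.MK.dcv μ f g) x =
      f 1 ^ 4 * dS μ (nf f) (ng f g) x + 4 * f 1 ^ 3 * g 1 *
        conv μ (conv μ (nf f) (nf f)) (conv μ (nf f) (nf f)) x := by
    intro x
    rw [Pool.Agent.N988.MK.dcv_lin c2 cd b1 b2, dS_eq]
    ring
  have k1 : ∀ x, TT μ f x = f 1 ^ 16 * f' x := by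
    intro x
    unfold TT
    rw [b3, hf']
    ring
  have k2 : ∀ x, Pool.Agent.N681.MK.dTT μ f g x = f 1 ^ 16 * g' x + 16 * f 1 ^ 15 * g 1 * f' x := by
    intro x
    have e : Pool.Agent.N681.MK.dTT μ f g x = 4 * H4 μ f x ^ 3 *
      Pool.Agent.N988.MK.dcv μ (conv μ f f) (Pool.Agent.N988.MK.dcv μ f g) x := rfl
    rw [e, b3, b4, hf', hg']
    ring
  have h16 : f 1 ^ 16 ≠ 0 := pow_ne_zero _ h1
  refine ⟨fun x => nf_lin h16 k1 x, fun x => ?_⟩
  rw [ng_lin h1' h16 k1 k2, div_self h16, one_mul]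

end

end Pool.Agent.N453.MK
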