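import Mathlib
import Pool.Agent.N453.MK.Traj1
import Pool.Agent.N681.MK.Tan3
import Pool.Agent.N988.MK.Tan8

/-!
# The tangent fields along the trajectories: normalised data, far part
-/

open MeasureTheory Matrix Filter
open scoped Matrix.Norms.Frobenius ContDiff Topology
open Pool.Agent.H906R3.YM Pool.Agent.W793.YM Pool.Agent.TH618.YM Pool.Agent.N984.TW
open Pool.Agent.N991.MK
open Pool.Agent.N988.MK (qC nf ng nf_one ng_one ng_lin nf_lin eq_nf eq_ng NS St PT TSt PT_ns cf_smul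
  tube_smul)
open Pool.Agent.N989.MK (TT TTn H4 Adm TR TP)
open Pool.Agent.N681.MK (dTn TanFlow)

namespace Pool.Agent.N453.MK

set_option linter.unusedSectionVars false

noncomputable section

variable {N n : ℕ} {G : Subgroup (UN N)} {B : Frame G n}
variable [CompactSpace G] [MeasurableSpace G] [BorelSpace G] [SecondCountableTopology G]
  {μ : Measure G} [IsProbabilityMeasure μ] [μ.IsHaarMeasure] [μ.IsMulRightInvariant]
  [μ.IsInvInvariant]

/-- the data of a tangent field at one scale of a trajectory -/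
structure TD (B : Frame G n) (μ : Measure G) (r ε : ℝ) (f g : G → ℝ) (h ρ a l : ℝ) : Prop where
  l0 : 0 ≤ l
  ex : ∃ (F H : (Mat N)ˣ → ℂ) (η m : (Fin n → ℂ) → ℂ), NS B r ε h (ρ * h) (nf f) F m ∧
    CF (ng f g) H ∧ Tg B r h a l l F H η
  far : ∫ z in {z : G | 0.95 * r < nN z}, ng f g z ^ 2 / nf f z ∂μ ≤
    Real.exp (-(r ^ 2 / 400 * h)) * a ^ 2 * nf f 1

lemma TSt.data (hG : IsClosed (G : Set (UN N))) {r ε h1 C1 h ρ a l : ℝ} {f g : G → ℝ}
    (hP : PT B μ r ε h1 C1 f h ρ) (hT : TSt B r f g h a l) :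
    0 ≤ l ∧ ∃ (F H : (Mat N)ˣ → ℂ) (η m : (Fin n → ℂ) → ℂ), NS B r ε h (ρ * h) (nf f) F m ∧
      CF (ng f g) H ∧ Tg B r h a l l F H η := by
  obtain ⟨_, _, F, m, hN, -⟩ := PT_ns hG hP
  obtain ⟨H, η, x1, x2⟩ := hT.of hG hN.cf
  exact ⟨hT.nn, F, H, η, m, hN, x1, x2⟩

lemma nearT_of_Tg {r ε h ρ a l : ℝ} (hr : GoodR B r) {f g : G → ℝ} {F H : (Mat N)ˣ → ℂ}
    {η m : (Fin n → ℂ) → ℂ} (hN : NS B r ε h (ρ * h) (nf f) F m) (hg : CF (ng f g) H)
    (T : Tg B r h a l l F H η) : NearT r a l (nf f) (ng f g) :=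
  nearT_of hr T.lam0 hN.cf.res hg.res T.near T.bd

/-- the initial far part -/
theorem far_start {r ε h1 C1 κ : ℝ} (hG : IsClosed (G : Set (UN N))) (hr : GoodR B r)
    (hκ : 0 < κ) {o : G → ℝ} (ho : Continuous o) : ∃ k0 : ℝ, 1 ≤ k0 ∧
    ∀ {f : G → ℝ} {h ρ a l : ℝ}, k0 ≤ h → (∀ x, 0 < f x) → PT B μ r ε h1 C1 f h ρ →
      TSt B r f (fun x => o x * f x) h a l → κ / 2 ≤ a →
      TD B μ r ε f (fun x => o x * f x) h ρ a l := by
  obtain ⟨K, hK⟩ : ∃ K : ℝ, ∀ x, |o x| ≤ K := by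
    obtain ⟨K, hK⟩ := isCompact_univ.exists_bound_of_continuousOn ho.continuousOn
    exact ⟨K, fun x => hK x (Set.mem_univ _)⟩
  have hK0 : 0 ≤ K := (abs_nonneg _).trans (hK 1)
  obtain ⟨k0, hk0, hfar⟩ := far_init (B := B) μ (K := 2 * K) (κ := κ / 2) hr (by positivity)
    (by positivity)
  refine ⟨k0, hk0, fun {f h ρ a l} hh hpos hP hT ha => ?_⟩
  obtain ⟨x1, F, H, η, m, hN, x2, x3⟩ := TSt.data hG hP hT
  refine ⟨x1, ⟨F, H, η, m, hN, x2, x3⟩, ?_⟩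
  have e : ∀ x, ng f (fun x => o x * f x) x = (o x - o 1) * nf f x := by
    intro x
    have := (hpos 1).ne'
    unfold ng nf
    field_simp
  have h2 := hfar hh hN.cf hN.pos hN.tb x2.cont (fun x => by
    rw [e, abs_mul, abs_of_pos (hN.pos x)]
    refine mul_le_mul_of_nonneg_right ?_ (hN.pos x).le
    refine (abs_sub _ _).trans ?_
    have := hK x
    have := hK 1
    linarith)
  refine h2.trans ?_
  have h3 : (κ / 2) ^ 2 ≤ a ^ 2 := pow_le_pow_left₀ (by positivity) ha 2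
  have h4 := (hN.pos 1).le
  gcongr

/-- the step of the far part -/
theorem far_next {r ε h1 C1 : ℝ} (hG : IsClosed (G : Set (UN N))) (hr : GoodR B r)
    (hε : ε ≤ 1 / 1000) : ∃ k0 : ℝ, 1 ≤ k0 ∧
    ∀ {f g : G → ℝ} {h ρ a l h' ρ' a' l' : ℝ}, k0 ≤ h → Adm f → Continuous g →
      PT B μ r ε h1 C1 (TT μ f) h' ρ' → TD B μ r ε f g h ρ a l →
      TSt B r (TT μ f) (Pool.Agent.N681.MK.dTT μ f g) h' a' l' →
      l ≤ h * |a| → |a| ≤ 2 * |a'| → h / 2 ≤ h' → h' ≤ 2 * h →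
      TD B μ r ε (TT μ f) (Pool.Agent.N681.MK.dTT μ f g) h' ρ' a' l' := by
  obtain ⟨A, k1, hA, hk1, hsm⟩ := second_moment (B := B) μ hr (c := r ^ 2 / 400)
    (by have := hr.pos; positivity)
  obtain ⟨k2, hk2, hfs⟩ := far_step (B := B) μ hr hA
  refine ⟨max k1 k2, hk1.trans (le_max_left _ _),
    fun {f g h ρ a l h' ρ' a' l'} hk hf hg hP' hD hT' hl haa hh1 hh2 => ?_⟩
  have hka : k1 ≤ h := (le_max_left _ _).trans hk
  have hkb : k2 ≤ h := (le_max_right _ _).trans hk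
  have hh1' : 1 ≤ h := hk1.trans hka
  have hh0 : 0 < h := by linarith
  obtain ⟨F, H, η, m, hN, x2, x3⟩ := hD.ex
  obtain ⟨y1, F', H', η', m', hN', y2, y3⟩ := TSt.data hG hP' hT'
  refine ⟨y1, ⟨F', H', η', m', hN', y2, y3⟩, ?_⟩
  have hNs := Pool.Agent.N991.MK.St.toNear hN.st
  have hMr : ρ * h * r ^ 2 ≤ h / 1000 := by
    have h1 := hN.Ml
    have h2 : ε * h ≤ 1 / 1000 * h := mul_le_mul_of_nonneg_right hε hh0.le
    linarith
  have h1 := hsm hka hMr hN.cf hN.pos hNs hN.tb x2.cont hD.l0 hl (nearT_of_Tg hr hN x2 x3) hD.far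
  have hI0 : 0 ≤ ∫ z, nf f z ∂μ := integral_nonneg fun z => (hN.pos z).le
  have h2 : ∫ z, ng f g z ^ 2 / nf f z ∂μ ≤ A * a ^ 2 * ∫ z, nf f z ∂μ := by
    refine h1.trans (mul_le_mul_of_nonneg_right ?_ hI0)
    refine mul_le_mul_of_nonneg_left (div_le_self (sq_nonneg a) ?_) hA.le
    exact one_le_pow₀ hh1'
  -- the next density
  obtain ⟨f', hf'⟩ : ∃ f' : G → ℝ, f' = fun x =>
    conv μ (conv μ (nf f) (nf f)) (conv μ (nf f) (nf f)) x ^ 4 := ⟨_, rfl⟩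
  obtain ⟨g', hg'⟩ : ∃ g' : G → ℝ, g' = fun x =>
    4 * conv μ (conv μ (nf f) (nf f)) (conv μ (nf f) (nf f)) x ^ 3 * dS μ (nf f) (ng f g) x :=
    ⟨_, rfl⟩
  have cF := hN.cf.cont
  have p2 : ∀ x, 0 < conv μ (nf f) (nf f) x := conv_pos cF cF hN.pos hN.pos
  have c2 : Continuous (conv μ (nf f) (nf f)) := cont_conv cF cF
  have hp' : ∀ x, 0 < f' x := fun x => by rw [hf']; exact pow_pos (conv_pos c2 c2 p2 p2 x) 4
  obtain ⟨s1, s2⟩ := step_norm (μ := μ) hf.cont hg hf.pos (f' := f') (g' := g')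
    (fun x => congrFun hf' x) (fun x => congrFun hg' x) (hp' 1).ne'
  have hCF : CF f' (fun u => ((f' 1 : ℝ) : ℂ) * F' u) := by
    have h3 := cf_smul hN'.cf (f' 1)
    have e : (fun x => f' 1 * nf (TT μ f) x) = f' := by
      funext x
      rw [s1]
      exact (eq_nf (hp' 1).ne' x).symm
    rwa [e] at h3
  have hTu : Tube B r h' (fun u => ((f' 1 : ℝ) : ℂ) * F' u) := tube_smul hN'.tb _
  have h3 := hfs (f' := f') (g' := g') hkb hMr hN.cf hN.pos hNs hN.tb x2.cont h2 haa hh1 hh2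
    (fun x => congrFun hf' x) (fun x => congrFun hg' x) hCF hTu
  have e1 : nf (TT μ f) 1 = 1 := by rw [s1]; exact nf_one _ (hp' 1).ne'
  have e2 : ∀ z, ng (TT μ f) (Pool.Agent.N681.MK.dTT μ f g) z ^ 2 / nf (TT μ f) z =
      (g' z / f' 1 - g' 1 * f' z / f' 1 ^ 2) ^ 2 / (f' z / f' 1) := by
    intro z
    rw [s1, s2]
    have q1 := (hp' 1).ne'
    have q2 := (hp' z).ne'
    unfold nf ng
    field_simp
  simp only [e2, e1, mul_one]
  exact h3

/-- **the tangent fields along the trajectories** -/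
theorem far_traj {r ε h0 C1 κ h1 C' c C R : ℝ} {Dm : ℕ} (hG : IsClosed (G : Set (UN N)))
    (hr : GoodR B r) (hε : ε ≤ 1 / 1000) (hκ : 0 < κ) {o : G → ℝ} (ho : Continuous o)
    (TF : TanFlow μ (PT B μ r ε h0 C1) (TSt B r) o κ h1 C' Dm) (hc : 0 < c) (hC : 0 ≤ C)
    (hR : 0 ≤ R) : ∃ H0 Bn : ℝ, 1 ≤ H0 ∧ 0 ≤ Bn ∧ C ≤ H0 ∧ ∀ (hq : ℝ) (f : G → ℝ) (J : ℕ)
      (h ρ : ℕ → ℝ), H0 ≤ hq → Adm f → TP μ (PT B μ r ε h0 C1) c C hq R f J h ρ →
      (∀ i < J, h i / 2 ≤ h (i + 1) ∧ h (i + 1) ≤ 2 * h i) ∧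
      ∀ i ≤ J, ∃ a l : ℝ,
        TD B μ r ε (TTn μ f i) (dTn μ f (fun x => o x * f x) i) (h i) (ρ i) a l ∧
        |a - κ| ≤ Bn / h i ∧ κ / 2 ≤ a ∧ a ≤ 2 * κ ∧ l ≤ Bn := by
  obtain ⟨Ht, Bt, t1, t2, t3, t4, t5, t6⟩ :=
    Pool.Agent.N681.MK.tan_flow (R := R) TF hc hC hR
  have hC' := TF.C_nn
  obtain ⟨k1, hk1, hst⟩ := far_start (B := B) (μ := μ) (ε := ε) (h1 := h0) (C1 := C1) hG hr hκ ho
  obtain ⟨k2, hk2, hnx⟩ := far_next (B := B) (μ := μ) (h1 := h0) (C1 := C1) hG hr hε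
  obtain ⟨Nn, hN⟩ : ∃ Nn, Nn = Bt * (|κ| + C') := ⟨_, rfl⟩
  have hN0 : 0 ≤ Nn := by rw [hN]; positivity
  refine ⟨max (max (max Ht (4 * Nn / κ)) (max (2 * (c + C * (R + 3))) (2 * (C' + Nn) / κ)))
    (max k1 k2), Nn + C', t1.trans ((le_max_left _ _).trans ((le_max_left _ _).trans
    (le_max_left _ _))), by positivity, t4.trans ((le_max_left _ _).trans ((le_max_left _ _).trans
    (le_max_left _ _))), fun hq f J h ρ hH hf tp => ?_⟩
  simp only [max_le_iff] at hH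
  obtain ⟨⟨⟨e1, e2⟩, e3, e4⟩, e5, e6⟩ := hH
  have hq1 : 1 ≤ hq := t1.trans e1
  have hlo : ∀ i ≤ J, hq ≤ h i := tp.lo
  have hpos : ∀ i ≤ J, 0 < h i := fun i hi => by linarith [hlo i hi]
  have hCR : 0 ≤ C * (R + 3) := by positivity
  -- the ratio of the couplings
  have hrat : ∀ i < J, h i / 2 ≤ h (i + 1) ∧ h (i + 1) ≤ 2 * h i := by
    intro i hi
    have h1 := tp.t.st i hi
    have h2 := tp.t.bd (by linarith : 0 < hq) hC (t4.trans e1) tp.r0 tp.r i hi.le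
    have h3 := hlo i hi.le
    have h4 : 1 / h i ≤ 1 := (div_le_one (hpos i hi.le)).2 (by linarith)
    have h5 : C * (ρ i + 1 / h i) ≤ C * (R + 3) := mul_le_mul_of_nonneg_left (by linarith) hC
    obtain ⟨h6, h7⟩ := abs_le.1 h1
    constructor <;> linarith
  have i0 : TSt B r f (fun x => o x * f x) (h 0) κ C' :=
    TF.init _ _ _ (tp.p 0 (by omega)) ((t5.trans e1).trans (tp.lo 0 (by omega)))
  have hT := t6 hq f (fun x => o x * f x) J h ρ κ C' e1 tp i0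
  choose! a l q1 q2 q3 q4 using hT
  have ha1 : ∀ i ≤ J, |a i - κ| ≤ Nn / h i := fun i hi => by rw [hN]; exact q2 i hi
  have ha2 : ∀ i ≤ J, |a i - κ| ≤ κ / 4 := by
    intro i hi
    refine (ha1 i hi).trans ?_
    rw [div_le_iff₀ (hpos i hi)]
    have h1 : 4 * Nn / κ ≤ h i := e2.trans (hlo i hi)
    rw [div_le_iff₀ hκ] at h1
    linarith
  have hl : ∀ i ≤ J, l i ≤ Nn + C' := by
    intro i hi
    refine (q3 i hi).trans ?_
    have h1 : (1 / 4 : ℝ) ^ i * C' ≤ 1 * C' :=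
      mul_le_mul_of_nonneg_right (pow_le_one₀ (by norm_num) (by norm_num)) hC'
    have h2 : Bt * (|κ| + C') / h i ≤ Nn := by
      rw [← hN]
      exact div_le_self hN0 (by linarith [hlo i hi])
    linarith
  refine ⟨hrat, ?_⟩
  have key : ∀ i ≤ J, TD B μ r ε (TTn μ f i) (dTn μ f (fun x => o x * f x) i) (h i) (ρ i)
      (a i) (l i) := by
    intro i
    induction i with
    | zero =>
      intro hi
      have h1 := abs_le.1 (ha2 0 hi)
      exact hst (e5.trans (hlo 0 hi)) hf.pos (tp.p 0 hi) (q1 0 hi) (by linarith [h1.1])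
    | succ i ih =>
      intro hi
      have hi' : i ≤ J := by omega
      have h1 := abs_le.1 (ha2 i hi')
      have h2 := abs_le.1 (ha2 (i + 1) hi)
      have h3 : |a i| = a i := abs_of_pos (by linarith [h1.1])
      have h4 : |a (i + 1)| = a (i + 1) := abs_of_pos (by linarith [h2.1])
      refine hnx (e6.trans (hlo i hi')) (hf.TTn (μ := μ) i)
        (Pool.Agent.N681.MK.cont_dTn hf.cont (ho.mul hf.cont) i) (tp.p (i + 1) hi) (ih hi')
        (q1 (i + 1) hi) ?_ ?_ (hrat i (by omega)).1 (hrat i (by omega)).2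
      · rw [h3]
        refine (hl i hi').trans ?_
        have h5 : 2 * (C' + Nn) / κ ≤ h i := e4.trans (hlo i hi')
        rw [div_le_iff₀ hκ] at h5
        have h6 : h i * (κ / 2) ≤ h i * a i :=
          mul_le_mul_of_nonneg_left (by linarith [h1.1]) (hpos i hi').le
        linarith
      · rw [h3, h4]
        linarith [h1.2, h2.1]
  intro i hi
  have h1 := abs_le.1 (ha2 i hi)
  refine ⟨a i, l i, key i hi, (ha1 i hi).trans ?_, by linarith [h1.1], by linarith [h1.2],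
    hl i hi⟩
  exact div_le_div_of_nonneg_right (by linarith) (hpos i hi).le

end

end Pool.Agent.N453.MK
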