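import Mathlib
import Pool.Agent.N453.MK.Exact
import Pool.Agent.N453.MK.Traj2
import Pool.Agent.N565.MK.Env2
import Pool.Agent.N681.MK.Tan4

/-!
# The variance of the tangent fields along the trajectories
-/

open MeasureTheory Matrix Filter
open scoped Matrix.Norms.Frobenius ContDiff Topology
open Pool.Agent.H906R3.YM Pool.Agent.W793.YM Pool.Agent.TH618.YM Pool.Agent.N984.TW
open Pool.Agent.N991.MK
open Pool.Agent.N988.MK (qC nf ng nf_one ng_one ng_lin nf_lin eq_nf eq_ng NS St PT TSt PT_ns cf_smul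
  tube_smul IsoG)
open Pool.Agent.N989.MK (TT TTn H4 Adm TR TP)
open Pool.Agent.N681.MK (dTn fld TanFlow evo)
open Pool.Agent.N565.MK (env envS env_adm env_le env_soft env_lower)

namespace Pool.Agent.N453.MK

set_option linter.unusedSectionVars false

noncomputable section

variable {N n : ℕ} {G : Subgroup (UN N)} {B : Frame G n}
variable [CompactSpace G] [MeasurableSpace G] [BorelSpace G] [SecondCountableTopology G]
  {μ : Measure G} [IsProbabilityMeasure μ] [μ.IsHaarMeasure] [μ.IsMulRightInvariant]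
  [μ.IsInvInvariant]

/-- **the environment along the trajectories** -/
theorem env_traj (μ : Measure G) [IsProbabilityMeasure μ] [μ.IsHaarMeasure]
    [μ.IsMulRightInvariant] [μ.IsInvInvariant] {cA : ℝ} (hG : IsClosed (G : Set (UN N)))
    (hI : IsoG B) (hn : 0 < n)
    (hcA : ∀ x : Fin n → ℝ, ∑ a, ‖LX B x * B.X a - B.X a * LX B x‖ ^ 2 = cA * nE x ^ 2) :
    ∃ r₁ ε₁ : ℝ, 0 < r₁ ∧ 0 < ε₁ ∧ ε₁ ≤ 1 / 1000 ∧ ∀ r : ℝ, 0 < r → r ≤ r₁ →
      ∃ H0 : ℝ, 1 ≤ H0 ∧ ∀ {ε h0 C1 c C R hq : ℝ} {f : G → ℝ} {J : ℕ} {h ρ : ℕ → ℝ},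
        ε ≤ ε₁ → H0 ≤ hq → Adm f → TP μ (PT B μ r ε h0 C1) c C hq R f J h ρ →
        (∀ i < J, h (i + 1) ≤ 2 * h i) → ∀ {c₁ : ℝ}, 0 < c₁ → c₁ ≤ 1 / 2 →
        (∀ x y, c₁ * TTn μ f J y ≤ TTn μ f J x) → ∀ i ≤ J, ∀ d x, nN x ≤ r / 8 →
        c₁ * env μ f i d 1 * Real.exp (-(h i / 2 * nN x ^ 2)) ≤ env μ f i d x := by
  obtain ⟨r₁, ε₁, hr₁, hε₁, hε2, hD⟩ := env_lower (B := B) μ hG hI hn hcA
  refine ⟨r₁, ε₁, hr₁, hε₁, hε2, fun r hr hrr => ?_⟩
  obtain ⟨η, k₀, hη, hk₀, hD⟩ := hD r hr hrr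
  refine ⟨max k₀ (Real.log 2 / η), hk₀.trans (le_max_left _ _),
    fun {ε h0 C1 c C R hq f J h ρ} hε hH hf tp hrat c₁ hc₁ hc₂ hs => ?_⟩
  have hHa : k₀ ≤ hq := (le_max_left _ _).trans hH
  have hHb : Real.log 2 / η ≤ hq := (le_max_right _ _).trans hH
  have key : ∀ m i, i + m = J → ∀ d x, nN x ≤ r / 8 →
      c₁ * env μ f i d 1 * Real.exp (-(h i / 2 * nN x ^ 2)) ≤ env μ f i d x := by
    intro m
    induction m with
    | zero =>
      intro i hi d x hx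
      obtain rfl : i = J := by omega
      have hlo := tp.lo i le_rfl
      have hi0 : 0 < h i := by linarith
      have he1 : Real.exp (-(h i / 2 * nN x ^ 2)) ≤ 1 :=
        Real.exp_le_one_iff.2 (neg_nonpos.2 (by positivity))
      have hA := env_adm (μ := μ) hf d i
      have h1 : c₁ * env μ f i d 1 ≤ env μ f i d x := by
        cases d with
        | zero =>
          show c₁ * 1 ≤ 1
          linarith
        | succ d =>
          have hT := hf.TTn (μ := μ) i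
          have hE := env_adm (μ := μ) hf d (i + 1)
          exact env_soft hT.cont hE.cont hT.cls hE.cls hT.sy hE.sy hT.pos
            (fun x => (hE.pos x).le) hs x
      refine le_trans ?_ h1
      exact mul_le_of_le_one_right (mul_nonneg hc₁.le (hA.pos 1).le) he1
    | succ m ih =>
      intro i hi d x hx
      have hlo := tp.lo i (by omega)
      have hi0 : 0 < h i := by linarith
      cases d with
      | zero =>
        have he1 : Real.exp (-(h i / 2 * nN x ^ 2)) ≤ 1 :=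
          Real.exp_le_one_iff.2 (neg_nonpos.2 (by positivity))
        show c₁ * 1 * Real.exp (-(h i / 2 * nN x ^ 2)) ≤ 1
        calc c₁ * 1 * Real.exp (-(h i / 2 * nN x ^ 2)) ≤ 1 * 1 * 1 := by
              gcongr
              linarith
          _ = 1 := by norm_num
      | succ d =>
        obtain ⟨⟨hρ, F, m', b1, b2, b3, b4, b5, b6, -⟩, -⟩ := tp.p i (by omega)
        have hE := env_adm (μ := μ) hf d (i + 1)
        have hle := env_le (μ := μ) hf d (i + 1) (by omega)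
        have h1 := hD (k := h i) (M := ρ i * h i) (f := TTn μ f i) (F := F) (m := m')
          (E' := env μ f (i + 1) d) (c₀ := c₁) (hHa.trans hlo) b5
          (b6.trans (mul_le_mul_of_nonneg_right hε hi0.le)) b1 b2 b3 b4 hE.cont hE.cls hE.sy
          (fun x => (hE.pos x).le) hle hc₁ (fun y hy => by
            have h2 := ih (i + 1) (by omega) d y hy
            refine le_trans ?_ h2
            refine mul_le_mul_of_nonneg_left (Real.exp_le_exp.2 ?_)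
              (mul_nonneg hc₁.le (hE.pos 1).le)
            have h3 := hrat i (by omega)
            have h4 : h (i + 1) / 2 * nN y ^ 2 ≤ h i * nN y ^ 2 :=
              mul_le_mul_of_nonneg_right (by linarith) (sq_nonneg _)
            linarith) x hx
        refine le_trans ?_ h1
        have hS := (env_adm (μ := μ) hf (d + 1) i).pos 1
        have h5 : Real.exp (-(η * h i)) ≤ 1 / 2 := by
          have h6 : Real.log 2 ≤ η * h i := by
            have h7 : Real.log 2 / η ≤ h i := hHb.trans hlo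
            rw [div_le_iff₀ hη] at h7
            linarith
          calc Real.exp (-(η * h i)) ≤ Real.exp (-Real.log 2) := Real.exp_le_exp.2 (by linarith)
            _ = 1 / 2 := by rw [Real.exp_neg, Real.exp_log (by norm_num)]; norm_num
        have h8 : c₁ ≤ c₁ / (c₁ + Real.exp (-(η * h i))) := by
          rw [le_div_iff₀ (by positivity)]
          have h9 : c₁ + Real.exp (-(η * h i)) ≤ 1 := by linarith
          calc c₁ * (c₁ + Real.exp (-(η * h i))) ≤ c₁ * 1 := by gcongr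
            _ = c₁ := mul_one _
        refine mul_le_mul_of_nonneg_right (mul_le_mul_of_nonneg_right h8 hS.le)
          (Real.exp_pos _).le
  intro i hi d x hx
  exact key (J - i) i (by omega) d x hx

/-- the variance of the evolved field `o` at the scale `s`, in a square of level `s + d` -/
def Vf (μ : Measure G) [IsProbabilityMeasure μ] [μ.IsHaarMeasure] [μ.IsMulRightInvariant]
    [μ.IsInvInvariant] (f o : G → ℝ) (s d : ℕ) : ℝ :=
  vr μ (TTn μ f s) (fun x => evo μ f o s x * TTn μ f s x) (env μ f s d)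

lemma Vf_eq {f o : G → ℝ} (hf : Adm f) (s d : ℕ) : Vf μ f o s d =
    vr μ (nf (TTn μ f s)) (ng (TTn μ f s) (dTn μ f (fun x => o x * f x) s)) (env μ f s d) :=
  vr_norm (hf.TTn (μ := μ) s).pos

/-- **two-sided bound of the variance along the trajectories** -/
theorem var_traj (μ : Measure G) [IsProbabilityMeasure μ] [μ.IsHaarMeasure]
    [μ.IsMulRightInvariant] [μ.IsInvInvariant] {cA : ℝ} (hG : IsClosed (G : Set (UN N)))
    (hI : IsoG B) (hn : 0 < n)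
    (hcA : ∀ x : Fin n → ℝ, ∑ a, ‖LX B x * B.X a - B.X a * LX B x‖ ^ 2 = cA * nE x ^ 2) :
    ∃ r₁ ε₁ : ℝ, 0 < r₁ ∧ 0 < ε₁ ∧ ε₁ ≤ 1 / 1000 ∧ ∀ r : ℝ, 0 < r → r ≤ r₁ → GoodR B r →
      ∀ {ε h0 C1 κ h1 C' c C R : ℝ} {Dm : ℕ} {o : G → ℝ}, ε ≤ ε₁ → 0 < κ → Continuous o →
        TanFlow μ (PT B μ r ε h0 C1) (TSt B r) o κ h1 C' Dm → 0 < c → 0 ≤ C → 0 ≤ R →
      ∃ H0 : ℝ, 1 ≤ H0 ∧ C ≤ H0 ∧ ∀ c₁ : ℝ, 0 < c₁ → c₁ ≤ 1 / 2 →
      ∃ k0 Cv : ℝ, 1 ≤ Cv ∧ ∀ {hq : ℝ} {f : G → ℝ} {J : ℕ} {h ρ : ℕ → ℝ}, H0 ≤ hq → Adm f →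
        TP μ (PT B μ r ε h0 C1) c C hq R f J h ρ →
        (∀ x y, c₁ * TTn μ f J y ≤ TTn μ f J x) → ∀ s, 1 ≤ s → s ≤ J → k0 ≤ h s → ∀ d,
        1 / Cv ≤ h s ^ 2 * Vf μ f o s d ∧ h s ^ 2 * Vf μ f o s d ≤ Cv := by
  obtain ⟨r₁, ε₁, hr₁, hε₁, hε2, hE⟩ := env_traj (B := B) μ hG hI hn hcA
  refine ⟨r₁, ε₁, hr₁, hε₁, hε2, fun r hr hrr hgr {ε h0 C1 κ h1 C' c C R Dm o} hε hκ ho TF hc
    hC hR => ?_⟩
  obtain ⟨He, hHe, hE⟩ := hE r hr hrr
  obtain ⟨Hf, Bn, hHf, hBn, hCH, hfar⟩ := far_traj (B := B) (μ := μ) (h1 := h1) hG hgr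
    (hε.trans hε2) hκ ho TF hc hC hR
  refine ⟨max He Hf, hHe.trans (le_max_left _ _), hCH.trans (le_max_right _ _),
    fun c₁ hc₁ hc₂ => ?_⟩
  obtain ⟨Ct, k1, e0, hCt, hk1, he0, hvar⟩ := var_two_sided (B := B) μ hgr hn hc₁
    (c := r ^ 2 / 400) (by positivity)
  obtain ⟨Cv, hCv⟩ : ∃ Cv, Cv = Ct * (4 / κ ^ 2) + Ct * (4 * κ ^ 2) + 1 := ⟨_, rfl⟩
  have hCt0 : 0 < Ct := by linarith
  refine ⟨max k1 (2 * Bn / (e0 * κ)), Cv, ?_, fun {hq f J h ρ} hH hf tp hs s hs1 hsJ hk d => ?_⟩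
  · rw [hCv]
    have : 0 ≤ Ct * (4 / κ ^ 2) + Ct * (4 * κ ^ 2) := by positivity
    linarith
  have hH1 : He ≤ hq := (le_max_left _ _).trans hH
  have hH2 : Hf ≤ hq := (le_max_right _ _).trans hH
  obtain ⟨hrat, hTD⟩ := hfar hq f J h ρ hH2 hf tp
  obtain ⟨a, l, D, -, ha1, ha2, hl⟩ := hTD s hsJ
  have henv := hE (c₁ := c₁) hε hH1 hf tp (fun i hi => (hrat i hi).2) hc₁ hc₂ hs s hsJ d
  have hka : k1 ≤ h s := (le_max_left _ _).trans hk
  have hkb : 2 * Bn / (e0 * κ) ≤ h s := (le_max_right _ _).trans hk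
  have hks : 0 < h s := by linarith
  have ha0 : 0 < a := by linarith
  obtain ⟨F, H, η, m, hN, x2, x3⟩ := D.ex
  have hNs := Pool.Agent.N991.MK.St.toNear hN.st
  have hMr : ρ s * h s * r ^ 2 ≤ h s / 1000 := by
    have h1 := hN.Ml
    have h2 : ε * h s ≤ 1 / 1000 * h s := mul_le_mul_of_nonneg_right (hε.trans hε2) hks.le
    linarith
  have hEA := env_adm (μ := μ) hf d s
  have hEle := env_le (μ := μ) hf d s hs1
  have hlk : l ≤ e0 * (h s * a) := by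
    rw [div_le_iff₀ (by positivity)] at hkb
    have h3 : e0 * (h s * (κ / 2)) ≤ e0 * (h s * a) := by gcongr
    linarith
  obtain ⟨v1, v2⟩ := hvar (E := env μ f s d) hka hMr hN.cf hN.pos hNs hN.tb x2.cont ha0 D.l0 hlk
    (nearT_of_Tg hgr hN x2 x3) D.far hEA.cont hEA.pos hEle henv
  rw [Vf_eq hf]
  obtain ⟨V, hV⟩ : ∃ V, V = vr μ (nf (TTn μ f s)) (ng (TTn μ f s)
    (dTn μ f (fun x => o x * f x) s)) (env μ f s d) := ⟨_, rfl⟩
  rw [← hV] at v1 v2 ⊢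
  have hk2 : 0 < h s ^ 2 := by positivity
  constructor
  · have h3 : 1 / Ct * a ^ 2 ≤ h s ^ 2 * V := by
      calc 1 / Ct * a ^ 2 = h s ^ 2 * (1 / Ct * (a ^ 2 / h s ^ 2)) := by field_simp
        _ ≤ _ := mul_le_mul_of_nonneg_left v1 hk2.le
    refine le_trans ?_ h3
    have h4 : (κ / 2) ^ 2 ≤ a ^ 2 := pow_le_pow_left₀ (by positivity) ha1 2
    have h5 : 1 / Cv ≤ 1 / (Ct * (4 / κ ^ 2)) := by
      refine one_div_le_one_div_of_le (by positivity) ?_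
      rw [hCv]
      have : 0 ≤ Ct * (4 * κ ^ 2) := by positivity
      linarith
    calc 1 / Cv ≤ 1 / (Ct * (4 / κ ^ 2)) := h5
      _ = 1 / Ct * (κ / 2) ^ 2 := by
          field_simp
          norm_num
      _ ≤ _ := by gcongr
  · have h3 : h s ^ 2 * V ≤ Ct * a ^ 2 := by
      calc h s ^ 2 * V ≤ h s ^ 2 * (Ct * (a ^ 2 / h s ^ 2)) := mul_le_mul_of_nonneg_left v2 hk2.le
        _ = _ := by field_simp
    have h4 : a ^ 2 ≤ (2 * κ) ^ 2 := pow_le_pow_left₀ ha0.le ha2 2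
    have h5 : 0 ≤ Ct * (4 / κ ^ 2) := by positivity
    calc h s ^ 2 * V ≤ Ct * a ^ 2 := h3
      _ ≤ Ct * (2 * κ) ^ 2 := by gcongr
      _ = Ct * (4 * κ ^ 2) := by ring
      _ ≤ Cv := by rw [hCv]; linarith

/-- **the exact constant along the trajectories** -/
theorem exact_traj (B : Frame G n) (μ : Measure G) [IsProbabilityMeasure μ] [μ.IsHaarMeasure]
    [μ.IsMulRightInvariant] [μ.IsInvInvariant] (hG : IsClosed (G : Set (UN N))) :
    ∃ r₁ : ℝ, 0 < r₁ ∧ ∀ r : ℝ, 0 < r → r ≤ r₁ → GoodR B r →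
      ∀ {ε h0 C1 κ h1 C' c C R : ℝ} {Dm : ℕ} {o : G → ℝ}, ε ≤ 1 / 1000 → 0 < κ → Continuous o →
        TanFlow μ (PT B μ r ε h0 C1) (TSt B r) o κ h1 C' Dm → 0 < c → 0 ≤ C → 0 ≤ R →
      ∃ H0 Cx : ℝ, 1 ≤ H0 ∧ C ≤ H0 ∧ 0 ≤ Cx ∧ ∀ {hq : ℝ} {f : G → ℝ} {J : ℕ} {h ρ : ℕ → ℝ},
        H0 ≤ hq → Adm f → TP μ (PT B μ r ε h0 C1) c C hq R f J h ρ → ∀ s ≤ J,
        |h s ^ 2 * Vf μ f o s 0 - n / 2 * κ ^ 2| ≤ Cx * (1 / h s + ρ s) := by
  obtain ⟨Ct, ρ₁, hCt, hρ₁, hnq⟩ := nearQ_of B hG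
  obtain ⟨r₂, hr₂, hvx⟩ := var_exact B hG μ hCt
  refine ⟨min ρ₁ r₂, by positivity, fun r hr hrr hgr {ε h0 C1 κ h1 C' c C R Dm o} hε hκ ho TF hc
    hC hR => ?_⟩
  have hrr1 : r ≤ ρ₁ := hrr.trans (min_le_left _ _)
  have hrr2 : r ≤ r₂ := hrr.trans (min_le_right _ _)
  obtain ⟨k1, Ce, hk1, hCe, hvx⟩ := hvx r hr hrr2 hgr (r ^ 2 / 400) (by positivity)
  obtain ⟨Hf, Bn, hHf, hBn, hCH, hfar⟩ := far_traj (B := B) (μ := μ) (h1 := h1) hG hgr
    hε hκ ho TF hc hC hR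
  refine ⟨max (max Hf k1) (2 * Bn / κ), 4 * κ ^ 2 * (Ce * (1 + 2 * Bn / κ)) +
    n / 2 * (3 * κ * Bn), hHf.trans ((le_max_left _ _).trans (le_max_left _ _)),
    hCH.trans ((le_max_left _ _).trans (le_max_left _ _)), by positivity,
    fun {hq f J h ρ} hH hf tp s hsJ => ?_⟩
  simp only [max_le_iff] at hH
  obtain ⟨⟨hH1, hH2⟩, hH3⟩ := hH
  obtain ⟨hrat, hTD⟩ := hfar hq f J h ρ hH1 hf tp
  obtain ⟨a, l, D, ha0, ha1, ha2, hl⟩ := hTD s hsJ
  have hlo := tp.lo s hsJ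
  have hks1 : 1 ≤ h s := by linarith
  have hks : 0 < h s := by linarith
  have hapos : 0 < a := by linarith
  obtain ⟨F, H, η, m, hN, x2, x3⟩ := D.ex
  have hρ0 : 0 ≤ ρ s := nonneg_of_mul_nonneg_left hN.M0 hks
  have hMr : ρ s * h s * r ^ 2 ≤ h s / 1000 := by
    have h1 := hN.Ml
    have h2 : ε * h s ≤ 1 / 1000 * h s := mul_le_mul_of_nonneg_right hε hks.le
    linarith
  have hQ : NearQ r Ct a l (nf (TTn μ f s)) (ng (TTn μ f s) (dTn μ f (fun x => o x * f x) s)) :=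
    hnq r hrr1 hgr D.l0 hN.cf.res x2.res x3.near x3.bd
  have hδ0 : 0 ≤ 2 * Bn / (κ * h s) := by positivity
  have hδ1 : 2 * Bn / (κ * h s) ≤ 1 := by
    rw [div_le_one (by positivity)]
    rw [div_le_iff₀ hκ] at hH3
    have h3 : hq * κ ≤ κ * h s := by
      rw [mul_comm]
      exact mul_le_mul_of_nonneg_left hlo hκ.le
    linarith
  have hlk : l ≤ 2 * Bn / (κ * h s) * (h s * a) := by
    have e : 2 * Bn / (κ * h s) * (h s * a) = Bn * (2 * a / κ) := by field_simp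
    rw [e]
    have h3 : 1 ≤ 2 * a / κ := by
      rw [le_div_iff₀ hκ]
      linarith
    have h4 : Bn * 1 ≤ Bn * (2 * a / κ) := mul_le_mul_of_nonneg_left h3 hBn
    linarith
  have h1 := hvx (by linarith : k1 ≤ h s) hN.M0 hMr hN.cf hN.pos hN.st hN.tb x2.cont hapos D.l0
    hδ0 hδ1 hlk hQ D.far
  have e0 : Vf μ f o s 0 = vr μ (nf (TTn μ f s)) (ng (TTn μ f s)
      (dTn μ f (fun x => o x * f x) s)) (fun _ => 1) := Vf_eq hf s 0
  rw [e0]
  obtain ⟨V, hV⟩ : ∃ V, V = vr μ (nf (TTn μ f s)) (ng (TTn μ f s)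
    (dTn μ f (fun x => o x * f x) s)) (fun _ => 1) := ⟨_, rfl⟩
  rw [← hV] at h1 ⊢
  have h2 : (1 + ρ s * h s) / h s + 2 * Bn / (κ * h s) ≤ (1 + 2 * Bn / κ) * (1 / h s + ρ s) := by
    have e1 : (1 + ρ s * h s) / h s = 1 / h s + ρ s := by field_simp
    have e2 : 2 * Bn / (κ * h s) = 2 * Bn / κ * (1 / h s) := by field_simp
    rw [e1, e2]
    have h3 : 0 ≤ 2 * Bn / κ * ρ s := by positivity
    have e3 : (1 + 2 * Bn / κ) * (1 / h s + ρ s) =
      1 / h s + ρ s + 2 * Bn / κ * (1 / h s) + 2 * Bn / κ * ρ s := by ring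
    rw [e3]
    linarith
  have h3 : |h s ^ 2 / a ^ 2 * V - n / 2| ≤ Ce * (1 + 2 * Bn / κ) * (1 / h s + ρ s) := by
    refine h1.trans ?_
    rw [mul_assoc]
    exact mul_le_mul_of_nonneg_left h2 hCe
  have e4 : h s ^ 2 * V - n / 2 * κ ^ 2 = a ^ 2 * (h s ^ 2 / a ^ 2 * V - n / 2) +
      n / 2 * ((a - κ) * (a + κ)) := by
    field_simp
    ring
  rw [e4]
  refine (abs_add_le _ _).trans ?_
  rw [abs_mul, abs_mul, abs_mul, abs_of_nonneg (sq_nonneg a),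
    abs_of_nonneg (by positivity : (0 : ℝ) ≤ n / 2), abs_of_pos (by linarith : 0 < a + κ)]
  have h4 : a ^ 2 ≤ 4 * κ ^ 2 := by
    calc a ^ 2 ≤ (2 * κ) ^ 2 := pow_le_pow_left₀ hapos.le ha2 2
      _ = _ := by ring
  have h5 : a ^ 2 * |h s ^ 2 / a ^ 2 * V - n / 2| ≤
      4 * κ ^ 2 * (Ce * (1 + 2 * Bn / κ) * (1 / h s + ρ s)) :=
    mul_le_mul h4 h3 (abs_nonneg _) (by positivity)
  have h6 : (n : ℝ) / 2 * (|a - κ| * (a + κ)) ≤ n / 2 * (Bn / h s * (3 * κ)) := by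
    gcongr
    linarith
  have h7 : (n : ℝ) / 2 * (Bn / h s * (3 * κ)) ≤ n / 2 * (3 * κ * Bn) * (1 / h s + ρ s) := by
    have e5 : (n : ℝ) / 2 * (Bn / h s * (3 * κ)) = n / 2 * (3 * κ * Bn) * (1 / h s) := by ring
    rw [e5]
    refine mul_le_mul_of_nonneg_left ?_ (by positivity)
    linarith
  calc _ ≤ 4 * κ ^ 2 * (Ce * (1 + 2 * Bn / κ) * (1 / h s + ρ s)) +
        n / 2 * (3 * κ * Bn) * (1 / h s + ρ s) := add_le_add h5 (h6.trans h7)
    _ = _ := by ring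

end

end Pool.Agent.N453.MK
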