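import Mathlib
import Pool.Agent.N453.MK.Traj3

/-!
# The variance of the tangent fields for convergent sequences of lattice theories
-/

open MeasureTheory Matrix Filter
open scoped Matrix.Norms.Frobenius ContDiff Topology
open Pool.Agent.H906R3.YM Pool.Agent.W793.YM Pool.Agent.TH618.YM Pool.Agent.N984.TW
open Pool.Agent.N991.MK
open Pool.Agent.N988.MK (NS St PT TSt IsoG)
open Pool.Agent.N989.MK (TT TTn H4 Adm TR TP nrm UT)
open Pool.Agent.N681.MK (dTn fld TanFlow evo)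
open Pool.Agent.N565.MK (env envS env_adm env_le)

namespace Pool.Agent.N453.MK

set_option linter.unusedSectionVars false

noncomputable section

/-- the change of the normalisation from the coupling to the scale -/
lemma scale_arith {c s₀ e : ℝ} (hc : 0 < c) (hs : 0 ≤ s₀) (he : 0 < e) : ∃ η : ℝ, 0 < η ∧
    ∀ {m h v : ℝ}, 0 < m → |h - c * m| ≤ η * m → |h ^ 2 * v - s₀| ≤ η →
      |m ^ 2 * v - s₀ / c ^ 2| ≤ e := by
  obtain ⟨D, hD⟩ : ∃ D, D = 4 / c ^ 2 + 10 * s₀ / c ^ 3 + 1 := ⟨_, rfl⟩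
  have hD0 : 0 < D := by rw [hD]; positivity
  refine ⟨min (c / 2) (e / D), by positivity, fun {m h v} hm h1 h2 => ?_⟩
  obtain ⟨η, hη⟩ : ∃ η, η = min (c / 2) (e / D) := ⟨_, rfl⟩
  rw [← hη] at h1 h2
  have hη0 : 0 < η := by rw [hη]; positivity
  have hη1 : η ≤ c / 2 := by rw [hη]; exact min_le_left _ _
  have hη2 : η ≤ e / D := by rw [hη]; exact min_le_right _ _
  obtain ⟨h3, h4⟩ := abs_le.1 h1
  have h5 : η * m ≤ c / 2 * m := mul_le_mul_of_nonneg_right hη1 hm.le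
  have h6 : c / 2 * m ≤ h := by linarith
  have hh : 0 < h := lt_of_lt_of_le (by positivity) h6
  have h7 : m ^ 2 / h ^ 2 ≤ 4 / c ^ 2 := by
    rw [div_le_div_iff₀ (by positivity) (by positivity)]
    have h8 := pow_le_pow_left₀ (by positivity) h6 2
    nlinarith
  have e1 : m ^ 2 * v - s₀ / c ^ 2 = m ^ 2 / h ^ 2 * (h ^ 2 * v - s₀) +
      s₀ * (m ^ 2 / h ^ 2 - 1 / c ^ 2) := by
    field_simp
    ring
  have h8 : |m ^ 2 / h ^ 2 - 1 / c ^ 2| ≤ 10 * η / c ^ 3 := by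
    have e2 : m ^ 2 / h ^ 2 - 1 / c ^ 2 = -((h - c * m) * (h + c * m)) / (c ^ 2 * h ^ 2) := by
      field_simp
      ring
    rw [e2, abs_div, abs_neg, abs_mul, abs_of_pos (by positivity : 0 < h + c * m),
      abs_of_pos (by positivity : 0 < c ^ 2 * h ^ 2), div_le_div_iff₀ (by positivity)
      (by positivity)]
    have h9 : h + c * m ≤ 5 / 2 * (c * m) := by nlinarith
    have h10 : |h - c * m| * (h + c * m) ≤ η * m * (5 / 2 * (c * m)) :=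
      mul_le_mul h1 h9 (by positivity) (by positivity)
    have h11 := pow_le_pow_left₀ (by positivity) h6 2
    calc |h - c * m| * (h + c * m) * c ^ 3 ≤ η * m * (5 / 2 * (c * m)) * c ^ 3 :=
          mul_le_mul_of_nonneg_right h10 (by positivity)
      _ = 10 * η * (c ^ 2 * (c / 2 * m) ^ 2) := by ring
      _ ≤ 10 * η * (c ^ 2 * h ^ 2) := by gcongr
  rw [e1]
  refine (abs_add_le _ _).trans ?_
  rw [abs_mul, abs_mul, abs_of_nonneg hs, abs_of_nonneg (by positivity : 0 ≤ m ^ 2 / h ^ 2)]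
  calc m ^ 2 / h ^ 2 * |h ^ 2 * v - s₀| + s₀ * |m ^ 2 / h ^ 2 - 1 / c ^ 2|
      ≤ 4 / c ^ 2 * η + s₀ * (10 * η / c ^ 3) := by gcongr
    _ = (4 / c ^ 2 + 10 * s₀ / c ^ 3) * η := by ring
    _ ≤ D * η := mul_le_mul_of_nonneg_right (by rw [hD]; linarith) hη0.le
    _ ≤ D * (e / D) := mul_le_mul_of_nonneg_left hη2 hD0.le
    _ = e := by field_simp

variable {N n : ℕ} {G : Subgroup (UN N)} {B : Frame G n}
variable [CompactSpace G] [MeasurableSpace G] [BorelSpace G] [SecondCountableTopology G]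
  {μ : Measure G} [IsProbabilityMeasure μ] [μ.IsHaarMeasure] [μ.IsMulRightInvariant]
  [μ.IsInvInvariant]

/-- the coupling along the trajectories of a sequence of theories -/
lemma coupling_lattice {P : (G → ℝ) → ℝ → ℝ → Prop} {c C R : ℝ} (hc : 0 < c) (hC : 0 ≤ C)
    (hR : 0 ≤ R) {f : ℕ → G → ℝ} {l : ℕ → ℕ} (hl : Tendsto l atTop atTop)
    (hex : ∀ hq : ℝ, ∃ k0 : ℕ, ∀ k : ℕ, k0 ≤ k → ∃ Hu : ℝ, ∀ᶠ i in atTop, ∃ h ρ,
      TP μ P c C hq R (f i) (l i - k) h ρ ∧ h (l i - k) ≤ Hu) (H0 : ℝ) {δ : ℝ} (hδ : 0 < δ) :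
    ∃ (hq : ℝ) (k0 m0 : ℕ), H0 ≤ hq ∧ ∀ m : ℕ, m0 ≤ m → ∀ᶠ i in atTop, ∃ h ρ : ℕ → ℝ,
      TP μ P c C hq R (f i) (l i - k0) h ρ ∧ 1 ≤ l i - m ∧ l i - m ≤ l i - k0 ∧
      |h (l i - m) - c * m| ≤ δ * m ∧ ρ (l i - m) ≤ δ := by
  obtain ⟨hq, hhq⟩ : ∃ hq, hq = max (max H0 (max C 1)) (max (C * (R + 3))
    (max ((C + 4 / 3 * C ^ 2) / (δ / 2)) (8 * C / δ))) := ⟨_, rfl⟩
  have q1 : H0 ≤ hq := by rw [hhq]; exact (le_max_left _ _).trans (le_max_left _ _)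
  have q2 : C ≤ hq := by
    rw [hhq]; exact (le_max_left _ _).trans ((le_max_right _ _).trans (le_max_left _ _))
  have q3 : 1 ≤ hq := by
    rw [hhq]; exact (le_max_right _ _).trans ((le_max_right _ _).trans (le_max_left _ _))
  have q4 : C * (R + 3) ≤ hq := by
    rw [hhq]; exact (le_max_left _ _).trans (le_max_right _ _)
  have q5 : (C + 4 / 3 * C ^ 2) / (δ / 2) ≤ hq := by
    rw [hhq]; exact (le_max_left _ _).trans ((le_max_right _ _).trans (le_max_right _ _))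
  have q6 : 8 * C / δ ≤ hq := by
    rw [hhq]; exact (le_max_right _ _).trans ((le_max_right _ _).trans (le_max_right _ _))
  have hq0 : 0 < hq := by linarith
  obtain ⟨k0, hk0⟩ := hex hq
  obtain ⟨Hu, hHu⟩ := hk0 k0 le_rfl
  obtain ⟨B1, hB1⟩ : ∃ B1, B1 = 4 / 3 * C * (R + 2) + |Hu| + hq + c * k0 := ⟨_, rfl⟩
  have hB10 : 0 ≤ B1 := by rw [hB1]; positivity
  obtain ⟨M1, hM1⟩ := exists_nat_gt (2 * B1 / δ)
  refine ⟨hq, k0, k0 + M1 + 1, q1, fun m hm => ?_⟩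
  have hmp : (0 : ℝ) < m := by exact_mod_cast (by omega : 0 < m)
  have hmk : (k0 : ℝ) ≤ m := by exact_mod_cast (by omega : k0 ≤ m)
  have hm1 : 2 * B1 / δ ≤ m := hM1.le.trans (by exact_mod_cast (by omega : M1 ≤ m))
  rw [div_le_iff₀ hδ] at hm1
  have hpow : Tendsto (fun i => (1 / 4 : ℝ) ^ (l i - m) * R) atTop (𝓝 (0 * R)) := by
    refine Tendsto.mul_const _ ?_
    refine (tendsto_pow_atTop_nhds_zero_of_lt_one (by norm_num) (by norm_num)).comp ?_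
    refine tendsto_atTop.2 fun b => ?_
    filter_upwards [hl.eventually (eventually_ge_atTop (b + m))] with i hi
    omega
  rw [zero_mul] at hpow
  filter_upwards [hHu, hl.eventually (eventually_ge_atTop (m + 1)),
    hpow.eventually (gt_mem_nhds (half_pos hδ))] with i g1 g2 g3
  obtain ⟨h, ρ, tp, hh⟩ := g1
  obtain ⟨J, hJ⟩ : ∃ J, J = l i - k0 := ⟨_, rfl⟩
  obtain ⟨s, hs⟩ : ∃ s, s = l i - m := ⟨_, rfl⟩
  rw [← hJ] at tp hh
  rw [← hs] at g3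
  have hsJ : s + (m - k0) = J := by omega
  have hcast : ((m - k0 : ℕ) : ℝ) = (m : ℝ) - k0 := by
    rw [Nat.cast_sub (by omega)]
  have k1 := tp.t.tele2 hq0 hC q2 tp.r0 tp.r s (m - k0) hsJ.le
  rw [hsJ, hcast] at k1
  have k2 : (C + 4 / 3 * C ^ 2) / hq ≤ δ / 2 := by
    rw [div_le_iff₀ (by positivity)] at q5
    rw [div_le_iff₀ hq0]
    linarith
  have hmk0 : 0 ≤ (m : ℝ) - k0 := by linarith
  have k3 : (C + 4 / 3 * C ^ 2) / hq * ((m : ℝ) - k0) ≤ δ / 2 * m := by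
    calc (C + 4 / 3 * C ^ 2) / hq * ((m : ℝ) - k0) ≤ δ / 2 * ((m : ℝ) - k0) :=
          mul_le_mul_of_nonneg_right k2 hmk0
      _ ≤ δ / 2 * m := by
          refine mul_le_mul_of_nonneg_left ?_ (by positivity)
          have : (0 : ℝ) ≤ k0 := Nat.cast_nonneg k0
          linarith
  have hJlo := tp.lo J le_rfl
  have hHu1 := le_abs_self Hu
  obtain ⟨k4, k5⟩ := abs_le.1 k1
  have hck : 0 ≤ c * (k0 : ℝ) := by positivity
  have k6 : |h s - c * m| ≤ B1 + δ / 2 * m := by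
    have hCR : 0 ≤ 4 / 3 * C * (R + 2) := by positivity
    rw [abs_le]
    constructor <;> linarith
  have k7 : |h s - c * m| ≤ δ * m := by linarith
  have hslo := tp.lo s (by omega)
  have hs0 : 0 < h s := by linarith
  have hra := tp.t.ra2 hc.le hC hq0 q2 q4 q3 tp.r0 tp.r (by linarith : 0 < h J) s (by omega)
  have k8 : 8 * C / δ ≤ h s := q6.trans hslo
  refine ⟨h, ρ, ?_, ?_, ?_, ?_, ?_⟩
  · rw [← hJ]; exact tp
  · omega
  · omega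
  · rw [← hs]; exact k7
  · rw [← hs]
    have h1 : 4 * C / h s ≤ δ / 2 := by
      rw [div_le_iff₀ hs0]
      rw [div_le_iff₀ hδ] at k8
      linarith
    linarith

/-- **the exact constant for a sequence of lattice theories** -/
theorem exact_lattice (B : Frame G n) (μ : Measure G) [IsProbabilityMeasure μ] [μ.IsHaarMeasure]
    [μ.IsMulRightInvariant] [μ.IsInvInvariant] (hG : IsClosed (G : Set (UN N))) :
    ∃ r₁ : ℝ, 0 < r₁ ∧ ∀ r : ℝ, 0 < r → r ≤ r₁ → GoodR B r →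
      ∀ {ε h0 C1 κ h1 C' c C R : ℝ} {Dm : ℕ} {o : G → ℝ}, ε ≤ 1 / 1000 → 0 < κ → Continuous o →
        TanFlow μ (PT B μ r ε h0 C1) (TSt B r) o κ h1 C' Dm → 0 < c → 0 ≤ C → 0 ≤ R →
      ∀ {f : ℕ → G → ℝ} {l : ℕ → ℕ}, (∀ i, Adm (f i)) → Tendsto l atTop atTop →
        (∀ hq : ℝ, ∃ k0 : ℕ, ∀ k : ℕ, k0 ≤ k → ∃ Hu : ℝ, ∀ᶠ i in atTop, ∃ h ρ,
          TP μ (PT B μ r ε h0 C1) c C hq R (f i) (l i - k) h ρ ∧ h (l i - k) ≤ Hu) →
      ∀ e : ℝ, 0 < e → ∃ m0 : ℕ, ∀ m : ℕ, m0 ≤ m → ∀ᶠ i in atTop,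
        |(m : ℝ) ^ 2 * Vf μ (f i) o (l i - m) 0 - n / 2 * (κ / c) ^ 2| ≤ e := by
  obtain ⟨r₁, hr₁, hD⟩ := exact_traj B μ hG
  refine ⟨r₁, hr₁, fun r hr hrr hgr {ε h0 C1 κ h1 C' c C R Dm o} hε hκ ho TF hc hC hR f l hf hl
    hex e he => ?_⟩
  obtain ⟨H0, Cx, hH0, hCH, hCx, hD⟩ := hD r hr hrr hgr hε hκ ho TF hc hC hR
  obtain ⟨η, hη, hsc⟩ := scale_arith (s₀ := n / 2 * κ ^ 2) hc (by positivity) he
  obtain ⟨δ, hδ⟩ : ∃ δ, δ = min η (min (c / 2) (η / (2 * (Cx + 1)))) := ⟨_, rfl⟩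
  have hδ0 : 0 < δ := by rw [hδ]; positivity
  have hδ1 : δ ≤ η := by rw [hδ]; exact min_le_left _ _
  have hδ2 : δ ≤ c / 2 := by rw [hδ]; exact (min_le_right _ _).trans (min_le_left _ _)
  have hδ3 : δ ≤ η / (2 * (Cx + 1)) := by
    rw [hδ]; exact (min_le_right _ _).trans (min_le_right _ _)
  obtain ⟨hq, k0, m0, hHq, hm0⟩ := coupling_lattice hc hC hR hl hex H0 hδ0
  obtain ⟨M1, hM1⟩ := exists_nat_gt (2 / (c * δ))
  refine ⟨m0 + M1 + 1, fun m hm => ?_⟩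
  have hmp : (0 : ℝ) < m := by exact_mod_cast (by omega : 0 < m)
  have hmM : 2 / (c * δ) ≤ m := hM1.le.trans (by exact_mod_cast (by omega : M1 ≤ m))
  rw [div_le_iff₀ (by positivity)] at hmM
  filter_upwards [hm0 m (by omega)] with i hi
  obtain ⟨h, ρ, tp, g1, g2, g3, g4⟩ := hi
  have h1 := hD hHq (hf i) tp (l i - m) g2
  have h2 : c / 2 * m ≤ h (l i - m) := by
    obtain ⟨h3, -⟩ := abs_le.1 g3
    have h4 : δ * m ≤ c / 2 * m := mul_le_mul_of_nonneg_right hδ2 hmp.le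
    linarith
  have hh0 : 0 < h (l i - m) := lt_of_lt_of_le (by positivity) h2
  have h3 : 1 / h (l i - m) ≤ δ := by
    rw [div_le_iff₀ hh0]
    have h4 : δ * (c / 2 * m) ≤ δ * h (l i - m) := mul_le_mul_of_nonneg_left h2 hδ0.le
    linarith
  have h4 : |h (l i - m) ^ 2 * Vf μ (f i) o (l i - m) 0 - n / 2 * κ ^ 2| ≤ η := by
    refine h1.trans ?_
    calc Cx * (1 / h (l i - m) + ρ (l i - m)) ≤ Cx * (δ + δ) := by gcongr
      _ = 2 * Cx * δ := by ring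
      _ ≤ 2 * Cx * (η / (2 * (Cx + 1))) := by gcongr
      _ ≤ η := by
          rw [mul_div_assoc', div_le_iff₀ (by positivity)]
          nlinarith
  have h5 : |h (l i - m) - c * m| ≤ η * m :=
    g3.trans (mul_le_mul_of_nonneg_right hδ1 hmp.le)
  have h6 := hsc hmp h5 h4
  have e1 : (n : ℝ) / 2 * κ ^ 2 / c ^ 2 = n / 2 * (κ / c) ^ 2 := by
    rw [div_pow]; ring
  rwa [e1] at h6

/-- **two-sided bound of the variance for a sequence of lattice theories** -/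
theorem var_lattice (μ : Measure G) [IsProbabilityMeasure μ] [μ.IsHaarMeasure]
    [μ.IsMulRightInvariant] [μ.IsInvInvariant] {cA : ℝ} (hG : IsClosed (G : Set (UN N)))
    (hI : IsoG B) (hn : 0 < n)
    (hcA : ∀ x : Fin n → ℝ, ∑ a, ‖LX B x * B.X a - B.X a * LX B x‖ ^ 2 = cA * nE x ^ 2) :
    ∃ r₁ ε₁ : ℝ, 0 < r₁ ∧ 0 < ε₁ ∧ ε₁ ≤ 1 / 1000 ∧ ∀ r : ℝ, 0 < r → r ≤ r₁ → GoodR B r →
      ∀ {ε h0 C1 κ h1 C' c C R : ℝ} {Dm : ℕ} {o : G → ℝ}, ε ≤ ε₁ → 0 < κ → Continuous o →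
        TanFlow μ (PT B μ r ε h0 C1) (TSt B r) o κ h1 C' Dm → 0 < c → 0 ≤ C → 0 ≤ R →
      ∀ {f : ℕ → G → ℝ} {l : ℕ → ℕ}, (∀ i, Adm (f i)) → Tendsto l atTop atTop →
        (∀ hq : ℝ, ∃ k0 : ℕ, ∀ k : ℕ, k0 ≤ k → ∃ Hu : ℝ, ∀ᶠ i in atTop, ∃ h ρ,
          TP μ (PT B μ r ε h0 C1) c C hq R (f i) (l i - k) h ρ ∧ h (l i - k) ≤ Hu) →
        (∀ k : ℕ, ∃ c₁ : ℝ, 0 < c₁ ∧ ∀ᶠ i in atTop, ∀ x y,
          c₁ * TTn μ (f i) (l i - k) y ≤ TTn μ (f i) (l i - k) x) →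
      ∃ (m0 : ℕ) (cv Cv : ℝ), 0 < cv ∧ ∀ m : ℕ, m0 ≤ m → ∀ᶠ i in atTop, ∀ d : ℕ,
        cv ≤ (m : ℝ) ^ 2 * Vf μ (f i) o (l i - m) d ∧
          (m : ℝ) ^ 2 * Vf μ (f i) o (l i - m) d ≤ Cv := by
  obtain ⟨r₁, ε₁, hr₁, hε₁, hε2, hD⟩ := var_traj (B := B) μ hG hI hn hcA
  refine ⟨r₁, ε₁, hr₁, hε₁, hε2, fun r hr hrr hgr {ε h0 C1 κ h1 C' c C R Dm o} hε hκ ho TF hc hC
    hR f l hf hl hex hsoft => ?_⟩
  obtain ⟨H0, hH0, hCH, hD⟩ := hD r hr hrr hgr hε hκ ho TF hc hC hR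
  obtain ⟨hq, k0, m0, hHq, hm0⟩ := coupling_lattice hc hC hR hl hex H0 (half_pos hc)
  obtain ⟨c₁, hc₁, hs⟩ := hsoft k0
  obtain ⟨kv, Cv, hCv, hD⟩ := hD (min c₁ (1 / 2)) (by positivity) (min_le_right _ _)
  obtain ⟨M1, hM1⟩ := exists_nat_gt (kv / (c / 2))
  refine ⟨m0 + M1 + 1, 4 / (9 * c ^ 2) * (1 / Cv), 4 / c ^ 2 * Cv, by positivity, fun m hm => ?_⟩
  have hmp : (0 : ℝ) < m := by exact_mod_cast (by omega : 0 < m)
  have hmM : kv / (c / 2) ≤ m := hM1.le.trans (by exact_mod_cast (by omega : M1 ≤ m))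
  rw [div_le_iff₀ (by positivity)] at hmM
  filter_upwards [hm0 m (by omega), hs] with i hi hsi d
  obtain ⟨h, ρ, tp, g1, g2, g3, g4⟩ := hi
  obtain ⟨h3, h4⟩ := abs_le.1 g3
  have h5 : c / 2 * m ≤ h (l i - m) := by linarith
  have h6 : h (l i - m) ≤ 3 / 2 * c * m := by linarith
  have hh0 : 0 < h (l i - m) := lt_of_lt_of_le (by positivity) h5
  have hsi' : ∀ x y, min c₁ (1 / 2) * TTn μ (f i) (l i - k0) y ≤ TTn μ (f i) (l i - k0) x := by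
    intro x y
    have hp := ((hf i).TTn (μ := μ) (l i - k0)).pos y
    exact (mul_le_mul_of_nonneg_right (min_le_left _ _) hp.le).trans (hsi x y)
  obtain ⟨v1, v2⟩ := hD hHq (hf i) tp hsi' (l i - m) g1 g2 (by linarith) d
  obtain ⟨V, hV⟩ : ∃ V, V = Vf μ (f i) o (l i - m) d := ⟨_, rfl⟩
  rw [← hV] at v1 v2 ⊢
  have hCv0 : 0 < Cv := by linarith
  have hV0 : 0 ≤ V := by
    have h7 : 0 < h (l i - m) ^ 2 * V := lt_of_lt_of_le (by positivity) v1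
    exact (pos_of_mul_pos_right h7 (by positivity : 0 ≤ h (l i - m) ^ 2)).le
  have h7 : h (l i - m) ^ 2 ≤ (3 / 2 * c * m) ^ 2 := pow_le_pow_left₀ hh0.le h6 2
  have h8 : (c / 2 * m) ^ 2 ≤ h (l i - m) ^ 2 := pow_le_pow_left₀ (by positivity) h5 2
  constructor
  · calc 4 / (9 * c ^ 2) * (1 / Cv) ≤ 4 / (9 * c ^ 2) * (h (l i - m) ^ 2 * V) := by gcongr
      _ ≤ 4 / (9 * c ^ 2) * ((3 / 2 * c * m) ^ 2 * V) := by gcongr
      _ = _ := by field_simp; ring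
  · calc (m : ℝ) ^ 2 * V = 4 / c ^ 2 * ((c / 2 * m) ^ 2 * V) := by field_simp; ring
      _ ≤ 4 / c ^ 2 * (h (l i - m) ^ 2 * V) := by gcongr
      _ ≤ _ := by gcongr

/-- the soft bound from the convergence of the normalised weights -/
lemma soft_of_conv {f : ℕ → G → ℝ} {l : ℕ → ℕ} (hf : ∀ i, Adm (f i)) {Fk : ℤ → G → ℝ}
    (hF : ∀ k, Adm (Fk k))
    (hconv : ∀ k : ℤ, UT (fun i x => nrm μ (TTn μ (f i) ((l i : ℤ) + k).toNat) x) (Fk k))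
    (k : ℕ) : ∃ c₁ : ℝ, 0 < c₁ ∧ ∀ᶠ i in atTop, ∀ x y,
      c₁ * TTn μ (f i) (l i - k) y ≤ TTn μ (f i) (l i - k) x := by
  have hFk := hF (-k)
  obtain ⟨δ, hδ, hδF⟩ : ∃ δ : ℝ, 0 < δ ∧ ∀ x, δ ≤ Fk (-k) x := by
    obtain ⟨x₀, -, hx₀⟩ := isCompact_univ.exists_isMinOn ⟨1, Set.mem_univ _⟩
      hFk.cont.continuousOn
    exact ⟨Fk (-k) x₀, hFk.pos x₀, fun x => hx₀ (Set.mem_univ x)⟩
  obtain ⟨M, hM⟩ : ∃ M : ℝ, ∀ x, Fk (-k) x ≤ M := by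
    obtain ⟨x₀, -, hx₀⟩ := isCompact_univ.exists_isMaxOn ⟨1, Set.mem_univ _⟩
      hFk.cont.continuousOn
    exact ⟨Fk (-k) x₀, fun x => hx₀ (Set.mem_univ x)⟩
  have hM0 : 0 < M := lt_of_lt_of_le hδ ((hδF 1).trans (hM 1))
  refine ⟨(δ / 2) / (M + δ / 2), by positivity, ?_⟩
  filter_upwards [hconv (-k) (δ / 2) (half_pos hδ)] with i hi x y
  have e : ((l i : ℤ) + -(k : ℤ)).toNat = l i - k := by omega
  rw [e] at hi
  have hA := (hf i).TTn (μ := μ) (l i - k)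
  have hI := inv_pos.2 (hA.ipos (μ := μ))
  have h1 := (abs_lt.1 (hi x)).1
  have h2 := (abs_lt.1 (hi y)).2
  have h3 := hδF x
  have h4 := hM y
  unfold Pool.Agent.N989.MK.nrm at h1 h2
  have h5 : δ / 2 ≤ (∫ z, TTn μ (f i) (l i - k) z ∂μ)⁻¹ * TTn μ (f i) (l i - k) x := by linarith
  have h6 : (∫ z, TTn μ (f i) (l i - k) z ∂μ)⁻¹ * TTn μ (f i) (l i - k) y ≤ M + δ / 2 := by
    linarith
  have h7 : (∫ z, TTn μ (f i) (l i - k) z ∂μ)⁻¹ * ((δ / 2) * TTn μ (f i) (l i - k) y) ≤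
      (∫ z, TTn μ (f i) (l i - k) z ∂μ)⁻¹ * ((M + δ / 2) * TTn μ (f i) (l i - k) x) := by
    have h8 := mul_le_mul_of_nonneg_left h6 (half_pos hδ).le
    have h9 := mul_le_mul_of_nonneg_left h5 (by positivity : 0 ≤ M + δ / 2)
    nlinarith
  have h8 := le_of_mul_le_mul_left h7 hI
  rw [div_mul_eq_mul_div, div_le_iff₀ (by positivity)]
  linarith

end

end Pool.Agent.N453.MK
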