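import Mathlib
import Pool.Agent.N453.MK.Traj4

/-!
# The limit theory at short distances: pointwise form of the densities and the fields
-/

open MeasureTheory Matrix Filter
open scoped Matrix.Norms.Frobenius ContDiff Topology
open Pool.Agent.H906R3.YM Pool.Agent.W793.YM Pool.Agent.TH618.YM Pool.Agent.N984.TW
open Pool.Agent.N991.MK
open Pool.Agent.N988.MK (NS St PT TSt IsoG qC nf ng eq_nf eq_ng)
open Pool.Agent.N989.MK (TT TTn H4 Adm TR TP nrm UT)
open Pool.Agent.N681.MK (dTn fld TanFlow evo)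

namespace Pool.Agent.N453.MK

set_option linter.unusedSectionVars false

noncomputable section

variable {N n : ℕ} {G : Subgroup (UN N)} {B : Frame G n}
variable [CompactSpace G] [MeasurableSpace G] [BorelSpace G]

/-- the pointwise form of a normalised density and of its tangent field at the scale `h`, with the
error `ρ`, the coefficient `a` and the error `l` -/
structure PF (r Ct h ρ a l : ℝ) (f u : G → ℝ) : Prop where
  dens : ∀ z : G, nN z ≤ 0.95 * r → ∃ t e : ℝ, f z = Real.exp (-(h / 2) * t - e) ∧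
    |t - nN z ^ 2| ≤ Ct * nN z ^ 4 ∧ |e| ≤ ρ * h * (1.01 * nN z ^ 4)
  field : ∀ z : G, nN z ≤ 0.95 * r → ∃ t e : ℝ, u z = -(a / 2) * t - e ∧
    |t - nN z ^ 2| ≤ Ct * nN z ^ 4 ∧ |e| ≤ l * (1.01 * nN z ^ 4)
  up : ∀ z : G, nN z ≤ 0.95 * r → f z ≤ Real.exp (-(0.49 * h * nN z ^ 2))
  dfar : ∀ z : G, 0.95 * r < nN z → f z ≤ Real.exp (-(0.03 * r ^ 2 * h))
  ffar : ∀ z : G, 0.95 * r < nN z → |u z| * f z ≤ l * Real.exp (-(0.03 * r ^ 2 * h))
  pos : ∀ z, 0 < f z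

lemma qC_real {x : Fin n → ℂ} (h : nE (imP x) = 0) : qC x = ((nE (reP x) ^ 2 : ℝ) : ℂ) := by
  have h3 : nE (imP x) ^ 2 = 0 := by rw [h]; norm_num
  rw [Pool.Agent.N991.MK.nE_sq] at h3
  have h4 : ∀ i, imP x i = 0 := by
    intro i
    have h5 := (Finset.sum_eq_zero_iff_of_nonneg (fun j _ => sq_nonneg (imP x j))).1 h3 i
      (Finset.mem_univ _)
    exact pow_eq_zero_iff (two_ne_zero) |>.1 h5
  rw [Pool.Agent.N991.MK.nE_sq]
  unfold qC
  push_cast
  refine Finset.sum_congr rfl fun i _ => ?_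
  congr 1
  apply Complex.ext
  · simp [reP]
  · have := h4 i
    simp only [imP] at this
    simp [this]

/-- the pointwise form from the complex data -/
theorem pf_of (B : Frame G n) (hG : IsClosed (G : Set (UN N))) : ∃ Ct ρ₁ : ℝ, 0 ≤ Ct ∧ 0 < ρ₁ ∧
    ∀ r : ℝ, r ≤ ρ₁ → GoodR B r → ∀ {ε h ρ a l : ℝ} {f g : G → ℝ} {F H : (Mat N)ˣ → ℂ}
      {η m : (Fin n → ℂ) → ℂ}, ε ≤ 1 / 1000 → 1 ≤ h → (∀ x, 0 < f x) → NS B r ε h (ρ * h) (nf f) F m →
      CF (ng f g) H → Tg B r h a l l F H η → PF r Ct h ρ a l (nf f) (fld f g) := by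
  obtain ⟨Ct, ρ₁, hCt, hρ₁, hch⟩ := chart_real B hG
  refine ⟨Ct, ρ₁, hCt, hρ₁, fun r hrρ hr {ε h ρ a l f g F H η m} hε hh hf hN hH hT => ?_⟩
  have hp := hr.pos
  have hne : ∀ z, nf f z ≠ 0 := fun z => (hN.pos z).ne'
  have hug : ∀ z, ng f g z = nf f z * fld f g z := by
    intro z
    have h1 := (hf 1).ne'
    have h2 := (hf z).ne'
    unfold ng nf fld
    field_simp
  have h4t : ∀ {z : G} {t : ℝ}, 0 ≤ t → t ≤ 1.001 * nN z ^ 2 → t ^ 2 ≤ 1.01 * nN z ^ 4 := by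
    intro z t h0 h1
    calc t ^ 2 ≤ (1.001 * nN z ^ 2) ^ 2 := pow_le_pow_left₀ h0 h1 2
      _ = 1.002001 * nN z ^ 4 := by ring
      _ ≤ _ := by
          have h7 : 0 ≤ nN z ^ 4 := pow_nonneg (nN_nonneg z) _
          linarith
  have hdens : ∀ z : G, nN z ≤ 0.95 * r → ∃ t e : ℝ, nf f z = Real.exp (-(h / 2) * t - e) ∧
      |t - nN z ^ 2| ≤ Ct * nN z ^ 4 ∧ |e| ≤ ρ * h * (1.01 * nN z ^ 4) ∧
      0.999 * nN z ^ 2 ≤ t ∧ |e| ≤ 1 / 1000 * h * t := by
    intro z hz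
    obtain ⟨x, e1, e2, e3, e4, e5, e6⟩ := hch r hrρ hr z hz
    have h1 := hN.st.eq x e2
    rw [e1, hN.one, one_mul, qC_real e3] at h1
    have h2 : nC x ^ 2 = nE (reP x) ^ 2 := by rw [nE_re_im, e3]; ring
    refine ⟨nE (reP x) ^ 2, (m x).re, ?_, e6, ?_, e4, ?_⟩
    · have h3 := congrArg (fun w => ‖w‖) h1
      beta_reduce at h3
      rw [hN.cf.norm_res, abs_of_pos (hN.pos z), Complex.norm_exp] at h3
      rw [h3]
      congr 1
      rw [Complex.sub_re]
      congr 1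
      have : (-((h : ℂ) / 2) * ((nE (reP x) ^ 2 : ℝ) : ℂ)) =
        ((-(h / 2) * nE (reP x) ^ 2 : ℝ) : ℂ) := by push_cast; ring
      rw [this, Complex.ofReal_re]
    · refine (Complex.abs_re_le_norm _).trans ((hN.st.bd x e2).trans ?_)
      refine mul_le_mul_of_nonneg_left ?_ hN.M0
      have h5 : nC x ^ 4 = (nE (reP x) ^ 2) ^ 2 := by rw [← h2]; ring
      rw [h5]
      exact h4t (sq_nonneg _) e5
    · refine (Complex.abs_re_le_norm _).trans ((hN.st.bd x e2).trans ?_)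
      have h5 : nC x ^ 4 = nC x ^ 2 * nE (reP x) ^ 2 := by rw [← h2]; ring
      rw [h5]
      have hx0 := nC_nonneg x
      have h6 : nC x ^ 2 ≤ r ^ 2 := pow_le_pow_left₀ hx0 e2.le 2
      have h7 : ρ * h * nC x ^ 2 ≤ 1 / 1000 * h := by
        calc ρ * h * nC x ^ 2 ≤ ρ * h * r ^ 2 := mul_le_mul_of_nonneg_left h6 hN.M0
          _ ≤ ε * h := hN.Ml
          _ ≤ _ := mul_le_mul_of_nonneg_right hε (by linarith)
      calc ρ * h * (nC x ^ 2 * nE (reP x) ^ 2) = ρ * h * nC x ^ 2 * nE (reP x) ^ 2 := by ring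
        _ ≤ _ := mul_le_mul_of_nonneg_right h7 (sq_nonneg _)
  refine ⟨fun z hz => ?_, fun z hz => ?_, fun z hz => ?_, fun z hz => ?_, fun z hz => ?_, hN.pos⟩
  · obtain ⟨t, e, g1, g2, g3, -, -⟩ := hdens z hz
    exact ⟨t, e, g1, g2, g3⟩
  · obtain ⟨x, e1, e2, e3, e4, e5, e6⟩ := hch r hrρ hr z hz
    have h1 := hT.near x e2
    rw [e1, hN.cf.res, hH.res, qC_real e3] at h1
    have h2 : nC x ^ 2 = nE (reP x) ^ 2 := by rw [nE_re_im, e3]; ring
    refine ⟨nE (reP x) ^ 2, (η x).re, ?_, e6, ?_⟩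
    · have h4 := congrArg Complex.re h1
      rw [Complex.ofReal_re, Complex.re_ofReal_mul, Complex.sub_re] at h4
      have : (-((a : ℂ) / 2) * ((nE (reP x) ^ 2 : ℝ) : ℂ)) =
        ((-(a / 2) * nE (reP x) ^ 2 : ℝ) : ℂ) := by push_cast; ring
      rw [this, Complex.ofReal_re, hug z] at h4
      exact mul_left_cancel₀ (hne z) h4
    · refine (Complex.abs_re_le_norm _).trans ((hT.bd x e2).trans ?_)
      refine mul_le_mul_of_nonneg_left ?_ hT.lam0
      have h5 : nC x ^ 4 = (nE (reP x) ^ 2) ^ 2 := by rw [← h2]; ring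
      rw [h5]
      exact h4t (sq_nonneg _) e5
  · obtain ⟨t, e, g1, -, -, g4, g5⟩ := hdens z hz
    rw [g1]
    refine Real.exp_le_exp.2 ?_
    have h1 := (abs_le.1 g5).1
    have h2 : h * (0.999 * nN z ^ 2) ≤ h * t := mul_le_mul_of_nonneg_left g4 (by linarith)
    have h3 : 0 ≤ h * nN z ^ 2 := mul_nonneg (by linarith) (sq_nonneg _)
    nlinarith
  · have h1 := far_up hr (by linarith) hN.cf hN.tb (z := z) (by linarith)
    rw [abs_of_pos (hN.pos z), hN.one, norm_one, one_mul] at h1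
    exact h1
  · have h1 := hT.far 0 z (by rw [nE_zero]; positivity) (by
      rw [nE_zero]
      have : (0.95 * r) ^ 2 < nN z ^ 2 := pow_lt_pow_left₀ hz (by positivity) two_ne_zero
      linarith)
    rw [rl_zero', uE_zero, one_mul, hH.norm_res, nE_zero] at h1
    have h2 : |ng f g z| = |fld f g z| * nf f z := by
      rw [hug z, abs_mul, abs_of_pos (hN.pos z)]; ring
    rw [← h2]
    refine h1.trans (mul_le_mul_of_nonneg_left (Real.exp_le_exp.2 ?_) hT.L0)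
    have h3 : (0.95 * r) ^ 2 ≤ min (nN z) r ^ 2 :=
      pow_le_pow_left₀ (by positivity) (le_min hz.le (by linarith)) 2
    have h4 : h * (0.95 * r) ^ 2 ≤ h * min (nN z) r ^ 2 := mul_le_mul_of_nonneg_left h3 (by linarith)
    have h5 : 0 ≤ r ^ 2 * h := by positivity
    nlinarith

end

end Pool.Agent.N453.MK
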