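import Mathlib
import Pool.Agent.N453.MK.Lim1

/-!
# The limit theory at short distances: passage to the limit
-/

open MeasureTheory Matrix Filter
open scoped Matrix.Norms.Frobenius ContDiff Topology
open Pool.Agent.H906R3.YM Pool.Agent.W793.YM Pool.Agent.TH618.YM Pool.Agent.N984.TW
open Pool.Agent.N991.MK
open Pool.Agent.N988.MK (NS St PT TSt IsoG qC nf ng eq_nf eq_ng)
open Pool.Agent.N989.MK (TT TTn H4 Adm TR TP nrm UT)
open Pool.Agent.N681.MK (dTn fld TanFlow evo)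

namespace Pool.Agent.N453.MK

set_option linter.unusedSectionVars false

noncomputable section

variable {N n : ℕ} {G : Subgroup (UN N)} {B : Frame G n}
variable [CompactSpace G] [MeasurableSpace G] [BorelSpace G] [SecondCountableTopology G]
  {μ : Measure G} [IsProbabilityMeasure μ] [μ.IsHaarMeasure] [μ.IsMulRightInvariant]
  [μ.IsInvInvariant]

/-- **the pointwise form for a sequence of lattice theories** -/
theorem pf_lattice (B : Frame G n) (μ : Measure G) [IsProbabilityMeasure μ] [μ.IsHaarMeasure]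
    [μ.IsMulRightInvariant] [μ.IsInvInvariant] (hG : IsClosed (G : Set (UN N))) :
    ∃ r₁ Ct : ℝ, 0 < r₁ ∧ 0 ≤ Ct ∧ ∀ r : ℝ, 0 < r → r ≤ r₁ → GoodR B r →
      ∀ {ε h0 C1 κ h1 C' c C R : ℝ} {Dm : ℕ} {o : G → ℝ}, ε ≤ 1 / 1000 → 0 < κ → Continuous o →
        TanFlow μ (PT B μ r ε h0 C1) (TSt B r) o κ h1 C' Dm → 0 < c → 0 ≤ C → 0 ≤ R →
      ∀ {f : ℕ → G → ℝ} {l : ℕ → ℕ}, (∀ i, Adm (f i)) → Tendsto l atTop atTop →
        (∀ hq : ℝ, ∃ k0 : ℕ, ∀ k : ℕ, k0 ≤ k → ∃ Hu : ℝ, ∀ᶠ i in atTop, ∃ h ρ,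
          TP μ (PT B μ r ε h0 C1) c C hq R (f i) (l i - k) h ρ ∧ h (l i - k) ≤ Hu) →
      ∃ Bn : ℝ, 0 ≤ Bn ∧ ∀ δ : ℝ, 0 < δ → ∃ m0 : ℕ, 1 ≤ m0 ∧ ∀ m : ℕ, m0 ≤ m → ∀ᶠ i in atTop,
        ∃ h ρ a lam : ℝ, 1 ≤ h ∧ |h - c * m| ≤ δ * m ∧ 0 ≤ ρ ∧ ρ ≤ δ ∧ |a - κ| ≤ Bn / h ∧
          a ≤ 2 * κ ∧ 0 ≤ a ∧ 0 ≤ lam ∧ lam ≤ Bn ∧
          PF r Ct h ρ a lam (nf (TTn μ (f i) (l i - m))) (evo μ (f i) o (l i - m)) := by
  obtain ⟨Ct, ρ₁, hCt, hρ₁, hpf⟩ := pf_of B hG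
  refine ⟨ρ₁, Ct, hρ₁, hCt, fun r hr hrr hgr {ε h0 C1 κ h1 C' c C R Dm o} hε hκ ho TF hc hC
    hR f l hf hl hex => ?_⟩
  obtain ⟨Hf, Bn, hHf, hBn, hCH, hfar⟩ := far_traj (B := B) (μ := μ) (h1 := h1) hG hgr
    hε hκ ho TF hc hC hR
  refine ⟨Bn, hBn, fun δ hδ => ?_⟩
  obtain ⟨hq, k0, m0, hHq, hm0⟩ := coupling_lattice hc hC hR hl hex Hf hδ
  refine ⟨m0 + 1, by omega, fun m hm => ?_⟩
  filter_upwards [hm0 m (by omega)] with i hi
  obtain ⟨h, ρ, tp, g1, g2, g3, g4⟩ := hi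
  obtain ⟨hrat, hTD⟩ := hfar hq (f i) _ h ρ hHq (hf i) tp
  obtain ⟨a, lam, D, ha0, ha1, ha2, hl⟩ := hTD (l i - m) g2
  have hlo := tp.lo (l i - m) g2
  have hs1 : 1 ≤ h (l i - m) := hHf.trans (hHq.trans hlo)
  obtain ⟨F, H, η, mm, hN, x2, x3⟩ := D.ex
  have hρ0 : 0 ≤ ρ (l i - m) := nonneg_of_mul_nonneg_left hN.M0 (by linarith)
  exact ⟨h (l i - m), ρ (l i - m), a, lam, hs1, g3, hρ0, g4, ha0, ha2, by linarith, D.l0, hl,
    hpf r hrr hgr hε hs1 ((hf i).TTn (μ := μ) _).pos hN x2 x3⟩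

/-- the normalised densities converge -/
lemma nf_conv {f : ℕ → G → ℝ} {l : ℕ → ℕ} (hf : ∀ i, Adm (f i)) {F : ℤ → G → ℝ}
    (hF : ∀ k, Adm (F k))
    (hconv : ∀ k : ℤ, UT (fun i x => nrm μ (TTn μ (f i) ((l i : ℤ) + k).toNat) x) (F k))
    (m : ℕ) (z : G) : Tendsto (fun i => nf (TTn μ (f i) (l i - m)) z) atTop
      (𝓝 (F (-m) z / F (-m) 1)) := by
  have key : ∀ x : G, Tendsto (fun i => nrm μ (TTn μ (f i) (l i - m)) x) atTop
      (𝓝 (F (-m) x)) := by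
    intro x
    rw [Metric.tendsto_atTop']
    intro ε hε
    obtain ⟨n, hn⟩ := eventually_atTop.1 (hconv (-m) ε hε)
    refine ⟨n, fun i hi => ?_⟩
    have h1 := hn i hi.le x
    have e : ((l i : ℤ) + -(m : ℤ)).toNat = l i - m := by omega
    beta_reduce at h1
    rw [e] at h1
    exact h1
  refine ((key z).div (key 1) ((hF (-m)).pos 1).ne').congr fun i => ?_
  have hA := (hf i).TTn (μ := μ) (l i - m)
  have hI := hA.ipos (μ := μ)
  have h1 := hA.pos 1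
  show nrm μ (TTn μ (f i) (l i - m)) z / nrm μ (TTn μ (f i) (l i - m)) 1 = _
  unfold nrm nf
  field_simp

lemma evo_conv {f : ℕ → G → ℝ} {l : ℕ → ℕ} {o : G → ℝ} {Φ : ℤ → G → ℝ}
    (hΦ : ∀ k : ℤ, UT (fun i => evo μ (f i) o ((l i : ℤ) + k).toNat) (Φ k))
    (m : ℕ) (z : G) : Tendsto (fun i => evo μ (f i) o (l i - m) z) atTop (𝓝 (Φ (-m) z)) := by
  rw [Metric.tendsto_atTop']
  intro ε hε
  obtain ⟨n, hn⟩ := eventually_atTop.1 (hΦ (-m) ε hε)
  refine ⟨n, fun i hi => ?_⟩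
  have h1 := hn i hi.le z
  have e : ((l i : ℤ) + -(m : ℤ)).toNat = l i - m := by omega
  beta_reduce at h1
  rw [e] at h1
  exact h1

/-- The limit theory at short distances, in pointwise form: the density `exp (-w)` and the field at
the scale `2 ^ (-m)` -/
structure LF (r K c κ δ : ℝ) (m : ℕ) (q u : G → ℝ) : Prop where
  dens : ∀ z : G, nN z ≤ 0.95 * r → |-Real.log (q z) - c * m / 2 * nN z ^ 2| ≤
    δ * m * nN z ^ 2 + K * m * nN z ^ 4
  field : ∀ z : G, nN z ≤ 0.95 * r → |u z + κ / 2 * nN z ^ 2| ≤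
    K / m * nN z ^ 2 + K * nN z ^ 4
  up : ∀ z : G, nN z ≤ 0.95 * r → q z ≤ Real.exp (-(0.245 * c * m * nN z ^ 2))
  dfar : ∀ z : G, 0.95 * r < nN z → q z ≤ Real.exp (-(0.015 * r ^ 2 * c * m))
  ffar : ∀ z : G, 0.95 * r < nN z → |u z| * q z ≤ K * Real.exp (-(0.015 * r ^ 2 * c * m))
  pos : ∀ z, 0 < q z

/-- **the limit theory at short distances** -/
theorem lf_limit (B : Frame G n) (μ : Measure G) [IsProbabilityMeasure μ] [μ.IsHaarMeasure]
    [μ.IsMulRightInvariant] [μ.IsInvInvariant] (hG : IsClosed (G : Set (UN N))) :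
    ∃ r₁ : ℝ, 0 < r₁ ∧ ∀ r : ℝ, 0 < r → r ≤ r₁ → GoodR B r →
      ∀ {ε h0 C1 κ h1 C' c C R : ℝ} {Dm : ℕ} {o : G → ℝ}, ε ≤ 1 / 1000 → 0 < κ → Continuous o →
        TanFlow μ (PT B μ r ε h0 C1) (TSt B r) o κ h1 C' Dm → 0 < c → 0 ≤ C → 0 ≤ R →
      ∀ {f : ℕ → G → ℝ} {l : ℕ → ℕ}, (∀ i, Adm (f i)) → Tendsto l atTop atTop →
        (∀ hq : ℝ, ∃ k0 : ℕ, ∀ k : ℕ, k0 ≤ k → ∃ Hu : ℝ, ∀ᶠ i in atTop, ∃ h ρ,
          TP μ (PT B μ r ε h0 C1) c C hq R (f i) (l i - k) h ρ ∧ h (l i - k) ≤ Hu) →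
      ∀ {F Φ : ℤ → G → ℝ}, (∀ k, Adm (F k)) →
        (∀ k : ℤ, UT (fun i x => nrm μ (TTn μ (f i) ((l i : ℤ) + k).toNat) x) (F k)) →
        (∀ k : ℤ, UT (fun i => evo μ (f i) o ((l i : ℤ) + k).toNat) (Φ k)) →
      ∃ K : ℝ, 0 ≤ K ∧ ∀ δ : ℝ, 0 < δ → ∃ m0 : ℕ, 1 ≤ m0 ∧ ∀ m : ℕ, m0 ≤ m →
        LF r K c κ δ m (fun z => F (-m) z / F (-m) 1) (Φ (-m)) := by
  obtain ⟨r₁, Ct, hr₁, hCt, hpf⟩ := pf_lattice B μ hG
  refine ⟨r₁, hr₁, fun r hr hrr hgr {ε h0 C1 κ h1 C' c C R Dm o} hε hκ ho TF hc hC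
    hR f l hf hl hex F Φ hF hconv hΦ => ?_⟩
  obtain ⟨Bn, hBn, hpf⟩ := hpf r hr hrr hgr hε hκ ho TF hc hC hR hf hl hex
  obtain ⟨K, hK⟩ : ∃ K, K = (2 * c) * (Ct / 2 + 1.01 * (c / 2)) + (Bn / c + Bn) +
    (κ * Ct + 1.01 * Bn) := ⟨_, rfl⟩
  have hK0 : 0 ≤ K := by rw [hK]; positivity
  refine ⟨K, hK0, fun δ hδ => ?_⟩
  obtain ⟨δ', hδ'⟩ : ∃ δ', δ' = min δ (c / 2) := ⟨_, rfl⟩
  have hδ'0 : 0 < δ' := by rw [hδ']; positivity
  have hδ'1 : δ' ≤ δ := by rw [hδ']; exact min_le_left _ _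
  have hδ'2 : δ' ≤ c / 2 := by rw [hδ']; exact min_le_right _ _
  obtain ⟨m0, hm0, hpf⟩ := hpf δ' hδ'0
  refine ⟨m0, hm0, fun m hm => ?_⟩
  have hmp : (0 : ℝ) < m := by exact_mod_cast (by omega : 0 < m)
  have hq := hpf m hm
  have c1 : ∀ z : G, Tendsto (fun i => nf (TTn μ (f i) (l i - m)) z) atTop
      (𝓝 (F (-m) z / F (-m) 1)) := nf_conv hf hF hconv m
  have c2 : ∀ z : G, Tendsto (fun i => evo μ (f i) o (l i - m) z) atTop (𝓝 (Φ (-m) z)) :=
    evo_conv hΦ m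
  have hqpos : ∀ z : G, 0 < F (-m) z / F (-m) 1 := fun z =>
    div_pos ((hF _).pos z) ((hF _).pos 1)
  -- the bounds of the coupling
  have hh : ∀ h : ℝ, |h - c * m| ≤ δ' * m → c / 2 * m ≤ h ∧ h ≤ 2 * c * m := by
    intro h h1
    obtain ⟨h2, h3⟩ := abs_le.1 h1
    have h4 : δ' * m ≤ c / 2 * m := mul_le_mul_of_nonneg_right hδ'2 hmp.le
    have h5 : 0 ≤ c * m := by positivity
    constructor <;> linarith
  refine ⟨fun z hz => ?_, fun z hz => ?_, fun z hz => ?_, fun z hz => ?_, fun z hz => ?_, hqpos⟩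
  · have h1 : Tendsto (fun i => |-Real.log (nf (TTn μ (f i) (l i - m)) z) -
        c * m / 2 * nN z ^ 2|) atTop
        (𝓝 |-Real.log (F (-m) z / F (-m) 1) - c * m / 2 * nN z ^ 2|) :=
      ((((c1 z).log (hqpos z).ne').neg).sub_const _).abs
    refine le_of_tendsto h1 (hq.mono fun i hi => ?_)
    obtain ⟨h, ρ, a, lam, g1, g2, g3, g4, g5, g6, g7, g8, g9, P⟩ := hi
    obtain ⟨t, e, p1, p2, p3⟩ := P.dens z hz
    obtain ⟨k1, k2⟩ := hh h g2
    rw [p1, Real.log_exp]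
    have hz2 : 0 ≤ nN z ^ 2 := sq_nonneg _
    have hz4 : 0 ≤ nN z ^ 4 := pow_nonneg (nN_nonneg z) _
    have e1 : -(-(h / 2) * t - e) - c * m / 2 * nN z ^ 2 =
        (h - c * m) / 2 * nN z ^ 2 + (h / 2 * (t - nN z ^ 2) + e) := by ring
    rw [e1]
    have a1 : |(h - c * m) / 2 * nN z ^ 2| ≤ δ * m * nN z ^ 2 := by
      rw [abs_mul, abs_div, abs_of_nonneg hz2, abs_of_pos (by norm_num : (0 : ℝ) < 2)]
      refine mul_le_mul_of_nonneg_right ?_ hz2
      have : δ' * m ≤ δ * m := mul_le_mul_of_nonneg_right hδ'1 hmp.le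
      have : 0 ≤ δ * m := by positivity
      linarith
    have a2 : |h / 2 * (t - nN z ^ 2)| ≤ (2 * c * m) / 2 * (Ct * nN z ^ 4) := by
      rw [abs_mul, abs_of_nonneg (by linarith : 0 ≤ h / 2)]
      refine mul_le_mul (by linarith) p2 (abs_nonneg _) (by positivity)
    have a3 : |e| ≤ c / 2 * (2 * c * m) * (1.01 * nN z ^ 4) := by
      refine p3.trans (mul_le_mul_of_nonneg_right ?_ (by positivity))
      exact mul_le_mul (g4.trans hδ'2) k2 (by linarith) (by positivity)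
    have a4 : K * m * nN z ^ 4 = (2 * c * m) / 2 * (Ct * nN z ^ 4) +
        c / 2 * (2 * c * m) * (1.01 * nN z ^ 4) + ((Bn / c + Bn) +
        (κ * Ct + 1.01 * Bn)) * (m * nN z ^ 4) := by
      rw [hK]; ring
    have a5 : 0 ≤ ((Bn / c + Bn) + (κ * Ct + 1.01 * Bn)) * (m * nN z ^ 4) := by positivity
    rw [a4]
    refine (abs_add_le _ _).trans ?_
    have a6 := abs_add_le (h / 2 * (t - nN z ^ 2)) e
    linarith
  · have h1 : Tendsto (fun i => |evo μ (f i) o (l i - m) z + κ / 2 * nN z ^ 2|) atTop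
        (𝓝 |Φ (-m) z + κ / 2 * nN z ^ 2|) := ((c2 z).add_const _).abs
    refine le_of_tendsto h1 (hq.mono fun i hi => ?_)
    obtain ⟨h, ρ, a, lam, g1, g2, g3, g4, g5, g6, g7, g8, g9, P⟩ := hi
    obtain ⟨t, e, p1, p2, p3⟩ := P.field z hz
    obtain ⟨k1, k2⟩ := hh h g2
    have hz2 : 0 ≤ nN z ^ 2 := sq_nonneg _
    have hz4 : 0 ≤ nN z ^ 4 := pow_nonneg (nN_nonneg z) _
    have e1 : evo μ (f i) o (l i - m) z + κ / 2 * nN z ^ 2 =
        -((a - κ) / 2 * nN z ^ 2) + (-(a / 2 * (t - nN z ^ 2)) + -e) := by rw [p1]; ring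
    rw [e1]
    have a1 : |-((a - κ) / 2 * nN z ^ 2)| ≤ Bn / c / m * nN z ^ 2 := by
      rw [abs_neg, abs_mul, abs_div, abs_of_nonneg hz2, abs_of_pos (by norm_num : (0 : ℝ) < 2)]
      refine mul_le_mul_of_nonneg_right ?_ hz2
      have h3 : Bn / h ≤ Bn / (c / 2 * m) := div_le_div_of_nonneg_left hBn (by positivity) k1
      have h4 : Bn / (c / 2 * m) / 2 = Bn / c / m := by field_simp
      linarith
    have a2 : |-(a / 2 * (t - nN z ^ 2))| ≤ κ * (Ct * nN z ^ 4) := by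
      rw [abs_neg, abs_mul, abs_of_nonneg (by linarith : 0 ≤ a / 2)]
      exact mul_le_mul (by linarith) p2 (abs_nonneg _) (by positivity)
    have a3 : |-e| ≤ Bn * (1.01 * nN z ^ 4) := by
      rw [abs_neg]
      exact p3.trans (mul_le_mul_of_nonneg_right g9 (by positivity))
    have a4 : K / m * nN z ^ 2 = Bn / c / m * nN z ^ 2 +
        ((2 * c) * (Ct / 2 + 1.01 * (c / 2)) + Bn + (κ * Ct + 1.01 * Bn)) * (nN z ^ 2 / m) := by
      rw [hK]; field_simp; ring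
    have a5 : 0 ≤ ((2 * c) * (Ct / 2 + 1.01 * (c / 2)) + Bn + (κ * Ct + 1.01 * Bn)) *
        (nN z ^ 2 / m) := by positivity
    have a6 : K * nN z ^ 4 = κ * (Ct * nN z ^ 4) + Bn * (1.01 * nN z ^ 4) +
        ((2 * c) * (Ct / 2 + 1.01 * (c / 2)) + (Bn / c + Bn)) * nN z ^ 4 := by
      rw [hK]; ring
    have a7 : 0 ≤ ((2 * c) * (Ct / 2 + 1.01 * (c / 2)) + (Bn / c + Bn)) * nN z ^ 4 := by positivity
    rw [a4, a6]
    refine (abs_add_le _ _).trans ?_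
    have a8 := abs_add_le (-(a / 2 * (t - nN z ^ 2))) (-e)
    linarith
  · refine le_of_tendsto (c1 z) (hq.mono fun i hi => ?_)
    obtain ⟨h, ρ, a, lam, g1, g2, g3, g4, g5, g6, g7, g8, g9, P⟩ := hi
    obtain ⟨k1, k2⟩ := hh h g2
    refine (P.up z hz).trans (Real.exp_le_exp.2 ?_)
    have h3 : c / 2 * m * nN z ^ 2 ≤ h * nN z ^ 2 := mul_le_mul_of_nonneg_right k1 (sq_nonneg _)
    linarith
  · refine le_of_tendsto (c1 z) (hq.mono fun i hi => ?_)
    obtain ⟨h, ρ, a, lam, g1, g2, g3, g4, g5, g6, g7, g8, g9, P⟩ := hi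
    obtain ⟨k1, k2⟩ := hh h g2
    refine (P.dfar z hz).trans (Real.exp_le_exp.2 ?_)
    have h3 : r ^ 2 * (c / 2 * m) ≤ r ^ 2 * h := mul_le_mul_of_nonneg_left k1 (sq_nonneg _)
    linarith
  · refine le_of_tendsto ((c2 z).abs.mul (c1 z)) (hq.mono fun i hi => ?_)
    obtain ⟨h, ρ, a, lam, g1, g2, g3, g4, g5, g6, g7, g8, g9, P⟩ := hi
    obtain ⟨k1, k2⟩ := hh h g2
    have h3 : r ^ 2 * (c / 2 * m) ≤ r ^ 2 * h := mul_le_mul_of_nonneg_left k1 (sq_nonneg _)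
    have h4 : lam ≤ K := by
      refine g9.trans ?_
      rw [hK]
      have : 0 ≤ (2 * c) * (Ct / 2 + 1.01 * (c / 2)) + Bn / c + (κ * Ct + 1.01 * Bn) := by
        positivity
      linarith
    refine (P.ffar z hz).trans ?_
    refine mul_le_mul h4 (Real.exp_le_exp.2 ?_) (Real.exp_pos _).le hK0
    linarith

/-- **the scaling limit of the density and of the field** -/
theorem lf_dens {r K c κ : ℝ} (hr : 0 < r) {q u : ℕ → G → ℝ}
    (H : ∀ δ : ℝ, 0 < δ → ∃ m0 : ℕ, 1 ≤ m0 ∧ ∀ m : ℕ, m0 ≤ m → LF r K c κ δ m (q m) (u m))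
    {ι : Type*} {L : Filter ι} [L.NeBot] {M : ι → ℕ} (hM : Tendsto M L atTop) {z : ι → G} {t : ℝ}
    (hz : Tendsto (fun i => (M i : ℝ) * nN (z i) ^ 2) L (𝓝 t)) :
    Tendsto (fun i => q (M i) (z i)) L (𝓝 (Real.exp (-(c / 2 * t)))) ∧
      Tendsto (fun i => (M i : ℝ) * u (M i) (z i)) L (𝓝 (-(κ / 2 * t))) := by
  -- the points tend to the identity
  have hinv : Tendsto (fun i => ((M i : ℝ))⁻¹) L (𝓝 0) :=
    (tendsto_inv_atTop_nhds_zero_nat (𝕜 := ℝ)).comp hM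
  have hM1 : ∀ m0 : ℕ, ∀ᶠ i in L, m0 ≤ M i := fun m0 => hM.eventually (eventually_ge_atTop m0)
  have hz2 : Tendsto (fun i => nN (z i) ^ 2) L (𝓝 0) := by
    have h1 := hz.mul hinv
    rw [mul_zero] at h1
    refine h1.congr' ?_
    filter_upwards [hM1 1] with i hi
    have : (M i : ℝ) ≠ 0 := by
      have : (1 : ℝ) ≤ M i := by exact_mod_cast hi
      linarith
    field_simp
  have hzs : ∀ᶠ i in L, nN (z i) ≤ 0.95 * r := by
    filter_upwards [hz2.eventually (gt_mem_nhds (by positivity : (0 : ℝ) < (0.95 * r) ^ 2))]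
      with m hm
    exact (abs_le_of_sq_le_sq' hm.le (by positivity)).2
  have hz4 : Tendsto (fun i => (M i : ℝ) * nN (z i) ^ 4) L (𝓝 0) := by
    have h1 := hz.mul hz2
    rw [mul_zero] at h1
    refine h1.congr fun m => ?_
    ring
  have ht0 : 0 ≤ t := ge_of_tendsto' hz fun m => by positivity
  constructor
  · have key : Tendsto (fun i => -Real.log (q (M i) (z i))) L (𝓝 (c / 2 * t)) := by
      rw [Metric.tendsto_nhds]
      intro e he
      obtain ⟨m0, hm0, H1⟩ := H (e / (4 * (t + 1))) (by positivity)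
      have h1 : Tendsto (fun i => c / 2 * ((M i : ℝ) * nN (z i) ^ 2)) L
          (𝓝 (c / 2 * t)) := hz.const_mul _
      have h2 : Tendsto (fun i => e / (4 * (t + 1)) * ((M i : ℝ) * nN (z i) ^ 2) +
          K * ((M i : ℝ) * nN (z i) ^ 4)) L (𝓝 (e / (4 * (t + 1)) * t + K * 0)) :=
        (hz.const_mul _).add (hz4.const_mul _)
      have h3 : e / (4 * (t + 1)) * t + K * 0 < e / 2 := by
        rw [mul_zero, add_zero, div_mul_eq_mul_div, div_lt_div_iff₀ (by positivity) (by norm_num)]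
        nlinarith
      filter_upwards [Metric.tendsto_nhds.1 h1 (e / 2) (half_pos he),
        h2.eventually (gt_mem_nhds h3), hzs, hM1 m0] with i g1 g2 g0 q4
      have g3 := (H1 (M i) q4).dens (z i) g0
      rw [Real.dist_eq] at g1 ⊢
      have e1 : -Real.log (q (M i) (z i)) - c / 2 * t =
          (-Real.log (q (M i) (z i)) - c * M i / 2 * nN (z i) ^ 2) +
            (c / 2 * ((M i : ℝ) * nN (z i) ^ 2) - c / 2 * t) := by ring
      rw [e1]
      refine lt_of_le_of_lt (abs_add_le _ _) ?_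
      have e2 : e / (4 * (t + 1)) * M i * nN (z i) ^ 2 + K * M i * nN (z i) ^ 4 =
        e / (4 * (t + 1)) * ((M i : ℝ) * nN (z i) ^ 2) + K * ((M i : ℝ) * nN (z i) ^ 4) := by ring
      rw [e2] at g3
      linarith
    have h1 := (Real.continuous_exp.tendsto _).comp key.neg
    obtain ⟨m0, hm0, H1⟩ := H 1 one_pos
    refine h1.congr' ?_
    filter_upwards [hM1 m0] with i hm
    show Real.exp (- -Real.log (q (M i) (z i))) = _
    rw [neg_neg, Real.exp_log ((H1 (M i) hm).pos _)]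
  · obtain ⟨m0, hm0, H1⟩ := H 1 one_pos
    have h1 : Tendsto (fun i => (M i : ℝ) * u (M i) (z i) + κ / 2 * ((M i : ℝ) * nN (z i) ^ 2)) L
        (𝓝 0) := by
      rw [tendsto_zero_iff_abs_tendsto_zero]
      have h2 : Tendsto (fun i => K * nN (z i) ^ 2 + K * ((M i : ℝ) * nN (z i) ^ 4)) L
          (𝓝 (K * 0 + K * 0)) := (hz2.const_mul _).add (hz4.const_mul _)
      rw [mul_zero, add_zero] at h2
      refine squeeze_zero' (Eventually.of_forall fun m => abs_nonneg _) ?_ h2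
      filter_upwards [hzs, hM1 m0] with i hi1 hi2
      have hmp : (0 : ℝ) < M i := by exact_mod_cast (by omega : 0 < M i)
      have g3 := (H1 (M i) hi2).field (z i) hi1
      show |(M i : ℝ) * u (M i) (z i) + κ / 2 * ((M i : ℝ) * nN (z i) ^ 2)| ≤ _
      have e1 : (M i : ℝ) * u (M i) (z i) + κ / 2 * ((M i : ℝ) * nN (z i) ^ 2) =
        M i * (u (M i) (z i) + κ / 2 * nN (z i) ^ 2) := by ring
      rw [e1, abs_mul, abs_of_pos hmp]
      calc (M i : ℝ) * |u (M i) (z i) + κ / 2 * nN (z i) ^ 2| ≤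
            M i * (K / M i * nN (z i) ^ 2 + K * nN (z i) ^ 4) :=
            mul_le_mul_of_nonneg_left g3 hmp.le
        _ = _ := by field_simp
    have h2 := h1.sub (hz.const_mul (κ / 2))
    rw [zero_sub] at h2
    refine h2.congr fun m => ?_
    ring

/-- **the domination of the density and of the field** -/
theorem lf_dom {r K c κ : ℝ} (hr : 0 < r) (hr1 : r ≤ 1) (hc : 0 < c) (hκ : 0 < κ) (hK : 0 ≤ K)
    {q u : ℕ → G → ℝ}
    (H : ∀ δ : ℝ, 0 < δ → ∃ m0 : ℕ, 1 ≤ m0 ∧ ∀ m : ℕ, m0 ≤ m → LF r K c κ δ m (q m) (u m)) :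
    ∃ (C' c' : ℝ) (m0 : ℕ), 0 < C' ∧ 0 < c' ∧ 1 ≤ m0 ∧ ∀ m : ℕ, m0 ≤ m → ∀ z : G,
      q m z ≤ C' * Real.exp (-(c' * m * nN z ^ 2)) ∧
      m * |u m z| * q m z ≤ C' * Real.exp (-(c' * m * nN z ^ 2)) := by
  obtain ⟨m0, hm0, H1⟩ := H 1 one_pos
  obtain ⟨b, hb⟩ : ∃ b : ℝ, b = 0.01 * r ^ 2 * c / (4 * N + 1) := ⟨_, rfl⟩
  have hb0 : 0 < b := by rw [hb]; positivity
  have hb1 : b * (4 * N + 1) = 0.01 * r ^ 2 * c := by rw [hb]; field_simp
  have hbc : b ≤ 0.01 * c := by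
    rw [hb, div_le_iff₀ (by positivity)]
    have h1 : r ^ 2 ≤ 1 := pow_le_one₀ hr.le hr1
    have h2 : 0.01 * r ^ 2 * c ≤ 0.01 * c := by nlinarith
    have h3 : 0 ≤ 0.01 * c * (4 * N) := by positivity
    linarith
  obtain ⟨K2, hK2⟩ : ∃ K2, K2 = κ / 2 + 2 * K := ⟨_, rfl⟩
  have hK20 : 0 < K2 := by rw [hK2]; positivity
  obtain ⟨C', hC'⟩ : ∃ C', C' = 1 + K2 / (0.2 * c) + K / (0.005 * r ^ 2 * c) := ⟨_, rfl⟩
  have hN2 : ∀ z : G, nN z ^ 2 ≤ 4 * N := fun z => by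
    have h6 := pow_le_pow_left₀ (nN_nonneg z) (nN_le z) 2
    rw [mul_pow, Real.sq_sqrt (Nat.cast_nonneg N)] at h6
    linarith
  have hts : ∀ s b' : ℝ, 0 < b' → s * Real.exp (-(b' * s)) ≤ 1 / b' := by
    intro s b' hb'
    rw [Real.exp_neg, ← div_eq_mul_inv, div_le_div_iff₀ (Real.exp_pos _) hb']
    have := Real.add_one_le_exp (b' * s)
    linarith
  refine ⟨C', b, m0, by rw [hC']; positivity, hb0, hm0, fun m hm z => ?_⟩
  have hmp : (0 : ℝ) < m := by exact_mod_cast (by omega : 0 < m)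
  have hm1 : (1 : ℝ) ≤ m := by exact_mod_cast (by omega : 1 ≤ m)
  have L := H1 m hm
  have hq0 := L.pos z
  have hz2 : 0 ≤ nN z ^ 2 := sq_nonneg _
  have hE0 : 0 < Real.exp (-(b * m * nN z ^ 2)) := Real.exp_pos _
  have hC1 : 1 ≤ C' := by
    rw [hC']
    have h1 : 0 ≤ K2 / (0.2 * c) := by positivity
    have h2 : 0 ≤ K / (0.005 * r ^ 2 * c) := by positivity
    linarith
  rcases le_or_gt (nN z) (0.95 * r) with hz | hz
  · have h1 := L.up z hz
    have hbs : b * m * nN z ^ 2 ≤ 0.01 * c * m * nN z ^ 2 := by gcongr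
    have hcs : 0 ≤ c * m * nN z ^ 2 := by positivity
    constructor
    · refine h1.trans ?_
      calc Real.exp (-(0.245 * c * m * nN z ^ 2)) ≤ 1 * Real.exp (-(b * m * nN z ^ 2)) := by
            rw [one_mul]
            exact Real.exp_le_exp.2 (by linarith)
        _ ≤ _ := by gcongr
    · have h2 := L.field z hz
      have h3 : |u m z| ≤ K2 * nN z ^ 2 := by
        have h4 : |κ / 2 * nN z ^ 2| = κ / 2 * nN z ^ 2 := abs_of_nonneg (by positivity)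
        have h5 : |u m z| ≤ |u m z + κ / 2 * nN z ^ 2| + |κ / 2 * nN z ^ 2| := by
          have := abs_sub (u m z + κ / 2 * nN z ^ 2) (κ / 2 * nN z ^ 2)
          rwa [add_sub_cancel_right] at this
        have h6 : K / m * nN z ^ 2 ≤ K * nN z ^ 2 := by
          refine mul_le_mul_of_nonneg_right (div_le_self hK hm1) hz2
        have h7 : K * nN z ^ 4 ≤ K * nN z ^ 2 := by
          refine mul_le_mul_of_nonneg_left ?_ hK
          exact pow_le_pow_of_le_one (nN_nonneg z) (by linarith) (by norm_num)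
        rw [hK2]
        linarith
      have e1 : Real.exp (-(0.245 * c * m * nN z ^ 2)) ≤
          Real.exp (-((0.2 * c) * (m * nN z ^ 2))) * Real.exp (-(b * m * nN z ^ 2)) := by
        rw [← Real.exp_add]
        exact Real.exp_le_exp.2 (by linarith)
      calc m * |u m z| * q m z ≤ m * (K2 * nN z ^ 2) *
            (Real.exp (-((0.2 * c) * (m * nN z ^ 2))) * Real.exp (-(b * m * nN z ^ 2))) := by
            gcongr
            exact h1.trans e1
        _ = K2 * ((m * nN z ^ 2) * Real.exp (-((0.2 * c) * (m * nN z ^ 2)))) *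
            Real.exp (-(b * m * nN z ^ 2)) := by ring
        _ ≤ K2 * (1 / (0.2 * c)) * Real.exp (-(b * m * nN z ^ 2)) := by
            gcongr
            exact hts _ _ (by positivity)
        _ ≤ _ := by
            refine mul_le_mul_of_nonneg_right ?_ hE0.le
            rw [hC']
            have h2 : 0 ≤ K / (0.005 * r ^ 2 * c) := by positivity
            have h3 : K2 * (1 / (0.2 * c)) = K2 / (0.2 * c) := by ring
            linarith
  · have h1 := L.dfar z hz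
    have h2 := L.ffar z hz
    have hbs : b * m * nN z ^ 2 ≤ 0.01 * r ^ 2 * c * m := by
      calc b * m * nN z ^ 2 ≤ b * m * (4 * N) := by
            have := hN2 z
            gcongr
        _ ≤ b * m * (4 * N + 1) := by gcongr; linarith
        _ = (b * (4 * N + 1)) * m := by ring
        _ = _ := by rw [hb1]
    have hcs : 0 ≤ r ^ 2 * c * m := by positivity
    constructor
    · refine h1.trans ?_
      calc Real.exp (-(0.015 * r ^ 2 * c * m)) ≤ 1 * Real.exp (-(b * m * nN z ^ 2)) := by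
            rw [one_mul]
            exact Real.exp_le_exp.2 (by linarith)
        _ ≤ _ := by gcongr
    · have e1 : Real.exp (-(0.015 * r ^ 2 * c * m)) ≤
          Real.exp (-((0.005 * r ^ 2 * c) * m)) * Real.exp (-(b * m * nN z ^ 2)) := by
        rw [← Real.exp_add]
        exact Real.exp_le_exp.2 (by linarith)
      calc m * |u m z| * q m z = m * (|u m z| * q m z) := by ring
        _ ≤ m * (K * (Real.exp (-((0.005 * r ^ 2 * c) * m)) *
            Real.exp (-(b * m * nN z ^ 2)))) := by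
            refine mul_le_mul_of_nonneg_left (h2.trans ?_) hmp.le
            exact mul_le_mul_of_nonneg_left e1 hK
        _ = K * (m * Real.exp (-((0.005 * r ^ 2 * c) * m))) * Real.exp (-(b * m * nN z ^ 2)) := by
            ring
        _ ≤ K * (1 / (0.005 * r ^ 2 * c)) * Real.exp (-(b * m * nN z ^ 2)) := by
            gcongr
            exact hts _ _ (by positivity)
        _ ≤ _ := by
            refine mul_le_mul_of_nonneg_right ?_ hE0.le
            rw [hC']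
            have h2 : 0 ≤ K2 / (0.2 * c) := by positivity
            have h3 : K * (1 / (0.005 * r ^ 2 * c)) = K / (0.005 * r ^ 2 * c) := by ring
            linarith

end

end Pool.Agent.N453.MK
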