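import Mathlib
import Pool.Agent.N453.MK.Lim2
import Pool.Agent.N839.T3.Sc1

/-!
# The scaling limit of the limit theory at short distances
-/

open MeasureTheory Matrix Filter
open scoped Matrix.Norms.Frobenius ContDiff Topology
open Pool.Agent.H906R3.YM Pool.Agent.W793.YM Pool.Agent.TH618.YM Pool.Agent.N984.TW
open Pool.Agent.N991.MK
open Pool.Agent.N988.MK (NS St PT TSt IsoG qC nf ng eq_nf eq_ng)
open Pool.Agent.N989.MK (TT TTn H4 Adm TR TP nrm UT)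
open Pool.Agent.N681.MK (dTn fld TanFlow evo)
open Pool.Agent.N109.T3 (nz gs cvR fr)
open Pool.Agent.N839.T3 (em SD)

namespace Pool.Agent.N453.MK

set_option linter.unusedSectionVars false

noncomputable section

variable {N n : ℕ} {G : Subgroup (UN N)} {B : Frame G n}

/-- the distance to the identity in the scaled coordinates -/
lemma em_dist [CompactSpace G] [MeasurableSpace G] [BorelSpace G] (B : Frame G n)
    (hG : IsClosed (G : Set (UN N))) {c : ℝ} (hc : 0 < c) (x : Fin n → ℝ) :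
    Tendsto (fun p : ℕ × (Fin n → ℝ) => (p.1 : ℝ) * nN (em B hG (c * p.1) p.2) ^ 2)
      (atTop ×ˢ 𝓝 x) (𝓝 (nE x ^ 2 / c)) := by
  obtain ⟨Cw, ρ, hCw, hρ, hw⟩ := nN_sq_near B hG
  have cE : Continuous fun y : Fin n → ℝ => nE y ^ 2 := by
    have : (fun y : Fin n → ℝ => nE y ^ 2) = fun y => ∑ b, y b ^ 2 := by
      funext y; exact Pool.Agent.N991.MK.nE_sq y
    rw [this]
    exact continuous_finsetSum _ fun b _ => (continuous_apply b).pow 2
  have h1 : Tendsto (fun p : ℕ × (Fin n → ℝ) => nE p.2 ^ 2) (atTop ×ˢ 𝓝 x) (𝓝 (nE x ^ 2)) :=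
    (cE.tendsto x).comp tendsto_snd
  have hinv : Tendsto (fun p : ℕ × (Fin n → ℝ) => ((p.1 : ℝ))⁻¹) (atTop ×ˢ 𝓝 x) (𝓝 0) :=
    (tendsto_inv_atTop_nhds_zero_nat (𝕜 := ℝ)).comp tendsto_fst
  have hs : ∀ p : ℕ × (Fin n → ℝ), 1 ≤ p.1 →
      nE ((Real.sqrt (c * p.1))⁻¹ • p.2) ^ 2 = nE p.2 ^ 2 * ((p.1 : ℝ))⁻¹ / c := by
    intro p hp
    have hp0 : (0 : ℝ) < p.1 := by exact_mod_cast hp
    have h2 : Real.sqrt (c * p.1) ^ 2 = c * p.1 := Real.sq_sqrt (by positivity)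
    rw [Pool.Agent.N991.MK.nE_sq, Pool.Agent.N991.MK.nE_sq]
    simp only [Pi.smul_apply, smul_eq_mul, mul_pow, inv_pow]
    rw [← Finset.mul_sum, h2]
    field_simp
  have h2 : Tendsto (fun p : ℕ × (Fin n → ℝ) => nE ((Real.sqrt (c * p.1))⁻¹ • p.2) ^ 2)
      (atTop ×ˢ 𝓝 x) (𝓝 0) := by
    have h3 := ((h1.mul hinv).div_const c)
    rw [mul_zero, zero_div] at h3
    refine h3.congr' ?_
    filter_upwards [tendsto_fst.eventually (eventually_ge_atTop 1)] with p hp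
    exact (hs p hp).symm
  have h4 : Tendsto (fun p : ℕ × (Fin n → ℝ) => nE p.2 ^ 2 / c) (atTop ×ˢ 𝓝 x)
      (𝓝 (nE x ^ 2 / c)) := h1.div_const c
  have h5 : Tendsto (fun p : ℕ × (Fin n → ℝ) =>
      (p.1 : ℝ) * nN (em B hG (c * p.1) p.2) ^ 2 - nE p.2 ^ 2 / c) (atTop ×ˢ 𝓝 x) (𝓝 0) := by
    rw [tendsto_zero_iff_abs_tendsto_zero]
    have h6 : Tendsto (fun p : ℕ × (Fin n → ℝ) =>
        Cw * ((nE p.2 ^ 2 / c) * nE ((Real.sqrt (c * p.1))⁻¹ • p.2) ^ 2)) (atTop ×ˢ 𝓝 x)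
        (𝓝 (Cw * ((nE x ^ 2 / c) * 0))) := (h4.mul h2).const_mul Cw
    rw [mul_zero, mul_zero] at h6
    refine squeeze_zero' (Eventually.of_forall fun m => abs_nonneg _) ?_ h6
    filter_upwards [tendsto_fst.eventually (eventually_ge_atTop 1),
      h2.eventually (gt_mem_nhds (by positivity : (0 : ℝ) < ρ ^ 2))] with p hp hp2
    have hp0 : (0 : ℝ) < p.1 := by exact_mod_cast hp
    have h7 : nE ((Real.sqrt (c * p.1))⁻¹ • p.2) < ρ :=
      (abs_lt_of_sq_lt_sq' hp2 hρ.le).2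
    have h8 := hw _ h7
    have e1 : nE p.2 ^ 2 / c = p.1 * nE ((Real.sqrt (c * p.1))⁻¹ • p.2) ^ 2 := by
      rw [hs p hp]
      field_simp
    show |(p.1 : ℝ) * nN (Eg B hG ((Real.sqrt (c * p.1))⁻¹ • p.2)) ^ 2 - nE p.2 ^ 2 / c| ≤ _
    rw [e1, ← mul_sub, abs_mul, abs_of_pos hp0]
    calc (p.1 : ℝ) * _ ≤ p.1 * (Cw * nE ((Real.sqrt (c * p.1))⁻¹ • p.2) ^ 4) :=
          mul_le_mul_of_nonneg_left h8 hp0.le
      _ = _ := by ring
  have h6 := h5.add h4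
  rw [zero_add] at h6
  refine h6.congr fun p => ?_
  ring

variable [CompactSpace G] [MeasurableSpace G] [BorelSpace G] [SecondCountableTopology G]
  {μ : Measure G} [IsProbabilityMeasure μ] [μ.IsHaarMeasure] [μ.IsMulRightInvariant]
  [μ.IsInvInvariant]

/-- **The scaling limit of the limit theory at short distances**: the density is Gaussian and the
field is quadratic in the scaled coordinates. -/
theorem sd_limit (B : Frame G n) (μ : Measure G) [IsProbabilityMeasure μ] [μ.IsHaarMeasure]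
    [μ.IsMulRightInvariant] [μ.IsInvInvariant] (hG : IsClosed (G : Set (UN N))) :
    ∃ r₁ : ℝ, 0 < r₁ ∧ ∀ r : ℝ, 0 < r → r ≤ r₁ → GoodR B r →
      ∀ {ε h0 C1 κ h1 C' c C R : ℝ} {Dm : ℕ} {o : G → ℝ}, ε ≤ 1 / 1000 → 0 < κ → Continuous o →
        TanFlow μ (PT B μ r ε h0 C1) (TSt B r) o κ h1 C' Dm → 0 < c → 0 ≤ C → 0 ≤ R →
      ∀ {f : ℕ → G → ℝ} {l : ℕ → ℕ}, (∀ i, Adm (f i)) → Tendsto l atTop atTop →
        (∀ hq : ℝ, ∃ k0 : ℕ, ∀ k : ℕ, k0 ≤ k → ∃ Hu : ℝ, ∀ᶠ i in atTop, ∃ h ρ,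
          TP μ (PT B μ r ε h0 C1) c C hq R (f i) (l i - k) h ρ ∧ h (l i - k) ≤ Hu) →
      ∀ {F Φ : ℤ → G → ℝ}, (∀ k, Adm (F k)) → (∀ k, Continuous (Φ k)) →
        (∀ k : ℤ, UT (fun i x => nrm μ (TTn μ (f i) ((l i : ℤ) + k).toNat) x) (F k)) →
        (∀ k : ℤ, UT (fun i => evo μ (f i) o ((l i : ℤ) + k).toNat) (Φ k)) →
      SD B hG atTop (fun m : ℕ => c * m) (fun m z => F (-m) z / F (-m) 1) gs ∧
        SD B hG atTop (fun m : ℕ => c * m)
          (fun m z => c * m * Φ (-m) z * (F (-m) z / F (-m) 1)) (fun x => κ * fr x * gs x) := by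
  obtain ⟨r₁, hr₁, hlf⟩ := lf_limit B μ hG
  refine ⟨r₁, hr₁, fun r hr hrr hgr {ε h0 C1 κ h1 C' c C R Dm o} hε hκ ho TF hc hC
    hR f l hf hl hex F Φ hF hΦc hconv hΦ => ?_⟩
  obtain ⟨K, hK, H⟩ := hlf r hr hrr hgr hε hκ ho TF hc hC hR hf hl hex hF hconv hΦ
  have hr1 : r ≤ 1 := by
    have := hgr.le
    linarith
  obtain ⟨Cd, cd, m0, hCd, hcd, hm0, hdom⟩ := lf_dom (q := fun m z => F (-m) z / F (-m) 1)
    (u := fun m => Φ (-m)) hr hr1 hc hκ hK H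
  have htop : Tendsto (fun m : ℕ => c * (m : ℝ)) atTop atTop :=
    tendsto_natCast_atTop_atTop.const_mul_atTop hc
  have cq : ∀ m : ℕ, Continuous fun z => F (-m) z / F (-m) 1 := fun m =>
    (hF _).cont.div_const _
  have hq0 : ∀ (m : ℕ) (z : G), 0 < F (-m) z / F (-m) 1 := fun m z =>
    div_pos ((hF _).pos z) ((hF _).pos 1)
  have hlim : ∀ x : Fin n → ℝ,
      Tendsto (fun p : ℕ × (Fin n → ℝ) => F (-p.1) (em B hG (c * p.1) p.2) / F (-p.1) 1)
        (atTop ×ˢ 𝓝 x) (𝓝 (gs x)) ∧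
      Tendsto (fun p : ℕ × (Fin n → ℝ) => (p.1 : ℝ) * Φ (-p.1) (em B hG (c * p.1) p.2))
        (atTop ×ˢ 𝓝 x) (𝓝 (κ / c * fr x)) := by
    intro x
    obtain ⟨g1, g2⟩ := lf_dens (q := fun m z => F (-m) z / F (-m) 1)
      (u := fun m => Φ (-m)) hr H (L := (atTop : Filter ℕ) ×ˢ 𝓝 x)
      (M := Prod.fst) tendsto_fst (em_dist B hG hc x)
    have e1 : Real.exp (-(c / 2 * (nE x ^ 2 / c))) = gs x := by
      unfold gs
      rw [Pool.Agent.N991.MK.nE_sq]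
      congr 1
      field_simp
    have e2 : -(κ / 2 * (nE x ^ 2 / c)) = κ / c * fr x := by
      unfold Pool.Agent.N109.T3.fr
      rw [Pool.Agent.N991.MK.nE_sq]
      field_simp
    rw [e1] at g1
    rw [e2] at g2
    exact ⟨g1, g2⟩
  refine ⟨⟨htop, cq, fun x => (hlim x).1, ⟨Cd, cd / c, hCd.le, by positivity, ?_⟩⟩,
    ⟨htop, fun m => (continuous_const.mul (hΦc _)).mul (cq m), fun x => ?_,
      ⟨c * Cd, cd / c, by positivity, by positivity, ?_⟩⟩⟩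
  · filter_upwards [eventually_ge_atTop m0] with m hm z
    have h1 := (hdom m hm z).1
    rw [abs_of_pos (hq0 m z)]
    have e : cd / c * (c * (m : ℝ) * nN z ^ 2) = cd * m * nN z ^ 2 := by field_simp
    rw [e]
    exact h1
  · obtain ⟨g1, g2⟩ := hlim x
    have h1 := (g2.const_mul c).mul g1
    have e : c * (κ / c * fr x) * gs x = κ * fr x * gs x := by field_simp
    rw [e] at h1
    refine h1.congr fun p => ?_
    ring
  · filter_upwards [eventually_ge_atTop m0] with m hm z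
    have h1 := (hdom m hm z).2
    have e : cd / c * (c * (m : ℝ) * nN z ^ 2) = cd * m * nN z ^ 2 := by field_simp
    rw [e, abs_mul, abs_mul, abs_mul, abs_of_pos (hq0 m z), abs_of_pos hc, Nat.abs_cast]
    calc c * (m : ℝ) * |Φ (-m) z| * (F (-m) z / F (-m) 1) =
          c * ((m : ℝ) * |Φ (-m) z| * (F (-m) z / F (-m) 1)) := by ring
      _ ≤ c * (Cd * Real.exp (-(cd * m * nN z ^ 2))) := mul_le_mul_of_nonneg_left h1 hc.le
      _ = _ := by ring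

end

end Pool.Agent.N453.MK
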