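import Mathlib
import Pool.Agent.N453.MK.Lim2

/-!
# The environment in the limit theory
-/

open MeasureTheory Matrix Filter
open scoped Matrix.Norms.Frobenius ContDiff Topology
open Pool.Agent.H906R3.YM Pool.Agent.W793.YM Pool.Agent.TH618.YM Pool.Agent.N984.TW
open Pool.Agent.N991.MK
open Pool.Agent.N988.MK (NS St PT TSt IsoG qC nf ng eq_nf eq_ng)
open Pool.Agent.N989.MK (TT TTn H4 Adm TR TP nrm UT)
open Pool.Agent.N681.MK (dTn fld TanFlow evo)
open Pool.Agent.N565.MK (env envS env_adm env_le env_TTn)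

namespace Pool.Agent.N453.MK

set_option linter.unusedSectionVars false

noncomputable section

section general

variable {G : Type*} [Group G] [TopologicalSpace G] [IsTopologicalGroup G] [CompactSpace G]
  [MeasurableSpace G] [BorelSpace G] [SecondCountableTopology G]
  {μ : Measure G} [IsProbabilityMeasure μ] [μ.IsHaarMeasure] [μ.IsMulRightInvariant]
  [μ.IsInvInvariant]

lemma UT.envS {a e : ℕ → G → ℝ} {A E : G → ℝ} (ha' : ∀ i, Continuous (a i))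
    (he' : ∀ i, Continuous (e i)) (hA : Continuous A) (hE : Continuous E) (ha : UT a A)
    (he : UT e E) : UT (fun i => envS μ (a i) (e i)) (envS μ A E) := by
  have c4 : ∀ {f : G → ℝ}, Continuous f → Continuous (H4 μ f) := fun hf =>
    cont_conv (cont_conv hf hf) (cont_conv hf hf)
  have h4 : UT (fun i => H4 μ (a i)) (H4 μ A) := Pool.Agent.N681.MK.UT.H4 ha' hA ha
  have h42 : UT (fun i x => H4 μ (a i) x * H4 μ (a i) x) fun x => H4 μ A x * H4 μ A x :=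
    Pool.Agent.N681.MK.UT.mul (c4 hA) (c4 hA) h4 h4
  have h43 : UT (fun i x => H4 μ (a i) x * H4 μ (a i) x * H4 μ (a i) x)
      fun x => H4 μ A x * H4 μ A x * H4 μ A x :=
    Pool.Agent.N681.MK.UT.mul ((c4 hA).mul (c4 hA)) (c4 hA) h42 h4
  have h5 : UT (fun i x => H4 μ (a i) x * H4 μ (a i) x * H4 μ (a i) x * e i x)
      fun x => H4 μ A x * H4 μ A x * H4 μ A x * E x :=
    Pool.Agent.N681.MK.UT.mul (((c4 hA).mul (c4 hA)).mul (c4 hA)) hE h43 he
  have h3 : UT (fun i => conv μ (a i) (conv μ (a i) (a i))) (conv μ A (conv μ A A)) :=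
    Pool.Agent.N681.MK.UT.conv2 ha' (fun i => cont_conv (ha' i) (ha' i)) hA (cont_conv hA hA) ha
      (Pool.Agent.N681.MK.UT.conv2 ha' ha' hA hA ha ha)
  have h6 := Pool.Agent.N681.MK.UT.conv2 (μ := μ)
    (fun i => cont_conv (ha' i) (cont_conv (ha' i) (ha' i)))
    (fun i => (((c4 (ha' i)).mul (c4 (ha' i))).mul (c4 (ha' i))).mul (he' i))
    (cont_conv hA (cont_conv hA hA)) ((((c4 hA).mul (c4 hA)).mul (c4 hA)).mul hE) h3 h5
  have e1 : ∀ f g : G → ℝ, (fun x => H4 μ f x ^ 3 * g x) =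
      fun x => H4 μ f x * H4 μ f x * H4 μ f x * g x := fun f g => by
    funext x
    ring
  unfold Pool.Agent.N565.MK.envS
  simp only [e1]
  exact h6

lemma UT.env {a : ℕ → G → ℝ} {A : G → ℝ} (ha' : ∀ i, Adm (a i)) (hA : Adm A) (ha : UT a A) :
    ∀ d j : ℕ, UT (fun i => env μ (a i) j d) (env μ A j d)
  | 0, _ => Pool.Agent.N681.MK.UT.const _
  | d + 1, j => by
    have h1 := UT.env ha' hA ha d (j + 1)
    have h2 : UT (fun i => TTn μ (a i) j) (TTn μ A j) :=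
      Pool.Agent.N989.MK.UT.TTn ha' hA ha j
    exact UT.envS (fun i => ((ha' i).TTn (μ := μ) j).cont)
      (fun i => (env_adm (μ := μ) (ha' i) d (j + 1)).cont) (hA.TTn (μ := μ) j).cont
      (env_adm (μ := μ) hA d (j + 1)).cont h2 h1

lemma conv_mulc (c C : ℝ) (f g : G → ℝ) : conv μ (fun x => c * f x) (fun x => C * g x) =
    fun x => c * C * conv μ f g x := by
  funext x
  unfold Pool.Agent.N991.MK.conv
  rw [← integral_const_mul]
  refine integral_congr_ae (Eventually.of_forall fun y => ?_)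
  beta_reduce
  ring

lemma H4_mulc (c : ℝ) (f : G → ℝ) : H4 μ (fun x => c * f x) = fun x => c ^ 4 * H4 μ f x := by
  unfold Pool.Agent.N989.MK.H4
  rw [conv_mulc, conv_mulc]
  funext x
  ring

lemma TT_mulc (c : ℝ) (f : G → ℝ) : TT μ (fun x => c * f x) = fun x => c ^ 16 * TT μ f x := by
  unfold Pool.Agent.N989.MK.TT
  rw [H4_mulc]
  funext x
  ring

lemma TTn_mulc (c : ℝ) (f : G → ℝ) : ∀ j, TTn μ (fun x => c * f x) j =
    fun x => c ^ 16 ^ j * TTn μ f j x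
  | 0 => by
    funext x
    show c * f x = c ^ 16 ^ 0 * f x
    simp
  | j + 1 => by
    have h : ∀ g : G → ℝ, TTn μ g (j + 1) = TT μ (TTn μ g j) := fun _ => rfl
    rw [h, h, TTn_mulc c f j, TT_mulc]
    funext x
    rw [← pow_mul, pow_succ]

lemma env_mulc {c : ℝ} (hc : 0 < c) (f : G → ℝ) : ∀ d j : ℕ, ∃ C : ℝ, 0 < C ∧
    env μ (fun x => c * f x) j d = fun x => C * env μ f j d x
  | 0, _ => ⟨1, one_pos, by
    funext x
    show (1 : ℝ) = 1 * 1
    norm_num⟩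
  | d + 1, j => by
    obtain ⟨C, hC, h⟩ := env_mulc hc f d (j + 1)
    refine ⟨(c ^ 16 ^ j) ^ 15 * C, by positivity, ?_⟩
    show envS μ (TTn μ (fun x => c * f x) j) (env μ (fun x => c * f x) (j + 1) d) =
      fun x => (c ^ 16 ^ j) ^ 15 * C * envS μ (TTn μ f j) (env μ f (j + 1) d) x
    rw [h, TTn_mulc]
    unfold Pool.Agent.N565.MK.envS
    rw [conv_mulc, conv_mulc, H4_mulc]
    have e : (fun x => ((c ^ 16 ^ j) ^ 4 * H4 μ (TTn μ f j) x) ^ 3 *
        (C * env μ f (j + 1) d x)) =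
        fun x => ((c ^ 16 ^ j) ^ 12 * C) * (H4 μ (TTn μ f j) x ^ 3 * env μ f (j + 1) d x) := by
      funext x
      ring
    rw [e, conv_mulc]
    funext x
    ring

/-- the environments converge, up to a factor -/
lemma env_conv {f : ℕ → G → ℝ} {l : ℕ → ℕ} (hf : ∀ i, Adm (f i)) {F : ℤ → G → ℝ}
    (hF : ∀ k, Adm (F k))
    (hconv : ∀ k : ℤ, UT (fun i x => nrm μ (TTn μ (f i) ((l i : ℤ) + k).toNat) x) (F k))
    (m d : ℕ) : ∃ C : ℕ → ℝ, (∀ i, 0 < C i) ∧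
      UT (fun i x => C i * env μ (f i) (l i - m) d x) (env μ (F (-m)) 0 d) := by
  have e : ∀ i, ((l i : ℤ) + -(m : ℤ)).toNat = l i - m := fun i => by omega
  have h1 := hconv (-m)
  simp only [e] at h1
  have hA : ∀ i, Adm (nrm μ (TTn μ (f i) (l i - m))) := fun i =>
    ((hf i).TTn (μ := μ) (l i - m)).nrm (μ := μ)
  have h2 := UT.env (μ := μ) hA (hF (-m)) h1 d 0
  have h3 : ∀ i, ∃ C : ℝ, 0 < C ∧ env μ (nrm μ (TTn μ (f i) (l i - m))) 0 d =
      fun x => C * env μ (f i) (l i - m) d x := by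
    intro i
    have hp := (((hf i).TTn (μ := μ) (l i - m)).ipos (μ := μ))
    obtain ⟨C, hC, h4⟩ := env_mulc (μ := μ) (inv_pos.2 hp) (TTn μ (f i) (l i - m)) d 0
    refine ⟨C, hC, ?_⟩
    have e1 : nrm μ (TTn μ (f i) (l i - m)) =
        fun x => (∫ y, TTn μ (f i) (l i - m) y ∂μ)⁻¹ * TTn μ (f i) (l i - m) x := rfl
    rw [e1, h4, env_TTn, add_zero]
  choose C hC h3 using h3
  refine ⟨C, hC, ?_⟩
  simp only [h3] at h2
  exact h2

end general

variable {N n : ℕ} {G : Subgroup (UN N)} {B : Frame G n}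
variable [CompactSpace G] [MeasurableSpace G] [BorelSpace G] [SecondCountableTopology G]
  {μ : Measure G} [IsProbabilityMeasure μ] [μ.IsHaarMeasure] [μ.IsMulRightInvariant]
  [μ.IsInvInvariant]

/-- **the environment in the limit theory** -/
theorem env_limit (μ : Measure G) [IsProbabilityMeasure μ] [μ.IsHaarMeasure]
    [μ.IsMulRightInvariant] [μ.IsInvInvariant] {cA : ℝ} (hG : IsClosed (G : Set (UN N)))
    (hI : IsoG B) (hn : 0 < n)
    (hcA : ∀ x : Fin n → ℝ, ∑ a, ‖LX B x * B.X a - B.X a * LX B x‖ ^ 2 = cA * nE x ^ 2) :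
    ∃ r₁ ε₁ : ℝ, 0 < r₁ ∧ 0 < ε₁ ∧ ε₁ ≤ 1 / 1000 ∧ ∀ r : ℝ, 0 < r → r ≤ r₁ → GoodR B r →
      ∀ {ε h0 C1 κ h1 C' c C R : ℝ} {Dm : ℕ} {o : G → ℝ}, ε ≤ ε₁ → 0 < κ → Continuous o →
        TanFlow μ (PT B μ r ε h0 C1) (TSt B r) o κ h1 C' Dm → 0 < c → 0 ≤ C → 0 ≤ R →
      ∀ {f : ℕ → G → ℝ} {l : ℕ → ℕ}, (∀ i, Adm (f i)) → Tendsto l atTop atTop →
        (∀ hq : ℝ, ∃ k0 : ℕ, ∀ k : ℕ, k0 ≤ k → ∃ Hu : ℝ, ∀ᶠ i in atTop, ∃ h ρ,
          TP μ (PT B μ r ε h0 C1) c C hq R (f i) (l i - k) h ρ ∧ h (l i - k) ≤ Hu) →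
      ∀ {F : ℤ → G → ℝ}, (∀ k, Adm (F k)) →
        (∀ k : ℤ, UT (fun i x => nrm μ (TTn μ (f i) ((l i : ℤ) + k).toNat) x) (F k)) →
      ∃ (m1 : ℕ) (c₁ C₂ r' : ℝ), 0 < c₁ ∧ 0 < C₂ ∧ 0 < r' ∧ ∀ m : ℕ, m1 ≤ m → ∀ d : ℕ,
        (∀ x, env μ (F (-m)) 0 d x ≤ env μ (F (-m)) 0 d 1) ∧
        ∀ x, nN x ≤ r' → c₁ * env μ (F (-m)) 0 d 1 * Real.exp (-(C₂ * m * nN x ^ 2)) ≤
          env μ (F (-m)) 0 d x := by
  obtain ⟨r₁, ε₁, hr₁, hε₁, hε2, hD⟩ := env_traj (B := B) μ hG hI hn hcA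
  refine ⟨r₁, ε₁, hr₁, hε₁, hε2, fun r hr hrr hgr {ε h0 C1 κ h1 C' c C R Dm o} hε hκ ho TF hc hC
    hR f l hf hl hex F hF hconv => ?_⟩
  obtain ⟨H0, hH0, hD⟩ := hD r hr hrr
  obtain ⟨Hf, Bn, hHf, hBn, hCH, hfar⟩ := far_traj (B := B) (μ := μ) (h1 := h1) hG hgr
    (hε.trans hε2) hκ ho TF hc hC hR
  obtain ⟨hq, k0, m0, hHq, hm0⟩ := coupling_lattice hc hC hR hl hex (max H0 Hf) (half_pos hc)
  obtain ⟨c₁, hc₁, hs⟩ := soft_of_conv hf hF hconv k0
  refine ⟨m0 + 1, min c₁ (1 / 2), 3 / 4 * c, r / 8, by positivity, by positivity, by positivity,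
    fun m hm d => ?_⟩
  have hmp : (0 : ℝ) < m := by exact_mod_cast (by omega : 0 < m)
  obtain ⟨C₀, hC₀, hE⟩ := env_conv hf hF hconv m d
  have cx : ∀ x : G, Tendsto (fun i => C₀ i * env μ (f i) (l i - m) d x) atTop
      (𝓝 (env μ (F (-m)) 0 d x)) := by
    intro x
    rw [Metric.tendsto_atTop']
    intro e he
    obtain ⟨n1, hn1⟩ := eventually_atTop.1 (hE e he)
    exact ⟨n1, fun i hi => hn1 i hi.le x⟩
  constructor
  · intro x
    refine le_of_tendsto_of_tendsto (cx x) (cx 1) ?_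
    filter_upwards [hm0 m (by omega)] with i hi
    obtain ⟨h, ρ, tp, g1, -, -, -⟩ := hi
    exact mul_le_mul_of_nonneg_left (env_le (μ := μ) (hf i) d _ g1 x) (hC₀ i).le
  · intro x hx
    refine le_of_tendsto_of_tendsto (((cx 1).const_mul (min c₁ (1 / 2))).mul_const
      (Real.exp (-(3 / 4 * c * m * nN x ^ 2)))) (cx x) ?_
    filter_upwards [hm0 m (by omega), hs] with i hi hsi
    obtain ⟨h, ρ, tp, g1, g2, g3, g4⟩ := hi
    obtain ⟨hrat, -⟩ := hfar hq (f i) _ h ρ ((le_max_right _ _).trans hHq) (hf i) tp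
    have hsi' : ∀ x y, min c₁ (1 / 2) * TTn μ (f i) (l i - k0) y ≤ TTn μ (f i) (l i - k0) x := by
      intro x y
      have hp := ((hf i).TTn (μ := μ) (l i - k0)).pos y
      exact (mul_le_mul_of_nonneg_right (min_le_left _ _) hp.le).trans (hsi x y)
    have h2 := hD hε ((le_max_left _ _).trans hHq) (hf i) tp (fun i hi => (hrat i hi).2)
      (by positivity) (min_le_right _ _) hsi' (l i - m) g2 d x hx
    obtain ⟨h3, h4⟩ := abs_le.1 g3
    have h5 : h (l i - m) / 2 * nN x ^ 2 ≤ 3 / 4 * c * m * nN x ^ 2 :=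
      mul_le_mul_of_nonneg_right (by linarith) (sq_nonneg _)
    have hE1 := (env_adm (μ := μ) (hf i) d (l i - m)).pos 1
    calc min c₁ (1 / 2) * (C₀ i * env μ (f i) (l i - m) d 1) *
          Real.exp (-(3 / 4 * c * m * nN x ^ 2))
        ≤ min c₁ (1 / 2) * (C₀ i * env μ (f i) (l i - m) d 1) *
          Real.exp (-(h (l i - m) / 2 * nN x ^ 2)) := by
          refine mul_le_mul_of_nonneg_left (Real.exp_le_exp.2 (neg_le_neg h5)) ?_
          have := hC₀ i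
          positivity
      _ = C₀ i * (min c₁ (1 / 2) * env μ (f i) (l i - m) d 1 *
          Real.exp (-(h (l i - m) / 2 * nN x ^ 2))) := by ring
      _ ≤ _ := mul_le_mul_of_nonneg_left h2 (hC₀ i).le

end

end Pool.Agent.N453.MK
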